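import Pool.Agent.POpt70.RelSparse

/-!
# The optimal system relative to the sparse oracle
-/

set_option autoImplicit false

namespace Pool.Agent.POpt70

open Pool.Agent.PT Pool.Agent.TMB67 Pool.Agent.POpt67 N68a2faeb N793a5b8e N487b59b3

/-- No failure was recorded for the program of the current position. -/
def noFailB (l : ℕ) (s : List Bool) : Bool :=
  (List.range (ll l + 1)).all fun i => !(decide (nu i = nu (ll l))) || !(s.getD (cp l i) false)

/-- The program of the current position was activated. -/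
def wasActB (l : ℕ) (s : List Bool) : Bool :=
  (List.range (ll l)).any fun i => decide (nu i = nu (ll l) - 1) && s.getD (cp l i) false

theorem noFailB_polyTime {α : Type} [Enc α] {l : α → ℕ} {s : α → List Bool} (hl : PolyTime l)
    (hs : PolyTime s) : PolyTime (fun x => noFailB (l x) (s x)) := by
  unfold noFailB
  refine PolyTime.all (g := fun x i => !(decide (nu i = nu (ll (l x)))) ||
    !((s x).getD (cp (l x) i) false)) (PolyTime.range (by fun_prop)) ?_
  exact PolyTime.or (PolyTime.not (PolyTime.decide_eq (by fun_prop) (by fun_prop)))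
    (PolyTime.not (PolyTime.getD (by fun_prop) (by fun_prop) (PolyTime.const false)))

theorem wasActB_polyTime {α : Type} [Enc α] {l : α → ℕ} {s : α → List Bool} (hl : PolyTime l)
    (hs : PolyTime s) : PolyTime (fun x => wasActB (l x) (s x)) := by
  unfold wasActB
  refine PolyTime.any (g := fun x i => decide (nu i = nu (ll (l x)) - 1) &&
    (s x).getD (cp (l x) i) false) (PolyTime.range (by fun_prop)) ?_
  exact PolyTime.and (PolyTime.decide_eq (by fun_prop) (by fun_prop))
    (PolyTime.getD (by fun_prop) (by fun_prop) (PolyTime.const false))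

/-- The value computed by the system. -/
noncomputable def sval (x u s : List Bool) : List Bool :=
  gvalR (un4 (nu (ll x.length) / 2)).1 (un4 (nu (ll x.length) / 2)).2.1 u
    (s.take (Nat.log 2 x.length)) x.length

/-- The trust condition: `s` is a sufficiently long segment of the oracle. -/
noncomputable def trustB (r e : ℕ) (x u s : List Bool) : Bool :=
  decide (x = List.replicate (cp2 x.length (ll x.length)) true) && decide (2 ≤ x.length) &&
    decide (nu (ll x.length) % 2 = 1) && decide ((un4 (nu (ll x.length) / 2)).2.2 = (r, e)) &&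
    decide (guardn (un4 (nu (ll x.length) / 2)).2.1
      (u.length + (s.take (Nat.log 2 x.length)).length) x.length) &&
    wasActB x.length s && noFailB x.length s && decide (guardn e (sval x u s).length x.length)

theorem un4nu_polyTime {α : Type} [Enc α] {f : α → List Bool} (hf : PolyTime f) :
    PolyTime (fun x => un4 (nu (ll (f x).length) / 2)) :=
  un4_polyTime.comp (PolyTime.natDiv (by fun_prop) (PolyTime.const 2))

theorem sval_polyTime {α : Type} [Enc α] {x u s : α → List Bool} (hx : PolyTime x)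
    (hu : PolyTime u) (hs : PolyTime s) : PolyTime (fun y => sval (x y) (u y) (s y)) := by
  have h1 := un4nu_polyTime hx
  exact gvalR_polyTime (PolyTime.fst h1) (PolyTime.fst (PolyTime.snd h1)) hu
    (PolyTime.take (by fun_prop) hs) (by fun_prop)

theorem trustB_polyTime {α : Type} [Enc α] (r e : ℕ) {x u s : α → List Bool} (hx : PolyTime x)
    (hu : PolyTime u) (hs : PolyTime s) : PolyTime (fun y => trustB r e (x y) (u y) (s y)) := by
  have h1 := un4nu_polyTime hx
  have hmod : PolyTime (fun y => nu (ll (x y).length) % 2) :=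
    PolyTime.natMod (by fun_prop) (PolyTime.const 2)
  have e3 : PolyTime (fun y => decide (guardn (un4 (nu (ll (x y).length) / 2)).2.1
      ((u y).length + ((s y).take (Nat.log 2 (x y).length)).length) (x y).length)) :=
    guardn_polyTime (PolyTime.fst (PolyTime.snd h1)) (PolyTime.natAdd (by fun_prop)
      (PolyTime.length (PolyTime.take (by fun_prop) hs))) (by fun_prop)
  have e4 : PolyTime (fun y => decide (guardn e (sval (x y) (u y) (s y)).length (x y).length)) :=
    guardn_polyTime (PolyTime.const e) (PolyTime.length (sval_polyTime hx hu hs)) (by fun_prop)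
  have e5 : PolyTime (fun y => decide ((un4 (nu (ll (x y).length) / 2)).2.2 = (r, e))) :=
    PolyTime.decide_eq (PolyTime.snd (PolyTime.snd h1)) (PolyTime.const (r, e))
  have e6 : PolyTime (fun y => decide (x y = List.replicate (cp2 (x y).length (ll (x y).length))
      true)) := PolyTime.decide_eq hx (PolyTime.replicate (by fun_prop) (PolyTime.const true))
  have e7 : PolyTime (fun y => decide (2 ≤ (x y).length)) :=
    PolyTime.decide_le (PolyTime.const 2) (by fun_prop)
  have e8 : PolyTime (fun y => decide (nu (ll (x y).length) % 2 = 1)) :=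
    PolyTime.decide_eq hmod (PolyTime.const 1)
  unfold trustB
  exact PolyTime.and (PolyTime.and (PolyTime.and (PolyTime.and (PolyTime.and (PolyTime.and
    (PolyTime.and e6 e7) e8) e5) e3) (wasActB_polyTime (by fun_prop) hs))
    (noFailB_polyTime (by fun_prop) hs)) e4

/-- The proof system. -/
noncomputable def sysR (r e : ℕ) (D : List Bool → List Bool × List Bool) (y0 : List Bool)
    (p : List Bool × List Bool) : List Bool :=
  bif decide ((D p.1).1.length ≤ p.1.length) && trustB r e (D p.1).1 (D p.1).2 p.2 then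
    sval (D p.1).1 (D p.1).2 p.2 else y0

theorem sysR_polyTime (r e : ℕ) {D : List Bool → List Bool × List Bool} (hD : PolyTime D)
    (y0 : List Bool) : PolyTime (sysR r e D y0) := by
  have h0 : PolyTime (fun p : List Bool × List Bool => D p.1) := hD.comp PolyTime.fst'
  exact PolyTime.cond (PolyTime.and (PolyTime.decide_le (by fun_prop) (by fun_prop))
    (trustB_polyTime r e (PolyTime.fst h0) (PolyTime.snd h0) PolyTime.snd'))
    (sval_polyTime (PolyTime.fst h0) (PolyTime.snd h0) PolyTime.snd') (PolyTime.const y0)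

section spec

theorem trustB_word {x : List Bool} (h1 : x = List.replicate (cp2 x.length (ll x.length)) true)
    (h2 : 2 ≤ x.length) : x = word (ll x.length) := by
  have hxl : 2 ^ 2 ^ ll x.length ≤ x.length := by
    have h00 : Nat.log 2 x.length ≠ 0 := by
      have := Nat.log_pos (b := 2) (by norm_num) h2
      omega
    calc 2 ^ 2 ^ ll x.length ≤ 2 ^ Nat.log 2 x.length :=
          Nat.pow_le_pow_right (by norm_num) (Nat.pow_log_le_self 2 h00)
      _ ≤ x.length := Nat.pow_log_le_self 2 (by omega)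
  rw [word_eq_cp2 hxl] at h1
  exact h1

theorem cp_word {i J : ℕ} (h : i ≤ J) : cp (2 ^ 2 ^ J) i = 2 ^ i := by
  refine cp_eq (Nat.pow_le_pow_right (by norm_num) ?_)
  exact h.trans (Nat.lt_two_pow_self).le

theorem log_word (J : ℕ) : Nat.log 2 (2 ^ 2 ^ J) = 2 ^ J := Nat.log_pow (by norm_num) _

theorem sval_word {T : ℕ → Bool} {J k : ℕ} {u : List Bool} (hk : 2 ^ J < k) :
    sval (word J) u (pre T k) = gvalR (un4 (nu J / 2)).1 (un4 (nu J / 2)).2.1 u (pre T (2 ^ J))
        (2 ^ 2 ^ J) := by
  rw [sval, ll_word, word_length, log_word, pre_take T hk.le]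

/-- The meaning of trust for a word of full length. -/
theorem trustB_iff {r e : ℕ} {T : ℕ → Bool} {J k : ℕ} {u : List Bool} (hk : 2 ^ J < k) :
    trustB r e (word J) u (pre T k) = true ↔
      nu J % 2 = 1 ∧ (un4 (nu J / 2)).2.2 = (r, e) ∧
      guardn (un4 (nu J / 2)).2.1 (u.length + 2 ^ J) (2 ^ 2 ^ J) ∧
      (∃ i < J, nu i = nu J - 1 ∧ T (2 ^ i) = true) ∧
      (∀ i ≤ J, nu i = nu J → T (2 ^ i) = false) ∧
      guardn e (gvalR (un4 (nu J / 2)).1 (un4 (nu J / 2)).2.1 u (pre T (2 ^ J))
        (2 ^ 2 ^ J)).length (2 ^ 2 ^ J) := by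
  have h2 : 2 ≤ 2 ^ 2 ^ J := by
    calc 2 = 2 ^ 2 ^ 0 := by norm_num
      _ ≤ 2 ^ 2 ^ J :=
        Nat.pow_le_pow_right (by norm_num) (Nat.pow_le_pow_right (by norm_num) (Nat.zero_le _))
  have h1 : word J = List.replicate (cp2 (2 ^ 2 ^ J) J) true := (word_eq_cp2 le_rfl).symm
  have h3 : ∀ i ≤ J, (pre T k).getD (cp (2 ^ 2 ^ J) i) false = T (2 ^ i) := by
    intro i hi
    rw [cp_word hi, pre_getD]
    exact (Nat.pow_le_pow_right (by norm_num) hi).trans_lt hk
  have h4 : wasActB (2 ^ 2 ^ J) (pre T k) = true ↔ ∃ i < J, nu i = nu J - 1 ∧ T (2 ^ i) = true := by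
    unfold wasActB
    rw [ll_pow, List.any_eq_true]
    simp only [List.mem_range, Bool.and_eq_true, decide_eq_true_iff]
    refine exists_congr fun i => and_congr_right fun hi => ?_
    rw [h3 i hi.le]
  have h5 : noFailB (2 ^ 2 ^ J) (pre T k) = true ↔ ∀ i ≤ J, nu i = nu J → T (2 ^ i) = false := by
    unfold noFailB
    rw [ll_pow, List.all_eq_true]
    simp only [List.mem_range, Nat.lt_succ_iff, Bool.or_eq_true, Bool.not_eq_true',
      decide_eq_false_iff_not]
    refine forall_congr' fun i => forall_congr' fun hi => ?_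
    rw [h3 i hi]
    tauto
  unfold trustB
  rw [sval_word hk, word_length, ll_pow, log_word, pre_take T hk.le, pre_length]
  simp only [Bool.and_eq_true, decide_eq_true_iff, h4, h5]
  constructor
  · rintro ⟨⟨⟨⟨⟨⟨⟨_, _⟩, a1⟩, a2⟩, a3⟩, a4⟩, a5⟩, a6⟩
    exact ⟨a1, a2, a3, a4, a5, a6⟩
  · rintro ⟨a1, a2, a3, a4, a5, a6⟩
    exact ⟨⟨⟨⟨⟨⟨⟨h1, h2⟩, a1⟩, a2⟩, a3⟩, a4⟩, a5⟩, a6⟩

theorem word_of_trustB {r e : ℕ} {x u s : List Bool} (h : trustB r e x u s = true) :
    x = word (ll x.length) := by
  unfold trustB at h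
  simp only [Bool.and_eq_true, decide_eq_true_iff] at h
  exact trustB_word h.1.1.1.1.1.1.1 h.1.1.1.1.1.1.2

end spec

theorem log_two_mul_word {J n : ℕ} (h : 2 ^ 2 ^ J ≤ n) : 2 ^ J < Nat.log 2 (2 * n) := by
  refine Nat.lt_of_lt_of_le (Nat.lt_succ_self _) ?_
  refine Nat.le_log_of_pow_le (by norm_num) ?_
  rw [pow_succ]
  omega

section optimal

variable {β : ℕ → ℕ} {L : DecisionProblem} {r e : ℕ}

/-- Soundness of the system. -/
theorem sysR_sound (hLL : ∀ y k, Nat.log 2 ((y.length + 2) ^ (e + 1)) ≤ k →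
      (LL r e (pre (oS β) k) y ↔ L y = true)) (D : List Bool → List Bool × List Bool)
    {y0 : List Bool} (h0 : L y0 = true) (π : List Bool) {k : ℕ}
    (hk : Nat.log 2 (2 * π.length) ≤ k) : L (sysR r e D y0 (π, pre (oS β) k)) = true := by
  unfold sysR
  beta_reduce
  cases hc : decide ((D π).1.length ≤ π.length) && trustB r e (D π).1 (D π).2 (pre (oS β) k)
  · exact h0
  · rw [Bool.and_eq_true, decide_eq_true_iff] at hc
    rw [cond_true]
    obtain ⟨hlen, htr⟩ := hc
    have hx := word_of_trustB htr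
    generalize ll (D π).1.length = J at hx
    rw [hx] at htr hlen ⊢
    rw [word_length] at hlen
    generalize (D π).2 = u at htr ⊢
    have hJk : 2 ^ J < k := (log_two_mul_word hlen).trans_le hk
    obtain ⟨a1, a2, a3, ⟨i, hi, a4, a5⟩, a6, a7⟩ := (trustB_iff hJk).1 htr
    rw [sval_word hJk]
    have hnu : nu J = 2 * (nu J / 2) + 1 := by omega
    have hsnd : SoundR (nu J / 2) (pre (oS β) (2 ^ J)) := by
      have h1 := a6 J le_rfl rfl
      rw [← Bool.not_eq_true, oS_odd hnu] at h1
      by_contra hc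
      refine h1 ⟨⟨i, hi, by omega, a5⟩, fun i hi h => a6 i hi.le (h.trans hnu.symm), hc⟩
    have hg : guardn (un4 (nu J / 2)).2.1 (u.length + (pre (oS β) (2 ^ J)).length)
        (2 ^ (pre (oS β) (2 ^ J)).length) := by
      rw [pre_length]
      exact a3
    rw [gvalR_eq (by rw [pre_length]; exact a3)] at a7 ⊢
    have h2 := hsnd u hg (by
      rw [pre_length, a2]
      exact a7)
    rw [a2] at h2
    refine (hLL _ _ ?_).1 h2
    have h3 := guardn_pow a7
    calc Nat.log 2 _ ≤ Nat.log 2 (2 ^ 2 ^ J) := Nat.log_mono_right h3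
      _ = 2 ^ J := log_word J

theorem exists_act (hβ : ∀ k, ∃ n, ∀ i, n ≤ i → k ≤ β i) (m : ℕ) : ∃ J, Act β m J := by
  classical
  have h : ∃ J, nu J = 2 * m ∧ ∀ i, J ≤ i → 2 * (m + 1) ≤ β i := by
    obtain ⟨n, hn⟩ := hβ (2 * (m + 1))
    refine ⟨pos (2 * m) 0 n 0, nu_pos _ _ _ _, fun i hi => hn i ?_⟩
    have := lt_pos (2 * m) 0 n 0
    omega
  exact ⟨Nat.find h, Nat.find_spec h, fun J' hJ' => Nat.find_min h hJ'⟩

theorem size_le_of_lt_pow {n k : ℕ} (h : n < 2 ^ k) : Nat.size n ≤ k := Nat.size_le.2 h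

/-- The guard is satisfied at large positions. -/
theorem guard_large (a C j₀ n J : ℕ) (hj₀ : ∀ J, j₀ ≤ J → 2 * (a + 1) * (J + 2) ≤ 2 ^ J)
    (hC : 2 * (a + 1) ≤ C) (hJ : Nat.size (C * (Nat.size n + 1)) + j₀ ≤ J) :
    guardn a (n + 2 ^ J) (2 ^ 2 ^ J) := by
  unfold guardn
  rw [Nat.log_pow (by norm_num)]
  have h1 : C * (Nat.size n + 1) ≤ 2 ^ J :=
    (Nat.lt_size_self _).le.trans (Nat.pow_le_pow_right (by norm_num) (by omega))
  have h2 := hj₀ J (by omega)
  have h3 : Nat.size (n + 2 ^ J) ≤ Nat.size n + J + 1 := by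
    refine size_le_of_lt_pow ?_
    have h4 : n < 2 ^ Nat.size n := Nat.lt_size_self n
    have h5 : 2 ^ Nat.size n ≤ 2 ^ (Nat.size n + J) := Nat.pow_le_pow_right (by norm_num) (by omega)
    have h6 : 2 ^ J ≤ 2 ^ (Nat.size n + J) := Nat.pow_le_pow_right (by norm_num) (by omega)
    rw [pow_succ]
    omega
  have h7 : 2 * (a + 1) * (Nat.size n + 1) ≤ C * (Nat.size n + 1) := Nat.mul_le_mul_right _ hC
  have h8 : (a + 1) * (Nat.size (n + 2 ^ J) + 1) ≤ (a + 1) * (Nat.size n + J + 1 + 1) :=
    Nat.mul_le_mul_left _ (by omega)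
  nlinarith

theorem exists_j0 (a : ℕ) : ∃ j₀, ∀ J, j₀ ≤ J → 2 * (a + 1) * (J + 2) ≤ 2 ^ J := by
  refine ⟨2 * a + 8, fun J hJ => ?_⟩
  obtain ⟨k, rfl⟩ := Nat.exists_eq_add_of_le hJ
  induction k with
  | zero =>
    have h1 : ∀ a : ℕ, (a + 1) * (2 * a + 10) ≤ 2 ^ (2 * a + 7) := by
      intro a
      induction a with
      | zero => norm_num
      | succ a ih =>
        have h2 : 2 ^ (2 * (a + 1) + 7) = 4 * 2 ^ (2 * a + 7) := by
          rw [show 2 * (a + 1) + 7 = 2 * a + 7 + 2 by ring, pow_add]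
          ring
        nlinarith
    have h3 := h1 a
    have h4 : 2 ^ (2 * a + 8 + 0) = 2 * 2 ^ (2 * a + 7) := by
      rw [Nat.add_zero, show 2 * a + 8 = 2 * a + 7 + 1 by ring, pow_succ]
      ring
    rw [h4]
    nlinarith
  | succ k ih =>
    have h1 := ih (by omega)
    have h2 : 2 ^ (2 * a + 8 + (k + 1)) = 2 * 2 ^ (2 * a + 8 + k) := by
      rw [← Nat.add_assoc, pow_succ]
      ring
    rw [h2]
    nlinarith

/-- Simulation of all systems. -/
theorem sysR_sim (hβ : ∀ k, ∃ n, ∀ i, n ≤ i → k ≤ β i)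
    (hLL : ∀ y k, Nat.log 2 ((y.length + 2) ^ (e + 1)) ≤ k →
      (LL r e (pre (oS β) k) y ↔ L y = true)) {D : List Bool → List Bool × List Bool}
    (hD' : ∀ x, D (bitEncode x) = x) (y0 : List Bool) {S : List Bool → List Bool}
    (hS : RT (oS β) S) (hSL : ∀ u, L (S u) = true) :
    ∃ h : List Bool → List Bool, PolyTime h ∧ ∀ u k, Nat.log 2 (2 * (h u).length) ≤ k →
      sysR r e D y0 (h u, pre (oS β) k) = S u := by
  obtain ⟨c, hc⟩ := exists_length_bound (s := fun u => sz (S u)) hS.pbdd
  obtain ⟨c', hc'⟩ := exists_pow_bound c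
  obtain ⟨pS, F, hF, hF'⟩ := hS
  obtain ⟨D₂, hD₂, hD₂'⟩ := Compat.dec (α := List Bool × List Bool)
  obtain ⟨cmd, QS, hQS⟩ := uni_spec (hF.comp hD₂)
  obtain ⟨q, hq⟩ := cmdOf_surjective cmd
  obtain ⟨a, ha⟩ := exists_pow_bound (QS.comp (6 * Polynomial.X + 1) +
    pS.comp (4 * Polynomial.X + 1))
  have ha1 : ∀ n, QS.eval (6 * n + 1) ≤ (n + 2) ^ (a + 1) := by
    intro n
    have := ha n
    simp only [Polynomial.eval_add, Polynomial.eval_comp, Polynomial.eval_mul, Polynomial.eval_X,
      Polynomial.eval_ofNat, Polynomial.eval_one] at this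
    omega
  have ha2 : ∀ n, pS.eval (4 * n + 1) ≤ (n + 2) ^ (a + 1) := by
    intro n
    have := ha n
    simp only [Polynomial.eval_add, Polynomial.eval_comp, Polynomial.eval_mul, Polynomial.eval_X,
      Polynomial.eval_ofNat, Polynomial.eval_one] at this
    omega
  -- values are correct under the guard
  have hval : ∀ (u : List Bool) (k : ℕ), guardn a (u.length + k) (2 ^ k) →
      valR q a u (pre (oS β) k) = S u := by
    intro u k hg
    have h1 := guardn_pow hg
    rw [valR, hq, hQS, hD₂', hF']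
    · have h2 : (u.length + 2) ^ (a + 1) ≤ (u.length + k + 2) ^ (a + 1) :=
        Nat.pow_le_pow_left (by omega) _
      have h3 := (eval_mono pS (sz_listBool u)).trans ((ha2 _).trans (h2.trans h1))
      calc Nat.log 2 _ ≤ Nat.log 2 (2 ^ k) := Nat.log_mono_right h3
        _ = k := Nat.log_pow (by norm_num) _
    · rw [bitEncode_pair_length, pre_length]
      exact (eval_mono QS (by omega)).trans (ha1 _)
  set m := pr4 q a r e with hm
  have hun : un4 m = (q, a, r, e) := un4_pr4 q a r e
  have hsound : ∀ k, SoundR m (pre (oS β) k) := by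
    intro k u hg hg'
    rw [hun] at hg hg' ⊢
    simp only at hg hg' ⊢
    rw [pre_length] at hg hg'
    rw [hval u k hg] at hg' ⊢
    refine (hLL _ _ ?_).2 (hSL u)
    calc Nat.log 2 _ ≤ Nat.log 2 (2 ^ k) := Nat.log_mono_right (guardn_pow hg')
      _ = k := Nat.log_pow (by norm_num) _
  obtain ⟨J₁, hJ₁⟩ := exists_act hβ m
  obtain ⟨j₂, hj₂⟩ := exists_j0 a
  obtain ⟨C, hC⟩ : ∃ C, C + 1 = 2 * (a + 1) + (e + 1) * (c' + 3) :=
    ⟨2 * (a + 1) + (e + 1) * (c' + 3) - 1, by omega⟩
  set J : List Bool → ℕ := fun u => pos (2 * m + 1) C (J₁ + j₂ + 1) u.length with hJ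
  refine ⟨fun u => bitEncode (List.replicate (cp2 ((4 * u.length + 2) ^
    (2 ^ ((J₁ + j₂ + 1) + 2 ^ ((2 * m + 1) + 1) + 2 ^ (2 * m + 1)) * (3 * (C + 1)))) (J u)) true,
      u), ?_, fun u k hk => ?_⟩
  · refine (Compat.enc (α := List Bool × List Bool)).comp (PolyTime.pair
      (PolyTime.replicate (cp2_polyTime (by fun_prop) ?_) (by fun_prop)) (by fun_prop))
    rw [hJ]
    unfold pos
    have h1 : PolyTime (fun u : List Bool =>
        (Nat.size ((C + 1) * (Nat.size u.length + 1)) + (J₁ + j₂ + 1)) / 2 ^ (2 * m + 1 + 1)) :=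
      PolyTime.natDiv (by fun_prop) (by fun_prop)
    fun_prop
  · have hb := pos_bound (2 * m + 1) C (J₁ + j₂ + 1) u.length
    have hw := word_eq_cp2 hb
    beta_reduce at hk ⊢
    rw [hJ] at hk ⊢
    beta_reduce at hk ⊢
    rw [hw] at hk ⊢
    have hnu := nu_pos (2 * m + 1) C (J₁ + j₂ + 1) u.length
    have hlt := lt_pos (2 * m + 1) C (J₁ + j₂ + 1) u.length
    generalize pos (2 * m + 1) C (J₁ + j₂ + 1) u.length = j at hk hnu hlt ⊢
    have hlen : (word j).length ≤ (bitEncode (word j, u)).length := by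
      rw [bitEncode_pair_length]
      omega
    have hJk : 2 ^ j < k := by
      refine (log_two_mul_word ?_).trans_le hk
      rw [← word_length j]
      exact hlen
    have hg : guardn a (u.length + 2 ^ j) (2 ^ 2 ^ j) :=
      guard_large a (C + 1) j₂ u.length j hj₂ (by omega) (by omega)
    have hv : gvalR q a u (pre (oS β) (2 ^ j)) (2 ^ 2 ^ j) = S u := by
      rw [gvalR_eq (by rw [pre_length]; exact hg)]
      exact hval u _ hg
    have hge : guardn e (S u).length (2 ^ 2 ^ j) := by
      unfold guardn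
      rw [Nat.log_pow (by norm_num)]
      have h1 : (S u).length ≤ (u.length + 2) ^ (c' + 1) :=
        (length_le_sz _).trans ((hc u).trans (hc' _))
      have h2 : Nat.size (S u).length ≤ (Nat.size u.length + 1) * (c' + 1) + 1 := by
        refine size_le_of_lt_pow (h1.trans_lt ?_)
        calc (u.length + 2) ^ (c' + 1) ≤ (2 ^ (Nat.size u.length + 1)) ^ (c' + 1) :=
              Nat.pow_le_pow_left (size_bound _) _
          _ = 2 ^ ((Nat.size u.length + 1) * (c' + 1)) := by rw [← pow_mul]
          _ < _ := Nat.pow_lt_pow_right (by norm_num) (by omega)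
      have h3 : (C + 1) * (Nat.size u.length + 1) ≤ 2 ^ j :=
        (Nat.lt_size_self _).le.trans (Nat.pow_le_pow_right (by norm_num) (by omega))
      rw [hC] at h3
      have h4 : (e + 1) * (Nat.size (S u).length + 1) ≤
          (e + 1) * ((Nat.size u.length + 1) * (c' + 1) + 1 + 1) :=
        Nat.mul_le_mul_left _ (by omega)
      nlinarith
    have hact := (oS_even hJ₁.1.1).2 hJ₁
    have htr : trustB r e (word j) u (pre (oS β) k) = true := by
      rw [trustB_iff hJk, hnu]
      have h2 : (2 * m + 1) / 2 = m := by omega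
      rw [h2, hun]
      refine ⟨by omega, rfl, hg, ⟨J₁, by omega, by rw [hJ₁.1.1]; omega, hact⟩,
        fun i hi h => ?_, ?_⟩
      · rw [← Bool.not_eq_true, oS_odd h]
        rintro ⟨_, _, h3⟩
        exact h3 (hsound _)
      · simp only
        rw [hv]
        exact hge
    unfold sysR
    simp only [hD', htr, hlen, decide_true, Bool.and_true, cond_true]
    have h2 : (2 * m + 1) / 2 = m := by omega
    rw [sval_word hJk, hnu, h2, hun]
    exact hv

end optimal

/-- Relative to the sparse oracle every nonempty language in `NP` has an optimal system. -/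
theorem exists_optimal_oS {β : ℕ → ℕ} (hβ : ∀ k, ∃ n, ∀ i, n ≤ i → k ≤ β i)
    {L : DecisionProblem} (hL : L ∈ NPRel (oS β)) (hne : ∃ y, L y = true) :
    ∃ Q, IsPOptimalRel (oS β) L Q := by
  obtain ⟨y0, h0⟩ := hne
  obtain ⟨r, e, hLL⟩ := exists_LL hL
  obtain ⟨D, hD, hD'⟩ := Compat.dec (α := List Bool × List Bool)
  have hk : ∀ π : List Bool, ∀ k, Nat.log 2 ((2 * Polynomial.X : Polynomial ℕ).eval (sz π)) ≤ k →
      Nat.log 2 (2 * π.length) ≤ k := by
    intro π k hk
    refine (Nat.log_mono_right ?_).trans hk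
    simp only [Polynomial.eval_mul, Polynomial.eval_X, Polynomial.eval_ofNat]
    have := length_le_sz π
    omega
  -- independence of the length of the segment
  have hind : ∀ (π : List Bool) (k k' : ℕ), Nat.log 2 (2 * π.length) ≤ k →
      Nat.log 2 (2 * π.length) ≤ k' →
      sysR r e D y0 (π, pre (oS β) k) = sysR r e D y0 (π, pre (oS β) k') := by
    intro π k k' hk hk'
    have key : ∀ k', Nat.log 2 (2 * π.length) ≤ k' → ∀ J, (D π).1 = word J →
        (D π).1.length ≤ π.length → 2 ^ J < k' := by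
      intro k' hk' J hJ hlen
      rw [hJ, word_length] at hlen
      exact (log_two_mul_word hlen).trans_le hk'
    have key2 : ∀ k k', Nat.log 2 (2 * π.length) ≤ k → Nat.log 2 (2 * π.length) ≤ k' →
        (D π).1.length ≤ π.length → trustB r e (D π).1 (D π).2 (pre (oS β) k) = true →
        trustB r e (D π).1 (D π).2 (pre (oS β) k') = true ∧
        sval (D π).1 (D π).2 (pre (oS β) k) = sval (D π).1 (D π).2 (pre (oS β) k') := by
      intro k k' hk hk' hlen htr
      have hx := word_of_trustB htr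
      generalize ll (D π).1.length = J at hx
      have h1 := key k hk J hx hlen
      have h2 := key k' hk' J hx hlen
      rw [hx] at htr ⊢
      rw [sval_word h1, sval_word h2]
      exact ⟨(trustB_iff h2).2 ((trustB_iff h1).1 htr), rfl⟩
    unfold sysR
    beta_reduce
    by_cases hlen : (D π).1.length ≤ π.length
    · rw [decide_eq_true hlen, Bool.true_and, Bool.true_and]
      cases h1 : trustB r e (D π).1 (D π).2 (pre (oS β) k) <;>
        cases h2 : trustB r e (D π).1 (D π).2 (pre (oS β) k')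
      · rfl
      · rw [(key2 k' k hk' hk hlen h2).1] at h1
        exact absurd h1 (by simp)
      · rw [(key2 k k' hk hk' hlen h1).1] at h2
        exact absurd h2 (by simp)
      · rw [cond_true, cond_true]
        exact (key2 k k' hk hk' hlen h1).2
    · rw [decide_eq_false hlen]
      rfl
  refine ⟨fun π => sysR r e D y0 (π, pre (oS β) (Nat.log 2 (2 * π.length))),
    isProofSystemRel_iff.2 ⟨⟨2 * Polynomial.X, sysR r e D y0, sysR_polyTime r e hD y0,
      fun π k h => hind π k _ (hk π k h) le_rfl⟩, fun y => ⟨fun hy => ?_, ?_⟩⟩, fun S hS => ?_⟩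
  · obtain ⟨h, _, hh⟩ := sysR_sim hβ hLL hD' y0 (S := fun _ => y) (RT.of (PolyTime.const y))
      fun _ => hy
    exact ⟨h [], hh [] _ le_rfl⟩
  · rintro ⟨π, rfl⟩
    exact sysR_sound hLL D h0 π le_rfl
  · have hS' := isProofSystemRel_iff.1 hS
    obtain ⟨h, hh, hh'⟩ := sysR_sim hβ hLL hD' y0 hS'.1 fun π => (hS'.2 _).2 ⟨π, rfl⟩
    exact ⟨h, isPolyTimeRel_iff.2 (RT.of hh), fun π => hh' π _ le_rfl⟩

end Pool.Agent.POpt70
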