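import Pool.Agent.POpt70.RelComp

/-!
# Optimal systems from a collapse of tally sets
-/

set_option autoImplicit false

namespace Pool.Agent.POpt70

open Pool.Agent.PT Pool.Agent.TMB67 Pool.Agent.POpt67 N68a2faeb N793a5b8e N487b59b3

variable {T : ℕ → Bool}

section upper

/-- The value computed by program `q` in time `t`. -/
noncomputable def uval (q t : ℕ) (u s : List Bool) : List Bool :=
  uni (cmdOf q) t (bitEncode (u, s))

theorem uval_polyTime {α : Type} [Enc α] {q t : α → ℕ} {u s : α → List Bool} (hq : PolyTime q)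
    (ht : PolyTime t) (hu : PolyTime u) (hs : PolyTime s) :
    PolyTime (fun x => uval (q x) (t x) (u x) (s x)) := by
  refine uni_polyTime.comp (f := fun x => (cmdOf (q x), t x, bitEncode (u x, s x)))
    (PolyTime.pair (cmdOf_polyTime.comp hq) (PolyTime.pair ht ?_))
  exact (Compat.enc (α := List Bool × List Bool)).comp (PolyTime.pair hu hs)

theorem uval_length (q t : ℕ) (u s : List Bool) :
    (uval q t u s).length ≤ 24 * u.length + 12 * s.length + 5 + t := by
  have := uni_length (cmdOf q) t (bitEncode (u, s))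
  rw [bitEncode_pair_length] at this
  unfold uval
  omega

theorem bitsTo_length (m k : ℕ) : (bitsTo m k).length = k := by simp [bitsTo]

/-- Soundness with all parameters in unary. -/
def Snd (p b : Polynomial ℕ) (F : (List Bool × List Bool) × List Bool → Bool)
    (q t l n e : ℕ) : Prop :=
  ∀ u : List Bool, u.length = n → b.eval (uval q t u (bitsTo e (Nat.log 2 l))).length ≤ l →
    ∃ w : List Bool, w.length ≤ p.eval (uval q t u (bitsTo e (Nat.log 2 l))).length ∧
      F ((uval q t u (bitsTo e (Nat.log 2 l)), w), bitsTo e (Nat.log 2 l)) = true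

/-- The matrix of soundness. -/
noncomputable def sndB (p b : Polynomial ℕ) (F : (List Bool × List Bool) × List Bool → Bool)
    (q t l n e : ℕ) (u w : List Bool) : Bool :=
  !(decide (u.length = n)) ||
    (!(decide (b.eval (uval q t u (bitsTo e (Nat.log 2 l))).length ≤ l)) ||
      (decide (w.length ≤ p.eval (uval q t u (bitsTo e (Nat.log 2 l))).length) &&
        F ((uval q t u (bitsTo e (Nat.log 2 l)), w), bitsTo e (Nat.log 2 l))))

theorem sndB_iff {p b : Polynomial ℕ} {F : (List Bool × List Bool) × List Bool → Bool}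
    {q t l n e : ℕ} {u w : List Bool} : sndB p b F q t l n e u w = true ↔
      (u.length = n → b.eval (uval q t u (bitsTo e (Nat.log 2 l))).length ≤ l →
        w.length ≤ p.eval (uval q t u (bitsTo e (Nat.log 2 l))).length ∧
          F ((uval q t u (bitsTo e (Nat.log 2 l)), w), bitsTo e (Nat.log 2 l)) = true) := by
  unfold sndB
  simp only [Bool.or_eq_true, Bool.not_eq_true', decide_eq_false_iff_not, Bool.and_eq_true,
    decide_eq_true_iff]
  tauto

theorem sndB_polyTime {α : Type} [Enc α] (p b : Polynomial ℕ)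
    {F : (List Bool × List Bool) × List Bool → Bool} (hF : PolyTime F) {q t l n e : α → ℕ}
    {u w : α → List Bool} (hq : PolyTime q) (ht : PolyTime t) (hl : PolyTime l) (hn : PolyTime n)
    (he : PolyTime e) (hu : PolyTime u) (hw : PolyTime w) :
    PolyTime (fun x => sndB p b F (q x) (t x) (l x) (n x) (e x) (u x) (w x)) := by
  have hb : PolyTime (fun x => bitsTo (e x) (Nat.log 2 (l x))) :=
    bitsTo_polyTime he (natLog_polyTime hl)
  have hv : PolyTime (fun x => uval (q x) (t x) (u x) (bitsTo (e x) (Nat.log 2 (l x)))) :=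
    uval_polyTime hq ht hu hb
  exact PolyTime.or (PolyTime.not (PolyTime.decide_eq (PolyTime.length hu) hn))
    (PolyTime.or (PolyTime.not (PolyTime.decide_le (polyEval_length b hv) hl))
      (PolyTime.and (PolyTime.decide_le (PolyTime.length hw) (polyEval_length p hv)) (hF.comp
        (PolyTime.pair (PolyTime.pair hv hw) hb))))

/-- Soundness as a `Π₂` statement. -/
theorem snd_iff {p b : Polynomial ℕ} {F : (List Bool × List Bool) × List Bool → Bool}
    {q t l n e N : ℕ} (hn : n ≤ N) (ht : t ≤ N) (hl : l ≤ N) :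
    Snd p b F q t l n e ↔ ∀ u : List Bool, u.length ≤ p.eval (37 * N + 5) + N →
      ∃ w : List Bool, w.length ≤ p.eval (37 * N + 5) + N ∧ sndB p b F q t l n e u w = true := by
  constructor
  · intro h u _
    by_cases h1 : u.length = n ∧ b.eval (uval q t u (bitsTo e (Nat.log 2 l))).length ≤ l
    · obtain ⟨w, hw, hw'⟩ := h u h1.1 h1.2
      refine ⟨w, ?_, sndB_iff.2 fun _ _ => ⟨hw, hw'⟩⟩
      refine (hw.trans (eval_mono p ?_)).trans (Nat.le_add_right _ _)
      have h2 := uval_length q t u (bitsTo e (Nat.log 2 l))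
      rw [bitsTo_length] at h2
      have h3 := Nat.log_le_self 2 l
      have h4 := h1.1
      omega
    · exact ⟨[], Nat.zero_le _, sndB_iff.2 fun h2 h3 => absurd ⟨h2, h3⟩ h1⟩
  · intro h u hu hb
    obtain ⟨w, _, hw⟩ := h u (by omega)
    exact ⟨w, sndB_iff.1 hw hu hb⟩

/-- The numbers coded by a number. -/
def n5 (N : ℕ) : ℕ × (ℕ × (ℕ × (ℕ × ℕ))) := ((unpr N).1, un4 (unpr N).2)

theorem n5_le (N : ℕ) : (n5 N).2.1 ≤ N ∧ (n5 N).2.2.1 ≤ N ∧ (n5 N).2.2.2.1 ≤ N := by
  have l0 := unpr_le N
  have l1 := un4_le (unpr N).2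
  unfold n5
  exact ⟨l1.1.trans l0.2, l1.2.1.trans l0.2, l1.2.2.1.trans l0.2⟩

theorem n5_polyTime {α : Type} [Enc α] {f : α → ℕ} (hf : PolyTime f) :
    PolyTime (fun x => n5 (f x)) :=
  PolyTime.pair (PolyTime.fst (unpr_polyTime.comp hf))
    (un4_polyTime.comp (PolyTime.snd (unpr_polyTime.comp hf)))

theorem n5_pr (q t l n e : ℕ) : n5 (pr q (pr4 t l n e)) = (q, t, l, n, e) := by
  simp [n5, unpr_pr, un4_pr4]

open Classical in
theorem snd_mem (p b : Polynomial ℕ) {F : (List Bool × List Bool) × List Bool → Bool}
    (hF : PolyTime F) : ∃ A ∈ PiTwo, Tally A ∧ ∀ q t l n e : ℕ,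
      (A (List.replicate (pr q (pr4 t l n e)) true) = true ↔ Snd p b F q t l n e) := by
  refine ⟨fun x => decide (x = List.replicate x.length true ∧ Snd p b F (n5 x.length).1
    (n5 x.length).2.1 (n5 x.length).2.2.1 (n5 x.length).2.2.2.1 (n5 x.length).2.2.2.2),
    ⟨p.comp (37 * Polynomial.X + 5) + Polynomial.X, fun z =>
      decide (z.1 = List.replicate z.1.length true) && sndB p b F (n5 z.1.length).1
        (n5 z.1.length).2.1 (n5 z.1.length).2.2.1 (n5 z.1.length).2.2.2.1
        (n5 z.1.length).2.2.2.2 z.2.1 z.2.2, isPolyTime_iff.2 ?_, fun x => ?_⟩,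
    fun x hx => ?_, fun q t l n e => ?_⟩
  · have h1 : PolyTime (fun z : List Bool × (List Bool × List Bool) => n5 z.1.length) :=
      n5_polyTime (by fun_prop)
    exact PolyTime.and (PolyTime.decide_eq (by fun_prop) (PolyTime.replicate (by fun_prop)
      (PolyTime.const true))) (sndB_polyTime p b hF (PolyTime.fst h1)
        (PolyTime.fst (PolyTime.snd h1)) (PolyTime.fst (PolyTime.snd (PolyTime.snd h1)))
        (PolyTime.fst (PolyTime.snd (PolyTime.snd (PolyTime.snd h1))))
        (PolyTime.snd (PolyTime.snd (PolyTime.snd (PolyTime.snd h1))))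
        (by fun_prop) (by fun_prop))
  · have h1 := n5_le x.length
    rw [decide_eq_true_iff, snd_iff h1.2.2 h1.1 h1.2.1]
    have he : (p.comp (37 * Polynomial.X + 5) + Polynomial.X).eval x.length =
        p.eval (37 * x.length + 5) + x.length := by
      simp only [Polynomial.eval_add, Polynomial.eval_comp, Polynomial.eval_mul,
        Polynomial.eval_X, Polynomial.eval_ofNat]
    rw [he]
    constructor
    · rintro ⟨hx, hall⟩ u hu
      obtain ⟨w, hw, hw'⟩ := hall u hu
      refine ⟨w, hw, ?_⟩
      rw [Bool.and_eq_true, decide_eq_true_iff]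
      exact ⟨hx, hw'⟩
    · intro hall
      refine ⟨?_, fun u hu => ?_⟩
      · obtain ⟨w, _, hw⟩ := hall [] (Nat.zero_le _)
        rw [Bool.and_eq_true, decide_eq_true_iff] at hw
        exact hw.1
      · obtain ⟨w, hw, hw'⟩ := hall u hu
        rw [Bool.and_eq_true, decide_eq_true_iff] at hw'
        exact ⟨w, hw, hw'.2⟩
  · rw [decide_eq_true_iff] at hx
    exact hx.1
  · rw [decide_eq_true_iff, List.length_replicate, n5_pr]
    simp

/-- The number coding a segment of the oracle. -/
def codeOf (l : ℕ) (s : List Bool) : ℕ :=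
  ((List.range (l + 1)).find? fun m => decide (bitsTo m (Nat.log 2 l) = s)).getD 0

theorem codeOf_spec (T : ℕ → Bool) (l : ℕ) :
    bitsTo (codeOf l (pre T (Nat.log 2 l))) (Nat.log 2 l) = pre T (Nat.log 2 l) := by
  obtain ⟨m, hm, hm'⟩ := exists_bitsTo T (Nat.log 2 l)
  have hml : m < l + 1 := by
    rcases Nat.eq_zero_or_pos l with h0 | h0
    · rw [h0] at hm
      simp at hm
      omega
    · have := Nat.pow_log_le_self 2 (x := l) (by omega)
      omega
  unfold codeOf
  cases h : (List.range (l + 1)).find? fun m =>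
      decide (bitsTo m (Nat.log 2 l) = pre T (Nat.log 2 l)) with
  | none =>
    rw [List.find?_eq_none] at h
    have := h m (List.mem_range.2 hml)
    simp [hm'] at this
  | some c =>
    have := List.find?_some h
    simpa using this

theorem codeOf_polyTime {α : Type} [Enc α] {l : α → ℕ} {s : α → List Bool} (hl : PolyTime l)
    (hs : PolyTime s) : PolyTime (fun x => codeOf (l x) (s x)) := by
  unfold codeOf
  refine PolyTime.optionGetD (PolyTime.find? (g := fun x m =>
    decide (bitsTo m (Nat.log 2 (l x)) = s x)) (PolyTime.range (by fun_prop)) ?_)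
    (PolyTime.const 0)
  exact PolyTime.decide_eq (by fun_prop) (by fun_prop)

/-- If tally sets in `Π₂ᵖ` are in `P`, then optimal systems exist relative to every oracle. -/
theorem optimal_of_collapse (hcol : ∀ A ∈ PiTwo, Tally A → A ∈ P) {L : DecisionProblem}
    (hL : L ∈ NPRel T) (hne : ∃ y, L y = true) : ∃ Q, IsPOptimalRel T L Q := by
  obtain ⟨y0, h0⟩ := hne
  obtain ⟨p, b, F, hF, hLF⟩ := NPRel_normal hL
  obtain ⟨A, hA, hAT, hA'⟩ := snd_mem p b hF
  have hAP := mem_P_iff.1 (hcol A hA hAT)
  obtain ⟨D, hD, hD'⟩ := Compat.dec (α := List Bool × (List Bool × (List Bool × List Bool)))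
  -- the system as a function of the decoded input and the oracle segment
  set G : (List Bool × (List Bool × (List Bool × List Bool))) × List Bool → List Bool :=
    fun z => bif A (List.replicate (pr z.1.1.length (pr4 z.1.2.1.length z.1.2.2.1.length
      z.1.2.2.2.length (codeOf z.1.2.2.1.length z.2))) true) &&
      decide (b.eval (uval z.1.1.length z.1.2.1.length z.1.2.2.2 z.2).length ≤
        z.1.2.2.1.length) then uval z.1.1.length z.1.2.1.length z.1.2.2.2 z.2 else y0 with hG
  have hGP : PolyTime G := by
    have h1 : PolyTime (fun z : (List Bool × (List Bool × (List Bool × List Bool))) × List Bool =>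
      uval z.1.1.length z.1.2.1.length z.1.2.2.2 z.2) :=
      uval_polyTime (by fun_prop) (by fun_prop) (by fun_prop) (by fun_prop)
    have h2 : PolyTime (fun z : (List Bool × (List Bool × (List Bool × List Bool))) × List Bool =>
      codeOf z.1.2.2.1.length z.2) := codeOf_polyTime (by fun_prop) (by fun_prop)
    refine PolyTime.cond (PolyTime.and (hAP.comp (PolyTime.replicate (pr_polyTime (by fun_prop)
      (pr4_polyTime (by fun_prop) (by fun_prop) (by fun_prop) h2)) (PolyTime.const true)))
      (PolyTime.decide_le (polyEval_length b h1) (by fun_prop))) h1 (PolyTime.const y0)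
  have hQ : RT T (fun π : List Bool => G (D π, pre T (Nat.log 2 (D π).2.2.1.length))) := by
    have hD1 : PolyTime (fun π : List Bool => (D π).2.2.1.length) :=
      PolyTime.length (PolyTime.fst (PolyTime.snd (PolyTime.snd hD)))
    exact RT.comp' hGP (RT.pair (RT.of hD) (RT.pre hD1))
  -- soundness
  have hsound : ∀ z : List Bool × (List Bool × (List Bool × List Bool)),
      L (G (z, pre T (Nat.log 2 z.2.2.1.length))) = true := by
    rintro ⟨x1, x2, x3, u⟩
    simp only [hG]
    cases hc : A (List.replicate (pr x1.length (pr4 x2.length x3.length u.length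
      (codeOf x3.length (pre T (Nat.log 2 x3.length))))) true) &&
      decide (b.eval (uval x1.length x2.length u (pre T (Nat.log 2 x3.length))).length ≤
        x3.length)
    · simpa using h0
    · rw [cond_true]
      rw [Bool.and_eq_true, decide_eq_true_iff, hA'] at hc
      have h1 := hc.1 u rfl
      rw [codeOf_spec] at h1
      exact (hLF _ _ (Nat.log_mono_right hc.2)).2 (h1 hc.2)
  -- simulation
  have hsim : ∀ S : List Bool → List Bool, RT T S → (∀ u, L (S u) = true) →
      ∃ h : List Bool → List Bool, PolyTime h ∧ ∀ u,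
        G (D (h u), pre T (Nat.log 2 (D (h u)).2.2.1.length)) = S u := by
    intro S hS hSL
    obtain ⟨c, hc⟩ := exists_length_bound (s := fun u => sz (S u)) hS.pbdd
    obtain ⟨pS, FS, hFS, hFS'⟩ := hS
    obtain ⟨D₂, hD₂, hD₂'⟩ := Compat.dec (α := List Bool × List Bool)
    obtain ⟨cmd, QS, hQS⟩ := uni_spec (hFS.comp hD₂)
    obtain ⟨q, hq⟩ := cmdOf_surjective cmd
    set l : ℕ → ℕ := fun n => pS.eval (4 * n + 1) + b.eval (c.eval n) with hl
    set t : ℕ → ℕ := fun n => QS.eval (6 * n + 1 + 3 * l n) with ht
    have hlP : PolyTime (fun u : List Bool => l u.length) :=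
      PolyTime.natAdd (polyEval_polyTime (by fun_prop) pS)
        (polyEval_polyTime (polyEval_length c PolyTime.id) b)
    have htP : PolyTime (fun u : List Bool => t u.length) :=
      polyEval_polyTime (PolyTime.natAdd (by fun_prop) (PolyTime.natMul (PolyTime.const 3) hlP)) QS
    have hval : ∀ u : List Bool, uval q (t u.length) u (pre T (Nat.log 2 (l u.length))) = S u := by
      intro u
      rw [uval, hq, hQS, hD₂', hFS']
      · exact Nat.log_mono_right ((eval_mono pS (sz_listBool u)).trans (Nat.le_add_right _ _))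
      · rw [bitEncode_pair_length, pre_length]
        refine eval_mono QS ?_
        have := Nat.log_le_self 2 (l u.length)
        omega
    have hbl : ∀ u : List Bool, b.eval (S u).length ≤ l u.length := by
      intro u
      refine (eval_mono b ((length_le_sz _).trans (hc u))).trans (Nat.le_add_left _ _)
    refine ⟨fun u => bitEncode (List.replicate q true, (List.replicate (t u.length) true,
      (List.replicate (l u.length) true, u))), ?_, fun u => ?_⟩
    · exact (Compat.enc (α := List Bool × (List Bool × (List Bool × List Bool)))).comp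
        (PolyTime.pair (PolyTime.const _) (PolyTime.pair (PolyTime.replicate htP
          (PolyTime.const true)) (PolyTime.pair (PolyTime.replicate hlP (PolyTime.const true))
            PolyTime.id)))
    · simp only [hD', hG, List.length_replicate]
      rw [hval u]
      have h1 : A (List.replicate (pr q (pr4 (t u.length) (l u.length) u.length
          (codeOf (l u.length) (pre T (Nat.log 2 (l u.length)))))) true) = true := by
        rw [hA']
        intro v hv hvb
        rw [codeOf_spec] at hvb ⊢
        rw [← hv, hval v] at hvb ⊢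
        exact (hLF _ _ (Nat.log_mono_right hvb)).1 (hSL v)
      rw [h1, decide_eq_true (hbl u)]
      rfl
  refine ⟨_, isProofSystemRel_iff.2 ⟨hQ, fun y => ⟨fun hy => ?_, ?_⟩⟩, fun S hS => ?_⟩
  · obtain ⟨h, _, hh⟩ := hsim (fun _ => y) (RT.of (PolyTime.const y)) fun _ => hy
    exact ⟨h [], hh []⟩
  · rintro ⟨π, rfl⟩
    exact hsound (D π)
  · have hS' := isProofSystemRel_iff.1 hS
    obtain ⟨h, hh, hh'⟩ := hsim S hS'.1 fun π => (hS'.2 _).2 ⟨π, rfl⟩
    exact ⟨h, isPolyTimeRel_iff.2 (RT.of hh), hh'⟩

end upper

end Pool.Agent.POpt70
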