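import Pool.Prelude.Def_F_458e953d

/-!
# Definitions for the sparse collapse theorem
-/

set_option autoImplicit false

namespace Pool.Agent.POpt70

open N68a2faeb N793a5b8e

/-- The class `Π₂ᵖ` of the polynomial hierarchy. -/
def PiTwo : DecisionComplexityClass :=
  { A | ∃ (p : Polynomial ℕ) (R : List Bool × (List Bool × List Bool) → Bool), IsPolyTime R ∧
      ∀ x, A x ↔ ∀ u : List Bool, u.length ≤ p.eval x.length →
        ∃ w : List Bool, w.length ≤ p.eval x.length ∧ R (x, (u, w)) }

/-- The word `1^(2^(2^n))`. -/
def word (n : ℕ) : List Bool := List.replicate (2 ^ 2 ^ n) true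

/-- `F` consists of words `1^(2^(2^n))`, and for every `n` at most `β n` of the first `n` of these
words are in `F`. -/
def IsSparse (β : ℕ → ℕ) (F : DecisionProblem) : Prop :=
  (∀ x, F x = true → ∃ n, x = word n) ∧
    ∀ n, ((Finset.range n).filter fun i => F (word i) = true).card ≤ β n

/-- The membership bits of the words `1^(2^(2^i))` with `i ≤ log₂ log₂ n`. -/
def advice (F : DecisionProblem) (n : ℕ) : List Bool :=
  (List.range (Nat.log 2 (Nat.log 2 n) + 1)).map fun i => F (word i)

end Pool.Agent.POpt70
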