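import Pool.Agent.POpt70.RelP
import Pool.Agent.POpt70.Defs

/-!
# Complete languages relative to `T`
-/

set_option autoImplicit false

namespace Pool.Agent.POpt70

open Pool.Agent.PT Pool.Agent.TMB67 Pool.Agent.POpt67 N68a2faeb N793a5b8e N487b59b3

variable {T : ℕ → Bool}

theorem RT.pre {α : Type} [Enc α] {l : α → ℕ} (hl : PolyTime l) :
    RT T (fun x => pre T (Nat.log 2 (l x))) := by
  obtain ⟨p, hp⟩ := hl.pbdd
  refine ⟨p, fun z => z.2.take (Nat.log 2 (l z.1)), PolyTime.take (by fun_prop) (by fun_prop),
    fun x k hk => pre_take T ?_⟩
  refine (Nat.log_mono_right ?_).trans hk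
  have h1 := hp x
  have h2 : l x ≤ sz (l x) := by rw [sz_nat]; omega
  exact h2.trans h1

theorem bitEncode_triple_length (x w s : List Bool) :
    (bitEncode ((x, w), s)).length = 2 * (6 * x.length + 1 + 3 * w.length) + 1 + 3 * s.length := by
  have h : (bitEncode ((x, w), s) : List Bool) = delimit (bitEncode (x, w)) ++ bitEncode s := rfl
  rw [h, List.length_append, length_delimit, bitEncode_pair_length, bitEncode_list_length]

/-- The universal verifier. -/
noncomputable def uver (z : (List Bool × (List Bool × (List Bool × (List Bool × List Bool)))) ×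
    List Bool) (s : List Bool) : Bool :=
  decide (z.2.length ≤ z.1.2.1.length) && decide (uni (cmdOf z.1.1.length) z.1.2.2.1.length
    (bitEncode ((z.1.2.2.2.2, z.2), s)) = [true])

theorem uver_polyTime : PolyTime (fun p : ((List Bool × (List Bool × (List Bool ×
    (List Bool × List Bool)))) × List Bool) × List Bool => uver p.1 p.2) := by
  unfold uver
  refine PolyTime.and (PolyTime.decide_le (by fun_prop) (by fun_prop)) (PolyTime.decide_eq ?_
    (PolyTime.const [true]))
  refine uni_polyTime.comp (f := fun p : ((List Bool × (List Bool × (List Bool ×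
    (List Bool × List Bool)))) × List Bool) × List Bool => (cmdOf p.1.1.1.length,
      p.1.1.2.2.1.length, bitEncode ((p.1.1.2.2.2.2, p.1.2), p.2))) ?_
  refine PolyTime.pair (cmdOf_polyTime.comp (by fun_prop)) (PolyTime.pair (by fun_prop) ?_)
  exact (Compat.enc (α := (List Bool × List Bool) × List Bool)).comp (by fun_prop)

open Classical in
/-- There are complete languages relative to every oracle. -/
theorem exists_complete (T : ℕ → Bool) : ∃ L, IsNPCompleteRel T L := by
  obtain ⟨D, hD, hD'⟩ := Compat.dec
    (α := List Bool × (List Bool × (List Bool × (List Bool × List Bool))))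
  have hD1 : PolyTime (fun z : List Bool => (D z).2.1) := PolyTime.fst (PolyTime.snd hD)
  obtain ⟨q, hq⟩ := exists_length_bound (s := fun z => (D z).2.1.length)
    ((hD1.length).pbdd.of_le fun x => by rw [sz_nat]; omega)
  refine ⟨fun z => decide (∃ w : List Bool,
    uver (D z, w) (pre T (Nat.log 2 (D z).2.2.2.1.length)) = true), ?_, fun A hA => ?_⟩
  · refine mem_NPRel_iff.2 ⟨q, fun z => uver (D z.1, z.2)
      (pre T (Nat.log 2 (D z.1).2.2.2.1.length)), ?_, fun z => ?_⟩
    · have hD2 : PolyTime (fun z : List Bool × List Bool => D z.1) := hD.comp PolyTime.fst'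
      have h1 : RT T (fun z : List Bool × List Bool =>
          pre T (Nat.log 2 (D z.1).2.2.2.1.length)) := RT.pre (by fun_prop)
      exact RT.comp' uver_polyTime (RT.pair (RT.of (by fun_prop)) h1)
    · rw [decide_eq_true_iff]
      refine exists_congr fun w => ?_
      constructor
      · intro h
        refine ⟨?_, h⟩
        unfold uver at h
        rw [Bool.and_eq_true, decide_eq_true_iff] at h
        exact h.1.trans (hq z)
      · exact fun h => h.2
  · obtain ⟨p, b, F, hF, hAF⟩ := NPRel_normal hA
    obtain ⟨D₂, hD₂, hD₂'⟩ := Compat.dec (α := (List Bool × List Bool) × List Bool)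
    have hS : PolyTime (fun z : List Bool => [F (D₂ z)]) :=
      PolyTime.cons (hF.comp hD₂) (PolyTime.const [])
    obtain ⟨c, Q, hc⟩ := uni_spec hS
    obtain ⟨r, hr⟩ := cmdOf_surjective c
    have hp : PolyTime (fun x : List Bool => p.eval x.length) := polyEval_length p PolyTime.id
    have hb : PolyTime (fun x : List Bool => b.eval x.length) := polyEval_length b PolyTime.id
    refine ⟨fun x => bitEncode (List.replicate r true, (List.replicate (p.eval x.length) true,
      (List.replicate (Q.eval (2 * (6 * x.length + 1 + 3 * p.eval x.length) + 1 +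
        3 * b.eval x.length)) true, (List.replicate (b.eval x.length) true, x)))),
      isPolyTimeRel_iff.2 (RT.of ?_), fun x => ?_⟩
    · refine (Compat.enc (α := List Bool × (List Bool × (List Bool × (List Bool ×
        List Bool))))).comp (PolyTime.pair (PolyTime.const _) (PolyTime.pair (PolyTime.replicate hp
        (PolyTime.const true)) (PolyTime.pair (PolyTime.replicate (polyEval_polyTime
        (PolyTime.natAdd (PolyTime.natAdd (PolyTime.natMul (PolyTime.const 2) (PolyTime.natAdd
        (by fun_prop) (PolyTime.natMul (PolyTime.const 3) hp))) (PolyTime.const 1))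
        (PolyTime.natMul (PolyTime.const 3) hb)) Q) (PolyTime.const true)) (PolyTime.pair
        (PolyTime.replicate hb (PolyTime.const true)) PolyTime.id))))
    · rw [Bool.eq_iff_iff, hAF x (Nat.log 2 (b.eval x.length)) le_rfl]
      simp only [decide_eq_true_iff, hD', uver, List.length_replicate, Bool.and_eq_true]
      refine exists_congr fun w => and_congr_right fun hw => ?_
      rw [hr, hc, hD₂']
      · simp
      · rw [bitEncode_triple_length, pre_length]
        refine eval_mono Q ?_
        have := Nat.log_le_self 2 (b.eval x.length)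
        omega

end Pool.Agent.POpt70
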