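import Pool.Agent.POpt70.RelUp

/-!
# A hard family of instances when tally sets do not collapse
-/

set_option autoImplicit false

namespace Pool.Agent.POpt70

open Pool.Agent.PT Pool.Agent.TMB67 Pool.Agent.POpt67 N68a2faeb N793a5b8e N487b59b3

/-- The instances `G` of `L` are verified by a polynomial-time function `V`. -/
def Easy (L : DecisionProblem) (G : ℕ × List Bool → List Bool) : Prop :=
  ∃ V : ℕ × List Bool → Bool, PolyTime V ∧ (∀ n u, V (n, u) = true → L (G (n, u)) = true) ∧
    ∀ n, (∀ u, L (G (n, u)) = true) → ∀ u, V (n, u) = true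

theorem tallyB_polyTime : PolyTime
    (fun x : List Bool => decide (x = List.replicate x.length true)) :=
  PolyTime.decide_eq PolyTime.id (PolyTime.replicate (by fun_prop) (PolyTime.const true))

/-- Tally sets in `NP` are in `P` if all families are easy. -/
theorem tallyNP_of_easy (h : ∀ L ∈ NP, (∃ y, L y = true) → ∀ G, PolyTime G → Easy L G)
    {C : DecisionProblem} (hC : C ∈ NP) (hT : Tally C) : C ∈ P := by
  by_cases hne : ∃ y, C y = true
  · obtain ⟨V, hV, h1, h2⟩ := h C hC hne (fun z => List.replicate z.1 true)
      (PolyTime.replicate (by fun_prop) (PolyTime.const true))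
    beta_reduce at h1 h2
    have h3 : PolyTime (fun x : List Bool => V (x.length, [])) :=
      hV.comp (f := fun x : List Bool => (x.length, ([] : List Bool)))
        (PolyTime.pair (by fun_prop) (PolyTime.const []))
    refine mem_P_iff.2 ((PolyTime.and tallyB_polyTime h3).congr fun x => ?_)
    rw [Bool.eq_iff_iff, Bool.and_eq_true, decide_eq_true_iff]
    constructor
    · intro hx
      exact ⟨hT x hx, h2 _ (fun _ => by rw [← hT x hx]; exact hx) _⟩
    · rintro ⟨hx, hx'⟩
      rw [hx]
      exact h1 _ _ hx'
  · refine mem_P_iff.2 ((PolyTime.const false).congr fun x => ?_)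
    rw [← Bool.not_eq_true]
    exact fun hx => hne ⟨x, hx⟩

theorem collapse_of_easy (h : ∀ L ∈ NP, (∃ y, L y = true) → ∀ G, PolyTime G → Easy L G)
    {A : DecisionProblem} (hA : A ∈ PiTwo) (hT : Tally A) : A ∈ P := by
  obtain ⟨p, R, hR, hAR⟩ := hA
  have hR := isPolyTime_iff.1 hR
  obtain ⟨D, hD, hD'⟩ := Compat.dec (α := List Bool × List Bool)
  obtain ⟨L, hL, hLR⟩ := exists_mem_NP p hD (F := fun z : (List Bool × List Bool) × List Bool =>
    R (z.1.1, (z.2, z.1.2))) (hR.comp (by fun_prop))
  have hLR' : ∀ x u : List Bool, L (bitEncode (x, u)) = true ↔ ∃ w : List Bool,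
      w.length ≤ p.eval x.length ∧ R (x, (u, w)) = true := by
    intro x u
    rw [hLR, hD']
  by_cases hne : ∃ x, A x = true
  · obtain ⟨x0, hx0⟩ := hne
    have hy0 := (hLR' x0 []).2 ((hAR x0).1 hx0 [] (Nat.zero_le _))
    obtain ⟨V, hV, h1, h2⟩ := h L hL ⟨_, hy0⟩ (fun z => if z.2.length ≤ p.eval z.1 then
      bitEncode (List.replicate z.1 true, z.2) else bitEncode (x0, ([] : List Bool)))
      (PolyTime.ite (PolyTime.decide_le (by fun_prop) (polyEval_polyTime (by fun_prop) p))
        ((Compat.enc (α := List Bool × List Bool)).comp (PolyTime.pair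
          (PolyTime.replicate (by fun_prop) (PolyTime.const true)) (by fun_prop)))
        (PolyTime.const _))
    beta_reduce at h1 h2
    -- characterisation of `A`
    have hchar : ∀ n : ℕ, A (List.replicate n true) = true ↔
        ∀ u : List Bool, u.length ≤ p.eval n → V (n, u) = true := by
      intro n
      constructor
      · intro hA1 u _
        refine h2 n (fun v => ?_) u
        by_cases hv : v.length ≤ p.eval n
        · rw [if_pos hv, hLR', List.length_replicate]
          have := (hAR _).1 hA1 v (by rw [List.length_replicate]; exact hv)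
          rwa [List.length_replicate] at this
        · rw [if_neg hv]
          exact hy0
      · intro hall
        rw [hAR, List.length_replicate]
        intro u hu
        have := h1 n u (hall u hu)
        rw [if_pos hu, hLR', List.length_replicate] at this
        exact this
    -- the complement is a tally set in NP
    obtain ⟨C, hC⟩ : ∃ C : DecisionProblem, ∀ x, C x = true ↔
        (x = List.replicate x.length true ∧ ∃ u : List Bool, u.length ≤ p.eval x.length ∧
          ¬ V (x.length, u) = true) := by
      classical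
      exact ⟨fun x => decide (x = List.replicate x.length true ∧ ∃ u : List Bool,
        u.length ≤ p.eval x.length ∧ ¬ V (x.length, u) = true), fun x => by simp⟩
    have hCNP : C ∈ NP := by
      refine mem_NP_iff.2 ⟨p, fun z => decide (z.1 = List.replicate z.1.length true) &&
        !(V (z.1.length, z.2)), ?_, fun x => ?_⟩
      · exact PolyTime.and (tallyB_polyTime.comp PolyTime.fst') (PolyTime.not (hV.comp
          (f := fun z : List Bool × List Bool => (z.1.length, z.2)) (by fun_prop)))
      · rw [hC]
        simp only [Bool.and_eq_true, decide_eq_true_iff, Bool.not_eq_true']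
        constructor
        · rintro ⟨h3, u, hu, h4⟩
          exact ⟨u, hu, h3, by simpa using h4⟩
        · rintro ⟨u, hu, h3, h4⟩
          exact ⟨h3, u, hu, by simpa using h4⟩
    have hCP := mem_P_iff.1 (tallyNP_of_easy h hCNP fun x hx => ((hC x).1 hx).1)
    refine mem_P_iff.2 ((PolyTime.and tallyB_polyTime (PolyTime.not hCP)).congr fun x => ?_)
    rw [Bool.eq_iff_iff, Bool.and_eq_true, decide_eq_true_iff, Bool.not_eq_true']
    constructor
    · intro hx
      have hx' := hT x hx
      refine ⟨hx', ?_⟩
      rw [← Bool.not_eq_true, hC]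
      rintro ⟨_, u, hu, hne⟩
      rw [hx'] at hx
      exact hne ((hchar _).1 hx u hu)
    · rintro ⟨hx', hx⟩
      rw [hx', hchar]
      intro u hu
      by_contra hne
      rw [← Bool.not_eq_true, hC] at hx
      exact hx ⟨hx', u, hu, hne⟩
  · refine mem_P_iff.2 ((PolyTime.const false).congr fun x => ?_)
    rw [← Bool.not_eq_true]
    exact fun hx => hne ⟨x, hx⟩

/-- There is a hard family if some tally set of `Π₂ᵖ` is not in `P`. -/
theorem exists_hard (h : ¬ ∀ A ∈ PiTwo, Tally A → A ∈ P) : ∃ L ∈ NP, (∃ y, L y = true) ∧
    ∃ G, PolyTime G ∧ ¬ Easy L G := by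
  by_contra hcon
  refine h fun A hA hT => collapse_of_easy (fun L hL hne G hG => ?_) hA hT
  by_contra hE
  exact hcon ⟨L, hL, hne, G, hG, hE⟩

end Pool.Agent.POpt70
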