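import Pool.Agent.POpt70.RelForce
import Pool.Agent.POpt70.RelHard

/-!
# An oracle without optimal systems
-/

set_option autoImplicit false

namespace Pool.Agent.POpt70

open Pool.Agent.PT Pool.Agent.TMB67 Pool.Agent.POpt67 N68a2faeb N793a5b8e N487b59b3

/-! ### Enumeration of relativized functions -/

theorem countable_polyTime : {F : List Bool × List Bool → List Bool | PolyTime F}.Countable := by
  obtain ⟨D, hD, hD'⟩ := Compat.dec (α := List Bool × List Bool)
  refine (Set.countable_range (fun (z : ℕ × ℕ) (p : List Bool × List Bool) =>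
    val z.1 z.2 (bitEncode p))).mono ?_
  intro F hF
  obtain ⟨q, a, hqa⟩ := exists_val (PolyTime.comp (g := F) (f := D) hF hD)
  exact ⟨(q, a), by funext p; beta_reduce; rw [hqa, hD']⟩

theorem exists_enum : ∃ sys : ℕ → (List Bool × List Bool → List Bool) × ℕ,
    (∀ s, PolyTime (sys s).1) ∧ ∀ F, PolyTime F → ∀ a, ∃ s, sys s = (F, a) := by
  have h1 := countable_polyTime.prod (Set.countable_univ (α := ℕ))
  obtain ⟨sys, hsys⟩ := h1.exists_eq_range ⟨(fun _ => [], 0), PolyTime.const [], trivial⟩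
  refine ⟨sys, fun s => ?_, fun F hF a => ?_⟩
  · have : sys s ∈ Set.range sys := ⟨s, rfl⟩
    rw [← hsys] at this
    exact this.1
  · have : ((F, a) : (List Bool × List Bool → List Bool) × ℕ) ∈ Set.range sys := by
      rw [← hsys]
      exact ⟨hF, trivial⟩
    exact this

/-- The relativized function with index `(F, a)`. -/
def ev (sys : (List Bool × List Bool → List Bool) × ℕ) (T : ℕ → Bool) (ρ : List Bool) :
    List Bool :=
  sys.1 (ρ, pre T (Nat.log 2 ((ρ.length + 2) ^ (sys.2 + 1))))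

theorem exists_ev {sys : ℕ → (List Bool × List Bool → List Bool) × ℕ}
    (hsys : ∀ F, PolyTime F → ∀ a, ∃ s, sys s = (F, a)) {T : ℕ → Bool}
    {S : List Bool → List Bool} (hS : RT T S) : ∃ s, ∀ ρ, ev (sys s) T ρ = S ρ := by
  obtain ⟨p, F, hF, hF'⟩ := hS
  obtain ⟨a, ha⟩ := exists_pow_bound (p.comp (4 * Polynomial.X + 1))
  obtain ⟨s, hs⟩ := hsys F hF a
  refine ⟨s, fun ρ => ?_⟩
  rw [ev, hs]
  refine hF' ρ _ (Nat.log_mono_right ?_)
  refine le_trans ?_ (ha ρ.length)
  rw [Polynomial.eval_comp]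
  refine eval_mono p ?_
  simpa using sz_listBool ρ

theorem pre_congr' {T T' : ℕ → Bool} {k : ℕ} (h : ∀ i < k, T' i = T i) : pre T' k = pre T k :=
  pre_congr h

/-! ### The challenge systems -/

/-- The claim about `n` in column `s` is readable with the pad. -/
def fB (s m0 n : ℕ) (pad bits : List Bool) : Bool :=
  decide (m0 ≤ ll pad.length) &&
    decide (Nat.size (pr s n + 1) ≤ cp pad.length (ll pad.length)) &&
    decide ((bits.take (2 * cp pad.length (ll pad.length))).drop
      (cp pad.length (ll pad.length)) = bitsTo (pr s n + 1) (cp pad.length (ll pad.length)))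

theorem fB_polyTime {α : Type} [Enc α] (s m0 : ℕ) {n : α → ℕ} {pad bits : α → List Bool}
    (hn : PolyTime n) (hp : PolyTime pad) (hb : PolyTime bits) :
    PolyTime (fun x => fB s m0 (n x) (pad x) (bits x)) := by
  have h1 : PolyTime (fun x => cp (pad x).length (ll (pad x).length)) := by fun_prop
  have h2 : PolyTime (fun x => pr s (n x) + 1) :=
    PolyTime.succ (pr_polyTime (PolyTime.const s) hn)
  exact PolyTime.and (PolyTime.and (PolyTime.decide_le (PolyTime.const m0) (by fun_prop))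
    (PolyTime.decide_le (PolyTime.natSize h2) h1)) (PolyTime.decide_eq
      (PolyTime.drop h1 (PolyTime.take (PolyTime.natMul (PolyTime.const 2) h1) hb))
      (bitsTo_polyTime h2 h1))

theorem cp_ll (l : ℕ) : cp l (ll l) = 2 ^ ll l := by
  rw [cp, min_eq_left]
  exact Nat.log_le_self 2 _

theorem drop_pre_eq_iff {T : ℕ → Bool} {K c : ℕ} :
    (pre T (2 * K)).drop K = bitsTo c K ↔ ∀ j < K, T (K + j) = Nat.testBit c j := by
  constructor
  · intro h j hj
    have h1 : ((pre T (2 * K)).drop K).getD j false = (bitsTo c K).getD j false := by rw [h]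
    rw [List.getD_eq_getElem _ _ (by simp [pre_length]; omega),
      List.getD_eq_getElem _ _ (by simp [bitsTo_length]; omega)] at h1
    simpa [pre, bitsTo, tb_eq] using h1
  · intro h
    refine List.ext_getElem (by simp [pre_length, bitsTo_length]; omega) fun j h1 h2 => ?_
    have hj : j < K := by simpa [bitsTo_length] using h2
    simpa [pre, bitsTo, tb_eq] using h j hj

theorem cl_of_fB {s m0 n k : ℕ} {T : ℕ → Bool} {pad : List Bool}
    (h : fB s m0 n pad (pre T k) = true) :
    m0 ≤ ll pad.length ∧ Cl T (ll pad.length) (pr s n + 1) := by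
  unfold fB at h
  rw [cp_ll, Bool.and_eq_true, Bool.and_eq_true, decide_eq_true_iff, decide_eq_true_iff,
    decide_eq_true_iff] at h
  obtain ⟨⟨h1, h2⟩, h3⟩ := h
  refine ⟨h1, Nat.size_le.1 h2, ?_⟩
  have h4 : 2 * 2 ^ ll pad.length ≤ k := by
    have h5 := congrArg List.length h3
    rw [List.length_drop, List.length_take, pre_length, bitsTo_length] at h5
    have h6 : 0 < 2 ^ ll pad.length := by positivity
    omega
  rw [pre_take T h4, drop_pre_eq_iff] at h3
  exact h3

theorem fB_of_cl {s m0 n i : ℕ} {T : ℕ → Bool} (hi : m0 ≤ i) (h : Cl T i (pr s n + 1)) :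
    fB s m0 n (word i) (pre T (Nat.log 2 ((word i).length * (word i).length))) = true := by
  have h1 : Nat.log 2 ((word i).length * (word i).length) = 2 * 2 ^ i := by
    rw [word, List.length_replicate, ← pow_add, Nat.log_pow (by norm_num)]
    ring
  unfold fB
  rw [cp_ll, h1, word, List.length_replicate, ll_pow, Bool.and_eq_true, Bool.and_eq_true,
    decide_eq_true_iff, decide_eq_true_iff, decide_eq_true_iff]
  refine ⟨⟨hi, Nat.size_le.2 h.1⟩, ?_⟩
  rw [pre_take T le_rfl, drop_pre_eq_iff]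
  exact h.2

/-- The challenge system of column `s`. -/
def Fn (Q0 : List Bool → List Bool) (D : List Bool → List Bool × (List Bool × List Bool))
    (G : ℕ × List Bool → List Bool) (y0 : List Bool) (s m0 : ℕ) (T : ℕ → Bool)
    (π : List Bool) : List Bool :=
  bif π.headD false then
    (bif fB s m0 (D π.tail).1.length (D π.tail).2.2
      (pre T (Nat.log 2 ((D π.tail).2.2.length * (D π.tail).2.2.length))) then
      G ((D π.tail).1.length, (D π.tail).2.1) else y0)
  else Q0 π.tail

section challenge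

variable {Q0 : List Bool → List Bool} {D : List Bool → List Bool × (List Bool × List Bool)}
  {G : ℕ × List Bool → List Bool} {y0 : List Bool} {L : DecisionProblem}

theorem Fn_RT (hQ0 : PolyTime Q0) (hD : PolyTime D) (hG : PolyTime G) (s m0 : ℕ)
    (T : ℕ → Bool) : RT T (Fn Q0 D G y0 s m0 T) := by
  have h0 : PolyTime (fun π : List Bool => D π.tail) := hD.comp (PolyTime.tail PolyTime.id)
  have h1 : RT T (fun π : List Bool =>
      pre T (Nat.log 2 ((D π.tail).2.2.length * (D π.tail).2.2.length))) := by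
    have h2 : PolyTime (fun π : List Bool => (D π.tail).2.2.length) :=
      PolyTime.length (PolyTime.snd (PolyTime.snd h0))
    exact RT.pre (PolyTime.natMul h2 h2)
  have h3 : PolyTime (fun z : List Bool × List Bool => D z.1.tail) :=
    h0.comp PolyTime.fst'
  have h4 : PolyTime (fun z : List Bool × List Bool => bif z.1.headD false then
      (bif fB s m0 (D z.1.tail).1.length (D z.1.tail).2.2 z.2 then
        G ((D z.1.tail).1.length, (D z.1.tail).2.1) else y0) else Q0 z.1.tail) :=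
    PolyTime.cond (by fun_prop) (PolyTime.cond (fB_polyTime s m0 (PolyTime.length
      (PolyTime.fst h3)) (PolyTime.snd (PolyTime.snd h3)) PolyTime.snd') (hG.comp
        (f := fun z : List Bool × List Bool => ((D z.1.tail).1.length, (D z.1.tail).2.1))
        (PolyTime.pair (PolyTime.length (PolyTime.fst h3)) (PolyTime.fst (PolyTime.snd h3))))
      (PolyTime.const y0)) (hQ0.comp (by fun_prop))
  exact (RT.comp' h4 (RT.pair (RT.of PolyTime.id) h1)).congr fun π => rfl

theorem Fn_use (s m0 : ℕ) (T : ℕ → Bool) (π : List Bool) : ∃ K, ∀ T', (∀ k < K, T' k = T k) →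
    Fn Q0 D G y0 s m0 T' π = Fn Q0 D G y0 s m0 T π := by
  refine ⟨Nat.log 2 ((D π.tail).2.2.length * (D π.tail).2.2.length), fun T' hT' => ?_⟩
  unfold Fn
  rw [pre_congr' hT']

theorem Fn_sound (hQ0 : ∀ y, L y = true ↔ ∃ π, Q0 π = y) (h0 : L y0 = true) {s m0 : ℕ}
    {T : ℕ → Bool} (hT : ∀ i, m0 ≤ i → ∀ n, Cl T i (pr s n + 1) → ∀ u, L (G (n, u)) = true)
    (π : List Bool) : L (Fn Q0 D G y0 s m0 T π) = true := by
  unfold Fn
  cases hb : π.headD false
  · exact (hQ0 _).2 ⟨_, rfl⟩
  · rw [cond_true]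
    cases hf : fB s m0 (D π.tail).1.length (D π.tail).2.2
      (pre T (Nat.log 2 ((D π.tail).2.2.length * (D π.tail).2.2.length)))
    · exact h0
    · rw [cond_true]
      have := cl_of_fB hf
      exact hT _ this.1 _ this.2 _

end challenge

/-! ### The oracle with a single claim -/

/-- The position of the claim. -/
def ipos (m c : ℕ) : ℕ := m + ll c + 1

theorem lt_ipos (m c : ℕ) : c < 2 ^ 2 ^ ipos m c := by
  have h1 : c < 2 ^ (Nat.log 2 c + 1) := Nat.lt_pow_succ_log_self (by norm_num) c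
  have h2 : Nat.log 2 c < 2 ^ (ll c + 1) := Nat.lt_pow_succ_log_self (by norm_num) _
  have h3 : 2 ^ (ll c + 1) ≤ 2 ^ ipos m c := Nat.pow_le_pow_right (by norm_num) (by
    unfold ipos; omega)
  exact h1.trans_le (Nat.pow_le_pow_right (by norm_num) (by omega))

theorem word_ipos_le (m c : ℕ) (hc : 1 ≤ c) : 2 ^ 2 ^ ipos m c ≤ (2 * c) ^ 2 ^ (m + 1) := by
  have h1 : 2 ^ 2 ^ ll c ≤ 2 * c := by
    rcases Nat.eq_zero_or_pos (Nat.log 2 c) with h0 | h0
    · rw [ll, h0]
      simp
      omega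
    · have h2 : 2 ^ ll c ≤ Nat.log 2 c := Nat.pow_log_le_self 2 (by omega)
      have h3 : 2 ^ Nat.log 2 c ≤ c := Nat.pow_log_le_self 2 (by omega)
      have h4 : 2 ^ 2 ^ ll c ≤ 2 ^ Nat.log 2 c := Nat.pow_le_pow_right (by norm_num) h2
      omega
  have h2 : 2 ^ ipos m c = 2 ^ ll c * 2 ^ (m + 1) := by
    rw [← pow_add]
    congr 1
    unfold ipos
    omega
  rw [h2, pow_mul]
  exact Nat.pow_le_pow_left h1 _

/-- The oracle `T0` below `2^m` with the single number `c` coded later. -/
def Tn (T0 : ℕ → Bool) (m c k : ℕ) : Bool :=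
  bif decide (k < 2 ^ m) then (pre T0 (2 ^ m)).getD k false else
    decide (Nat.log 2 k = ipos m c) && tb c (k - cp k (Nat.log 2 k))

theorem Tn_polyTime {α : Type} [Enc α] (T0 : ℕ → Bool) (m : ℕ) {c k : α → ℕ} (hc : PolyTime c)
    (hk : PolyTime k) : PolyTime (fun x => Tn T0 m (c x) (k x)) := by
  unfold Tn ipos
  exact PolyTime.cond (PolyTime.decide_lt hk (PolyTime.const _)) (PolyTime.getD
    (PolyTime.const _) hk (PolyTime.const false)) (PolyTime.and (PolyTime.decide_eq (by fun_prop)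
      (by fun_prop)) (tb_polyTime hc (PolyTime.natSub hk (cp_polyTime hk (by fun_prop)))))

theorem Tn_agree (T0 : ℕ → Bool) (m c : ℕ) : Agree m T0 (Tn T0 m c) := by
  intro k hk
  unfold Tn
  rw [decide_eq_true hk, cond_true, List.getD_eq_getElem _ _ (by rw [pre_length]; exact hk)]
  simp [pre]

theorem Tn_block (T0 : ℕ → Bool) {m c i j : ℕ} (hi : m ≤ i) (hj : j < 2 ^ i) :
    Tn T0 m c (2 ^ i + j) = (decide (i = ipos m c) && Nat.testBit c j) := by
  have h1 : 2 ^ m ≤ 2 ^ i := Nat.pow_le_pow_right (by norm_num) hi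
  have h2 : Nat.log 2 (2 ^ i + j) = i := by
    refine Nat.log_eq_of_pow_le_of_lt_pow (by omega) ?_
    rw [pow_succ]
    omega
  unfold Tn
  rw [decide_eq_false (by omega), cond_false, h2, cp_eq (by omega), Nat.add_sub_cancel_left, tb_eq]

theorem Tn_cl (T0 : ℕ → Bool) {m c i d : ℕ} (hi : m ≤ i) (h : Cl (Tn T0 m c) i (d + 1)) :
    i = ipos m c ∧ d + 1 = c := by
  by_cases hc : i = ipos m c
  · refine ⟨hc, h.unique (c' := c) ⟨?_, fun j hj => ?_⟩⟩
    · rw [hc]
      exact lt_ipos m c
    · rw [Tn_block T0 hi hj, decide_eq_true hc, Bool.true_and]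
  · exfalso
    have h0 : Cl (Tn T0 m c) i 0 := by
      refine ⟨by positivity, fun j hj => ?_⟩
      rw [Tn_block T0 hi hj, decide_eq_false hc, Bool.false_and, Nat.zero_testBit]
    exact absurd (h.unique h0) (Nat.succ_ne_zero d)

theorem Tn_cl' (T0 : ℕ → Bool) (m c : ℕ) : Cl (Tn T0 m c) (ipos m c) c := by
  refine ⟨lt_ipos m c, fun j hj => ?_⟩
  rw [Tn_block T0 (by unfold ipos; omega) hj, decide_eq_true rfl, Bool.true_and]

theorem ev_Tn_polyTime {α : Type} [Enc α] (T0 : ℕ → Bool) (m : ℕ)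
    {sys : (List Bool × List Bool → List Bool) × ℕ} (hsys : PolyTime sys.1) {c : α → ℕ}
    {ρ : α → List Bool} (hc : PolyTime c) (hρ : PolyTime ρ) :
    PolyTime (fun x => ev sys (Tn T0 m (c x)) (ρ x)) := by
  unfold ev pre
  refine hsys.comp (PolyTime.pair hρ (PolyTime.map (g := fun x k => Tn T0 m (c x) k)
    (PolyTime.range ?_) (Tn_polyTime T0 m (by fun_prop) (by fun_prop))))
  exact natLog_polyTime (PolyTime.natPowConst (PolyTime.natAdd (PolyTime.length hρ)
    (PolyTime.const 2)) _)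

open Classical in
/-- If some tally set in `Π₂ᵖ` is not in `P`, there is an oracle relative to which some nonempty
language in `NP` has no optimal system. -/
theorem exists_oracle_not_optimal (h : ¬ ∀ A ∈ PiTwo, Tally A → A ∈ P) :
    ∃ (T : ℕ → Bool) (L : DecisionProblem), L ∈ NP ∧ (∃ y, L y = true) ∧
      ¬ ∃ Q, IsPOptimalRel T L Q := by
  obtain ⟨L, hL, ⟨y0, h0⟩, G, hG, hE⟩ := exists_hard h
  obtain ⟨Q0, hQ0, hQ0'⟩ := exists_proofSystem hL h0
  obtain ⟨D, hD, hD'⟩ := Compat.dec (α := List Bool × (List Bool × List Bool))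
  obtain ⟨sys, hsys, hsys'⟩ := exists_enum
  have hevuse : ∀ s T π, ∃ K, ∀ T', (∀ k < K, T' k = T k) →
      ev (sys s) T' π = ev (sys s) T π := by
    intro s T π
    refine ⟨Nat.log 2 ((π.length + 2) ^ ((sys s).2 + 1)), fun T' hT' => ?_⟩
    unfold ev
    rw [pre_congr' hT']
  have huse : ∀ s T, (¬ ∀ ρ, L (ev (sys s) T ρ) = true) → ∃ K, ∀ T', (∀ k < K, T' k = T k) →
      ¬ ∀ ρ, L (ev (sys s) T' ρ) = true := by
    intro s T hs
    push Not at hs
    obtain ⟨ρ, hρ⟩ := hs
    obtain ⟨K, hK⟩ := hevuse s T ρ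
    refine ⟨K, fun T' hT' hs' => hρ ?_⟩
    rw [← hK T' hT']
    exact hs' ρ
  have hhard : ∀ (s j m0 m : ℕ) (T0 : ℕ → Bool), m0 ≤ m →
      (∀ T', Agree m T0 T' → (∀ i, m ≤ i → ∀ s' n, Cl T' i (pr s' n + 1) → s' = s) →
        ∀ ρ, L (ev (sys s) T' ρ) = true) →
      (∀ T', Agree m T0 T' → (∀ i, m ≤ i → ∀ s' n, Cl T' i (pr s' n + 1) →
        ∀ u, L (G (n, u)) = true) → ∀ π, ev (sys s) T' (ev (sys j) T' π) =
          Fn Q0 D G y0 s m0 T' π) → False := by
    intro s j m0 m T0 hm h1 h2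
    refine hE ?_
    have hc : PolyTime (fun z : ℕ × List Bool => pr s z.1 + 1) :=
      PolyTime.succ (pr_polyTime (PolyTime.const s) (by fun_prop))
    have hi : PolyTime (fun z : ℕ × List Bool => ipos m (pr s z.1 + 1)) := by
      unfold ipos
      exact PolyTime.succ (PolyTime.natAdd (PolyTime.const m) (ll_polyTime hc))
    set pf : ℕ × List Bool → List Bool := fun z => true :: bitEncode (List.replicate z.1 true,
      (z.2, List.replicate (cp2 ((2 * (pr s z.1 + 1)) ^ 2 ^ (m + 1))
        (ipos m (pr s z.1 + 1))) true)) with hpf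
    have hpf1 : ∀ z, pf z = true :: bitEncode (List.replicate z.1 true,
        (z.2, word (ipos m (pr s z.1 + 1)))) := by
      intro z
      simp only [hpf]
      rw [cp2_eq (word_ipos_le m _ (by omega)), word]
    have hpfP : PolyTime pf := by
      refine PolyTime.cons (PolyTime.const true) ((Compat.enc (α := List Bool × (List Bool ×
        List Bool))).comp (PolyTime.pair (PolyTime.replicate (by fun_prop) (PolyTime.const true))
          (PolyTime.pair (by fun_prop) (PolyTime.replicate (cp2_polyTime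
            (PolyTime.natPowConst (PolyTime.natMul (PolyTime.const 2) hc) _) hi)
            (PolyTime.const true)))))
    refine ⟨fun z => decide (ev (sys s) (Tn T0 m (pr s z.1 + 1)) (ev (sys j)
      (Tn T0 m (pr s z.1 + 1)) (pf z)) = G z), ?_, fun n u hV => ?_, fun n hn u => ?_⟩
    · exact PolyTime.decide_eq (ev_Tn_polyTime T0 m (hsys s) hc (ev_Tn_polyTime T0 m (hsys j) hc
        hpfP)) hG
    · rw [decide_eq_true_iff] at hV
      rw [← hV]
      refine h1 _ (Tn_agree T0 m _) (fun i hi s' n' hcl => ?_) _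
      exact (pr_inj (Nat.succ_injective (Tn_cl T0 hi hcl).2)).1
    · rw [decide_eq_true_iff]
      beta_reduce
      have h3 := h2 (Tn T0 m (pr s n + 1)) (Tn_agree T0 m _) (fun i hi s' n' hcl => by
        have h4 := (pr_inj (Nat.succ_injective (Tn_cl T0 hi hcl).2)).2
        rw [h4]
        exact hn) (pf (n, u))
      rw [h3, hpf1]
      simp only [Fn, List.headD_cons, List.tail_cons, cond_true, hD', List.length_replicate]
      rw [fB_of_cl (by unfold ipos; omega) (Tn_cl' T0 m _), cond_true]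
  obtain ⟨T, hT⟩ := exists_generic (Good := fun n => ∀ u, L (G (n, u)) = true)
    (Sd := fun s T => ∀ ρ, L (ev (sys s) T ρ) = true) (ev := fun s => ev (sys s))
    (Fn := Fn Q0 D G y0) huse hevuse Fn_use hhard
  refine ⟨T, L, hL, ⟨y0, h0⟩, ?_⟩
  rintro ⟨Q, hQ, hopt⟩
  have hQ' := isProofSystemRel_iff.1 hQ
  obtain ⟨s, hs⟩ := exists_ev hsys' hQ'.1
  rcases hT s with hT | ⟨m0, hT, hT'⟩
  · exact hT fun ρ => by rw [hs]; exact (hQ'.2 _).2 ⟨_, rfl⟩
  · have hFnS : IsProofSystemRel T L (Fn Q0 D G y0 s m0 T) := by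
      refine isProofSystemRel_iff.2 ⟨Fn_RT hQ0 hD hG s m0 T, fun y => ⟨fun hy => ?_, ?_⟩⟩
      · obtain ⟨π, hπ⟩ := (hQ0' y).1 hy
        exact ⟨false :: π, by simpa [Fn] using hπ⟩
      · rintro ⟨π, rfl⟩
        exact Fn_sound hQ0' h0 hT π
    obtain ⟨t, ht, htS⟩ := hopt _ hFnS
    obtain ⟨j, hj⟩ := exists_ev hsys' (isPolyTimeRel_iff.1 ht)
    obtain ⟨π, hπ⟩ := hT' j
    refine hπ ?_
    rw [hj, hs]
    exact htS π

/-- If some tally set in `Π₂ᵖ` is not in `P`, there is an oracle relative to which no complete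
language has an optimal system. -/
theorem exists_oracle_complete_not_optimal (h : ¬ ∀ A ∈ PiTwo, Tally A → A ∈ P) :
    ∃ T : ℕ → Bool, ∀ L, IsNPCompleteRel T L → ¬ ∃ Q, IsPOptimalRel T L Q := by
  obtain ⟨T, L₀, hL₀, hne, hno⟩ := exists_oracle_not_optimal h
  refine ⟨T, fun L hL hQ => hno ?_⟩
  obtain ⟨f, hf, hfL⟩ := hL.2 L₀ (NP_subset_NPRel hL₀)
  exact optimal_of_reduction (isPolyTimeRel_iff.1 hf) hfL hne hQ

end Pool.Agent.POpt70
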