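import Pool.Prelude.Def_F_458e953d

/-!
# Polynomial time relative to oracles `{1^(2^k) : T k}`
-/

set_option autoImplicit false

namespace Pool.Agent.POpt70

open N68a2faeb N793a5b8e N487b59b3

/-- The first `k` bits of `T`. -/
def pre (T : ℕ → Bool) (k : ℕ) : List Bool := (List.range k).map T

/-- `f` is computable in polynomial time relative to the oracle `{1^(2^k) : T k}`: in polynomial
time with access to the bits `T k` with `2^k` polynomially bounded. -/
def IsPolyTimeRel (T : ℕ → Bool) {α β : Type} [N487b59b3 α] [N487b59b3 β] (f : α → β) : Prop :=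
  ∃ (p : Polynomial ℕ) (F : α × List Bool → β), IsPolyTime F ∧
    ∀ x, f x = F (x, pre T (Nat.log 2 (p.eval (bitEncode x).length)))

/-- `P` relative to `T`. -/
def PRel (T : ℕ → Bool) : DecisionComplexityClass := { L | IsPolyTimeRel T L }

/-- `NP` relative to `T`. -/
def NPRel (T : ℕ → Bool) : DecisionComplexityClass :=
  { L | ∃ (p : Polynomial ℕ) (R : List Bool × List Bool → Bool), IsPolyTimeRel T R ∧
      ∀ x, L x ↔ ∃ w : List Bool, w.length ≤ p.eval x.length ∧ R (x, w) }

/-- `L` is `NP`-complete relative to `T`. -/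
def IsNPCompleteRel (T : ℕ → Bool) (L : DecisionProblem) : Prop :=
  L ∈ NPRel T ∧ ∀ A ∈ NPRel T, ∃ f : List Bool → List Bool, IsPolyTimeRel T f ∧
    ∀ x, A x = L (f x)

/-- `Q` is a proof system for `L` relative to `T`. -/
def IsProofSystemRel (T : ℕ → Bool) (L : DecisionProblem) (Q : List Bool → List Bool) : Prop :=
  IsPolyTimeRel T Q ∧ ∀ y, L y ↔ ∃ π, Q π = y

/-- `Q` is a p-optimal proof system for `L` relative to `T`. -/
def IsPOptimalRel (T : ℕ → Bool) (L : DecisionProblem) (Q : List Bool → List Bool) : Prop :=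
  IsProofSystemRel T L Q ∧ ∀ S, IsProofSystemRel T L S →
    ∃ h : List Bool → List Bool, IsPolyTimeRel T h ∧ ∀ π, Q (h π) = S π

/-- The relativized question: no language that is `NP`-complete relative to `T` has a p-optimal
proof system relative to `T`. -/
def NoCompleteOptimal (T : ℕ → Bool) : Prop :=
  ∀ L, IsNPCompleteRel T L → ¬ ∃ Q, IsPOptimalRel T L Q

/-- All true places of `T` are powers of two, and at most `β n` of the places
`2^0, …, 2^(n - 1)` are true. -/
def IsThin (β : ℕ → ℕ) (T : ℕ → Bool) : Prop :=
  (∀ k, T k = true → ∃ i, k = 2 ^ i) ∧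
    ∀ n, ((Finset.range n).filter fun i => T (2 ^ i) = true).card ≤ β n

/-- `A` is a tally language: all its elements are words `1^n`. -/
def Tally (A : DecisionProblem) : Prop := ∀ x, A x = true → x = List.replicate x.length true

end Pool.Agent.POpt70
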