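import Pool.Agent.POpt70.Tools
import Pool.Agent.POpt70.RelDefs

/-!
# Calculus of relativized polynomial time
-/

set_option autoImplicit false

namespace Pool.Agent.POpt70

open Pool.Agent.PT Pool.Agent.TMB67 Pool.Agent.POpt67 N68a2faeb N793a5b8e N487b59b3

theorem pre_length (T : ℕ → Bool) (k : ℕ) : (pre T k).length = k := by simp [pre]

theorem pre_take (T : ℕ → Bool) {k l : ℕ} (h : k ≤ l) : (pre T l).take k = pre T k := by
  rw [pre, ← List.map_take, List.take_range, min_eq_left h, pre]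

theorem pre_succ (T : ℕ → Bool) (k : ℕ) : pre T (k + 1) = pre T k ++ [T k] := by
  rw [pre, List.range_succ, List.map_append]
  rfl

theorem pre_congr {T T' : ℕ → Bool} {k : ℕ} (h : ∀ i < k, T i = T' i) : pre T k = pre T' k :=
  List.map_congr_left fun i hi => h i (List.mem_range.1 hi)

/-- Relativized polynomial time, robust form. -/
def RT (T : ℕ → Bool) {α β : Type} [Enc α] [Enc β] (f : α → β) : Prop :=
  ∃ (p : Polynomial ℕ) (F : α × List Bool → β), PolyTime F ∧
    ∀ x k, Nat.log 2 (p.eval (sz x)) ≤ k → F (x, pre T k) = f x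

section calculus

variable {T : ℕ → Bool} {α β γ : Type} [Enc α] [Enc β] [Enc γ]

theorem RT.of {f : α → β} (hf : PolyTime f) : RT T f :=
  ⟨0, fun p => f p.1, hf.comp PolyTime.fst', fun _ _ _ => rfl⟩

theorem RT.congr {f g : α → β} (hf : RT T f) (h : ∀ x, g x = f x) : RT T g := by
  obtain ⟨p, F, hF, hF'⟩ := hf
  exact ⟨p, F, hF, fun x k hk => by rw [hF' x k hk, h]⟩

theorem PBdd.log {s : α → ℕ} (hs : PBdd s) : PBdd (fun x => Nat.log 2 (s x)) :=
  hs.of_le fun x => Nat.log_le_self 2 (s x)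

theorem RT.pbdd {f : α → β} (hf : RT T f) : PBdd (fun x => sz (f x)) := by
  obtain ⟨p, F, hF, hF'⟩ := hf
  obtain ⟨q, hq⟩ := hF.pbdd
  have h1 : PBdd (fun x : α => p.eval (sz x)) := ⟨p, fun x => le_rfl⟩
  have h2 := (((PBdd.log h1).mul (PBdd.const 4)).add (PBdd.const 2)).add
    (PBdd.size (α := α))
  refine (h2.eval q).of_le fun x => ?_
  rw [← hF' x _ le_rfl]
  refine (hq _).trans (eval_mono q ?_)
  have h3 := sz_listBool (pre T (Nat.log 2 (p.eval (sz x))))
  rw [pre_length] at h3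
  rw [sz_prod]
  simp only
  omega

theorem RT.comp {g : β → γ} {f : α → β} (hg : RT T g) (hf : RT T f) :
    RT T (fun x => g (f x)) := by
  obtain ⟨r, hr⟩ := hf.pbdd
  obtain ⟨p, F, hF, hF'⟩ := hf
  obtain ⟨q, G, hG, hG'⟩ := hg
  refine ⟨p + q.comp r, fun z => G (F z, z.2), hG.comp (PolyTime.pair hF PolyTime.snd'),
    fun x k hk => ?_⟩
  rw [Polynomial.eval_add, Polynomial.eval_comp] at hk
  have h1 : F (x, pre T k) = f x := hF' x k
    ((Nat.log_mono_right (Nat.le_add_right _ _)).trans hk)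
  beta_reduce
  rw [h1]
  refine hG' _ k ((Nat.log_mono_right ?_).trans hk)
  exact (eval_mono q (hr x)).trans (Nat.le_add_left _ _)

theorem RT.pair {f : α → β} {g : α → γ} (hf : RT T f) (hg : RT T g) :
    RT T (fun x => (f x, g x)) := by
  obtain ⟨p, F, hF, hF'⟩ := hf
  obtain ⟨q, G, hG, hG'⟩ := hg
  refine ⟨p + q, fun z => (F z, G z), PolyTime.pair hF hG, fun x k hk => ?_⟩
  rw [Polynomial.eval_add] at hk
  beta_reduce
  rw [hF' x k ((Nat.log_mono_right (Nat.le_add_right _ _)).trans hk),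
    hG' x k ((Nat.log_mono_right (Nat.le_add_left _ _)).trans hk)]

theorem RT.comp' {g : β → γ} {f : α → β} (hg : PolyTime g) (hf : RT T f) :
    RT T (fun x => g (f x)) := (RT.of hg).comp hf

end calculus

theorem exists_enc_bound {α : Type} [N487b59b3 α] [Enc α] [Compat α] :
    ∃ q : Polynomial ℕ, ∀ x : α, (bitEncode x).length ≤ q.eval (sz x) := by
  obtain ⟨q, hq⟩ := (Compat.enc (α := α)).pbdd
  exact ⟨q, fun x => (length_le_sz _).trans (hq x)⟩

theorem exists_sz_bound {α : Type} [N487b59b3 α] [Enc α] [Compat α] :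
    ∃ q : Polynomial ℕ, ∀ x : α, sz x ≤ q.eval (bitEncode x).length := by
  obtain ⟨D, hD, hD'⟩ := Compat.dec (α := α)
  obtain ⟨q, hq⟩ := hD.pbdd
  refine ⟨q.comp (4 * Polynomial.X + 1), fun x => ?_⟩
  have h1 : sz (D (bitEncode x)) ≤ _ := hq (bitEncode x)
  rw [hD'] at h1
  rw [Polynomial.eval_comp]
  refine h1.trans (eval_mono q ?_)
  simpa using sz_listBool (bitEncode x)

/-- The two notions of relativized polynomial time agree. -/
theorem isPolyTimeRel_iff {T : ℕ → Bool} {α β : Type} [N487b59b3 α] [N487b59b3 β] [Enc α] [Enc β]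
    [Compat α] [Compat β] {f : α → β} : IsPolyTimeRel T f ↔ RT T f := by
  constructor
  · rintro ⟨p, F, hF, hF'⟩
    obtain ⟨q, hq⟩ := exists_enc_bound (α := α)
    refine ⟨p.comp q, fun z => F (z.1, z.2.take (Nat.log 2 (p.eval (bitEncode z.1).length))),
      (isPolyTime_iff.1 hF).comp (PolyTime.pair PolyTime.fst' (PolyTime.take
        (natLog_polyTime (polyEval_length p ((Compat.enc (α := α)).comp PolyTime.fst')))
        PolyTime.snd')), fun x k hk => ?_⟩
    rw [Polynomial.eval_comp] at hk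
    beta_reduce
    rw [pre_take T ((Nat.log_mono_right (eval_mono p (hq x))).trans hk), hF']
  · rintro ⟨p, F, hF, hF'⟩
    obtain ⟨q, hq⟩ := exists_sz_bound (α := α)
    refine ⟨p.comp q, F, isPolyTime_iff.2 hF, fun x => (hF' x _ ?_).symm⟩
    rw [Polynomial.eval_comp]
    exact Nat.log_mono_right (eval_mono p (hq x))

section classes

variable {T : ℕ → Bool}

theorem mem_PRel_iff {A : DecisionProblem} : A ∈ PRel T ↔ RT T A := isPolyTimeRel_iff

theorem mem_NPRel_iff {A : DecisionProblem} : A ∈ NPRel T ↔ ∃ (p : Polynomial ℕ)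
    (R : List Bool × List Bool → Bool), RT T R ∧
      ∀ x, A x ↔ ∃ w : List Bool, w.length ≤ p.eval x.length ∧ R (x, w) := by
  constructor
  · rintro ⟨p, R, hR, h⟩
    exact ⟨p, R, isPolyTimeRel_iff.1 hR, h⟩
  · rintro ⟨p, R, hR, h⟩
    exact ⟨p, R, isPolyTimeRel_iff.2 hR, h⟩

theorem isProofSystemRel_iff {L : DecisionProblem} {Q : List Bool → List Bool} :
    IsProofSystemRel T L Q ↔ RT T Q ∧ ∀ y, L y ↔ ∃ π, Q π = y := by
  rw [IsProofSystemRel, isPolyTimeRel_iff]

theorem NP_subset_NPRel : NP ⊆ NPRel T := by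
  intro A hA
  obtain ⟨p, R, hR, h⟩ := mem_NP_iff.1 hA
  exact mem_NPRel_iff.2 ⟨p, R, RT.of hR, h⟩

/-- Normal form of languages in relativized `NP`: there is a polynomial bound on everything. -/
theorem NPRel_normal {L : DecisionProblem} (hL : L ∈ NPRel T) :
    ∃ (p b : Polynomial ℕ) (F : (List Bool × List Bool) × List Bool → Bool), PolyTime F ∧
      ∀ x k, Nat.log 2 (b.eval x.length) ≤ k →
        (L x ↔ ∃ w : List Bool, w.length ≤ p.eval x.length ∧ F ((x, w), pre T k)) := by
  obtain ⟨p, R, ⟨q, F, hF, hF'⟩, h⟩ := mem_NPRel_iff.1 hL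
  refine ⟨p, q.comp (4 * Polynomial.X + 4 * p + 3), F, hF, fun x k hk => ?_⟩
  rw [h]
  refine exists_congr fun w => and_congr_right fun hw => ?_
  rw [hF' (x, w) k]
  refine (Nat.log_mono_right ?_).trans hk
  rw [Polynomial.eval_comp]
  refine eval_mono q ?_
  have h1 := sz_listBool x
  have h2 := sz_listBool w
  rw [sz_prod]
  simp only [Polynomial.eval_add, Polynomial.eval_mul, Polynomial.eval_X, Polynomial.eval_ofNat]
  omega

/-- Relativized p-optimality is inherited along reductions. -/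
theorem optimal_of_reduction {L A : DecisionProblem} {f : List Bool → List Bool} (hf : RT T f)
    (hfA : ∀ x, A x = L (f x)) (hne : ∃ y, A y = true) (hL : ∃ Q, IsPOptimalRel T L Q) :
    ∃ Q, IsPOptimalRel T A Q := by
  obtain ⟨y0, h0⟩ := hne
  obtain ⟨Q, hQ, hopt⟩ := hL
  have hQ' := isProofSystemRel_iff.1 hQ
  obtain ⟨D, hD, hD'⟩ := Compat.dec (α := List Bool × List Bool)
  have key : ∀ S : List Bool → List Bool, RT T S → (∀ π, A (S π) = true) →
      ∃ h : List Bool → List Bool, RT T h ∧ ∀ π, (if Q (D (h π)).2 = f (D (h π)).1 then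
        (D (h π)).1 else y0) = S π := by
    intro S hS hSA
    have h1 : IsProofSystemRel T L (fun π => bif π.headD false then f (S π.tail) else Q π.tail) := by
      refine isProofSystemRel_iff.2 ⟨?_, fun y => ⟨fun hy => ?_, ?_⟩⟩
      · have h2 : RT T (fun π : List Bool => (π.headD false, (f (S π.tail), Q π.tail))) :=
          RT.pair (RT.of (by fun_prop)) (RT.pair ((hf.comp hS).comp (RT.of (by fun_prop)))
            (hQ'.1.comp (RT.of (by fun_prop))))
        exact RT.comp' (g := fun p : Bool × (List Bool × List Bool) =>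
          bif p.1 then p.2.1 else p.2.2) (PolyTime.cond (by fun_prop) (by fun_prop)
            (by fun_prop)) h2
      · obtain ⟨π, hπ⟩ := (hQ'.2 y).1 hy
        exact ⟨false :: π, by simpa using hπ⟩
      · rintro ⟨π, rfl⟩
        beta_reduce
        cases π.headD false
        · simpa using (hQ'.2 _).2 ⟨_, rfl⟩
        · simpa [← hfA] using hSA _
    obtain ⟨h, hh, hh'⟩ := hopt _ h1
    have hh := isPolyTimeRel_iff.1 hh
    refine ⟨fun π => bitEncode (S π, h (true :: π)), ?_, fun π => ?_⟩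
    · exact RT.comp' (Compat.enc (α := List Bool × List Bool)) (RT.pair hS
        (hh.comp (RT.of (by fun_prop))))
    · have h3 := hh' (true :: π)
      simp only [List.headD_cons, List.tail_cons, cond_true] at h3
      simp [hD', h3]
  refine ⟨fun π => if Q (D π).2 = f (D π).1 then (D π).1 else y0, isProofSystemRel_iff.2
    ⟨?_, fun y => ⟨fun hy => ?_, ?_⟩⟩, fun S hS => ?_⟩
  · have h2 : RT T (fun π : List Bool => ((D π).1, (f (D π).1, Q (D π).2))) :=
      RT.pair (RT.of (by fun_prop)) (RT.pair (hf.comp (RT.of (by fun_prop)))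
        (hQ'.1.comp (RT.of (by fun_prop))))
    exact RT.comp' (g := fun p : List Bool × (List Bool × List Bool) =>
      if p.2.2 = p.2.1 then p.1 else y0) (PolyTime.ite (PolyTime.decide_eq (by fun_prop)
        (by fun_prop)) (by fun_prop) (by fun_prop)) h2
  · obtain ⟨h, _, hh⟩ := key (fun _ => y) (RT.of (PolyTime.const y)) fun _ => hy
    exact ⟨h [], hh []⟩
  · rintro ⟨π, rfl⟩
    beta_reduce
    by_cases hc : Q (D π).2 = f (D π).1
    · rw [if_pos hc, hfA, ← hc]
      exact (hQ'.2 _).2 ⟨_, rfl⟩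
    · rw [if_neg hc]
      exact h0
  · have hS' := isProofSystemRel_iff.1 hS
    obtain ⟨h, hh, hh'⟩ := key S hS'.1 fun π => (hS'.2 _).2 ⟨π, rfl⟩
    exact ⟨h, isPolyTimeRel_iff.2 hh, hh'⟩

end classes

end Pool.Agent.POpt70
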