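import Mathlib.Order.Ideal
import Mathlib.Data.Nat.Bitwise
import Pool.Agent.POpt67.Tally

/-!
# A generic oracle
-/

set_option autoImplicit false

namespace Pool.Agent.POpt70

open Pool.Agent.POpt67

/-- Block `i` of `T` codes the number `c`. -/
def Cl (T : ℕ → Bool) (i c : ℕ) : Prop :=
  c < 2 ^ 2 ^ i ∧ ∀ j < 2 ^ i, T (2 ^ i + j) = Nat.testBit c j

theorem Cl.unique {T : ℕ → Bool} {i c c' : ℕ} (h : Cl T i c) (h' : Cl T i c') : c = c' := by
  refine Nat.eq_of_testBit_eq fun j => ?_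
  by_cases hj : j < 2 ^ i
  · rw [← h.2 j hj, ← h'.2 j hj]
  · have hle : 2 ^ 2 ^ i ≤ 2 ^ j := Nat.pow_le_pow_right (by norm_num) (not_lt.1 hj)
    rw [Nat.testBit_eq_false_of_lt (h.1.trans_le hle),
      Nat.testBit_eq_false_of_lt (h'.1.trans_le hle)]

/-- `T'` agrees with `T` on the first `2^m` places. -/
def Agree (m : ℕ) (T T' : ℕ → Bool) : Prop := ∀ k < 2 ^ m, T' k = T k

theorem Agree.cl {m i c : ℕ} {T T' : ℕ → Bool} (h : Agree m T T') (hi : i < m) :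
    Cl T' i c ↔ Cl T i c := by
  unfold Cl
  refine and_congr_right fun _ => forall_congr' fun j => imp_congr_right fun hj => ?_
  rw [h]
  have h1 : 2 ^ (i + 1) ≤ 2 ^ m := Nat.pow_le_pow_right (by norm_num) hi
  rw [pow_succ] at h1
  omega

theorem Agree.trans {m m' : ℕ} {T T' T'' : ℕ → Bool} (h : Agree m T T') (h' : Agree m' T' T'')
    (hm : m ≤ m') : Agree m T T'' := fun k hk => by
  rw [h' k (hk.trans_le (Nat.pow_le_pow_right (by norm_num) hm)), h k hk]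

section forcing

/-- Forcing conditions. -/
structure Cond (Good : ℕ → Prop) (Sd : ℕ → (ℕ → Bool) → Prop) where
  /-- the length -/
  m : ℕ
  /-- the oracle -/
  T : ℕ → Bool
  /-- the protected columns -/
  D : Set ℕ
  inv : ∀ s ∈ D, ∀ T', Agree m T T' →
    (∀ i, m ≤ i → ∀ s' ∈ D, s' ≠ s → ∀ n, Cl T' i (pr s' n + 1) → Good n) → Sd s T'

variable {Good : ℕ → Prop} {Sd : ℕ → (ℕ → Bool) → Prop}

instance : Preorder (Cond Good Sd) where
  le c c' := c.m ≤ c'.m ∧ Agree c.m c.T c'.T ∧ c.D ⊆ c'.D ∧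
    ∀ i, c.m ≤ i → i < c'.m → ∀ s ∈ c.D, ∀ n, Cl c'.T i (pr s n + 1) → Good n
  le_refl c := ⟨le_rfl, fun _ _ => rfl, subset_rfl, fun i h h' => absurd h' (by omega)⟩
  le_trans c c' c'' h h' := by
    refine ⟨h.1.trans h'.1, h.2.1.trans h'.2.1 h.1, h.2.2.1.trans h'.2.2.1,
      fun i hi hi' s hs n hn => ?_⟩
    by_cases hc : i < c'.m
    · exact h.2.2.2 i hi hc s hs n ((h'.2.1.cl hc).1 hn)
    · exact h'.2.2.2 i (not_lt.1 hc) hi' s (h.2.2.1 hs) n hn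

theorem Cond.le_def {c c' : Cond Good Sd} : c ≤ c' ↔ (c.m ≤ c'.m ∧ Agree c.m c.T c'.T ∧
    c.D ⊆ c'.D ∧ ∀ i, c.m ≤ i → i < c'.m → ∀ s ∈ c.D, ∀ n, Cl c'.T i (pr s n + 1) → Good n) :=
  Iff.rfl

/-- Extension of a condition along an oracle. -/
theorem Cond.extend (c : Cond Good Sd) {T' : ℕ → Bool} (hT : Agree c.m c.T T')
    (hcl : ∀ i, c.m ≤ i → ∀ s ∈ c.D, ∀ n, Cl T' i (pr s n + 1) → Good n) {m' : ℕ}
    (hm : c.m ≤ m') : ∃ c' : Cond Good Sd, c ≤ c' ∧ c'.m = m' ∧ c'.T = T' ∧ c'.D = c.D := by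
  refine ⟨⟨m', T', c.D, fun s hs T'' hT'' hcl'' => c.inv s hs T'' (hT.trans hT'' hm)
    fun i hi s' hs' hne n hn => ?_⟩, ⟨hm, hT, subset_rfl, fun i hi _ => hcl i hi⟩, rfl, rfl, rfl⟩
  by_cases hc : i < m'
  · exact hcl i hi s' hs' n ((hT''.cl hc).1 hn)
  · exact hcl'' i (not_lt.1 hc) s' hs' hne n hn

/-- The oracle that is false after length `m`. -/
def cut (m : ℕ) (T : ℕ → Bool) (k : ℕ) : Bool := decide (k < 2 ^ m) && T k

theorem cut_agree (m : ℕ) (T : ℕ → Bool) : Agree m T (cut m T) := fun k hk => by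
  simp [cut, hk]

theorem not_cl_cut {m i c : ℕ} {T : ℕ → Bool} (hi : m ≤ i) : ¬ Cl (cut m T) i (c + 1) := by
  intro h
  have h0 : Cl (cut m T) i 0 := by
    refine ⟨by positivity, fun j _ => ?_⟩
    have h1 : 2 ^ m ≤ 2 ^ i := Nat.pow_le_pow_right (by norm_num) hi
    rw [Nat.zero_testBit, cut, decide_eq_false (by omega), Bool.false_and]
  exact absurd (h.unique h0) (Nat.succ_ne_zero c)

theorem Cond.exists_len (c : Cond Good Sd) (n : ℕ) : ∃ c' : Cond Good Sd, c ≤ c' ∧ n ≤ c'.m ∧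
    c'.D = c.D := by
  obtain ⟨c', h1, h2, _, h4⟩ := c.extend (cut_agree c.m c.T)
    (fun i hi s _ n hn => absurd hn (not_cl_cut hi)) (le_max_left c.m n)
  exact ⟨c', h1, by rw [h2]; exact le_max_right _ _, h4⟩

/-- `c` decides that column `s` is unsound. -/
def Killed (s : ℕ) (c : Cond Good Sd) : Prop := ∀ T', Agree c.m c.T T' → ¬ Sd s T'

/-- Every column is killed or protected. -/
theorem Cond.exists_dec (huse : ∀ s T, ¬ Sd s T → ∃ K, ∀ T', (∀ k < K, T' k = T k) → ¬ Sd s T')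
    (c : Cond Good Sd) (s : ℕ) : ∃ c' : Cond Good Sd, c ≤ c' ∧ (Killed s c' ∨ s ∈ c'.D) := by
  by_cases hs : s ∈ c.D
  · exact ⟨c, le_rfl, Or.inr hs⟩
  · by_cases h : ∀ T', Agree c.m c.T T' →
        (∀ i, c.m ≤ i → ∀ s' ∈ c.D, ∀ n, Cl T' i (pr s' n + 1) → Good n) → Sd s T'
    · refine ⟨⟨c.m, c.T, insert s c.D, fun s₁ hs₁ T' hT' hcl => ?_⟩,
        ⟨le_rfl, fun _ _ => rfl, Set.subset_insert _ _, fun i h h' => absurd h' (by simpa using h)⟩,
        Or.inr (Set.mem_insert _ _)⟩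
      rcases Set.mem_insert_iff.1 hs₁ with rfl | hs₁
      · exact h T' hT' fun i hi s' hs' n hn =>
          hcl i hi s' (Set.mem_insert_of_mem _ hs') (fun he => hs (he ▸ hs')) n hn
      · exact c.inv s₁ hs₁ T' hT' fun i hi s' hs' hne n hn =>
          hcl i hi s' (Set.mem_insert_of_mem _ hs') hne n hn
    · push Not at h
      obtain ⟨T', hT', hcl, hns⟩ := h
      obtain ⟨K, hK⟩ := huse s T' hns
      obtain ⟨c', h1, h2, h3, _⟩ := c.extend hT' hcl (le_max_left c.m K)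
      refine ⟨c', h1, Or.inl fun T'' hT'' => hK T'' fun k hk => ?_⟩
      rw [hT'' k, h3]
      rw [h2]
      exact (hk.trans_le (le_max_right c.m K)).trans Nat.lt_two_pow_self

variable {ev : ℕ → (ℕ → Bool) → List Bool → List Bool}
  {Fn : ℕ → ℕ → (ℕ → Bool) → List Bool → List Bool}

/-- `c` decides that translator `j` fails. -/
def Dia (ev : ℕ → (ℕ → Bool) → List Bool → List Bool)
    (Fn : ℕ → ℕ → (ℕ → Bool) → List Bool → List Bool) (s j m0 : ℕ) (c : Cond Good Sd) : Prop :=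
  ∀ T', Agree c.m c.T T' → ∃ π, ev s T' (ev j T' π) ≠ Fn s m0 T' π

theorem Cond.exists_dia (huse : ∀ s T, ¬ Sd s T → ∃ K, ∀ T', (∀ k < K, T' k = T k) → ¬ Sd s T')
    (hev : ∀ s T π, ∃ K, ∀ T', (∀ k < K, T' k = T k) → ev s T' π = ev s T π)
    (hFn : ∀ s m0 T π, ∃ K, ∀ T', (∀ k < K, T' k = T k) → Fn s m0 T' π = Fn s m0 T π)
    (hard : ∀ (s j m0 m : ℕ) (T0 : ℕ → Bool), m0 ≤ m →
      (∀ T', Agree m T0 T' → (∀ i, m ≤ i → ∀ s' n, Cl T' i (pr s' n + 1) → s' = s) → Sd s T') →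
      (∀ T', Agree m T0 T' → (∀ i, m ≤ i → ∀ s' n, Cl T' i (pr s' n + 1) → Good n) →
        ∀ π, ev s T' (ev j T' π) = Fn s m0 T' π) → False)
    (c : Cond Good Sd) (s j m0 : ℕ) : ∃ c' : Cond Good Sd, c ≤ c' ∧
      (Killed s c' ∨ Dia ev Fn s j m0 c') := by
  obtain ⟨c₁, h₁, hk | hs⟩ := c.exists_dec huse s
  · exact ⟨c₁, h₁, Or.inl hk⟩
  obtain ⟨c₂, h₂, hm, hD⟩ := c₁.exists_len m0
  by_contra hcon
  push Not at hcon
  refine hard s j m0 c₂.m c₂.T hm (fun T' hT' hcl => ?_) (fun T' hT' hcl π => ?_)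
  · exact c₂.inv s (hD ▸ hs) T' hT' fun i hi s' _ hne n hn => absurd (hcl i hi s' n hn) hne
  · by_contra hne
    obtain ⟨K₁, hK₁⟩ := hev j T' π
    obtain ⟨K₂, hK₂⟩ := hev s T' (ev j T' π)
    obtain ⟨K₃, hK₃⟩ := hFn s m0 T' π
    obtain ⟨c', h1, h2, h3, _⟩ := c₂.extend hT' (fun i hi s _ n hn => hcl i hi s n hn)
      (le_max_left c₂.m (K₁ + K₂ + K₃))
    refine (hcon c' (h₁.trans (h₂.trans h1))).2 fun T'' hT'' => ⟨π, ?_⟩
    have hag : ∀ k < K₁ + K₂ + K₃, T'' k = T' k := by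
      intro k hk
      rw [hT'' k, h3]
      rw [h2]
      exact (hk.trans_le (le_max_right c₂.m _)).trans Nat.lt_two_pow_self
    rw [hK₁ T'' fun k hk => hag k (by omega), hK₂ T'' fun k hk => hag k (by omega),
      hK₃ T'' fun k hk => hag k (by omega)]
    exact hne

/-- The generic oracle. -/
theorem exists_generic
    (huse : ∀ s T, ¬ Sd s T → ∃ K, ∀ T', (∀ k < K, T' k = T k) → ¬ Sd s T')
    (hev : ∀ s T π, ∃ K, ∀ T', (∀ k < K, T' k = T k) → ev s T' π = ev s T π)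
    (hFn : ∀ s m0 T π, ∃ K, ∀ T', (∀ k < K, T' k = T k) → Fn s m0 T' π = Fn s m0 T π)
    (hard : ∀ (s j m0 m : ℕ) (T0 : ℕ → Bool), m0 ≤ m →
      (∀ T', Agree m T0 T' → (∀ i, m ≤ i → ∀ s' n, Cl T' i (pr s' n + 1) → s' = s) → Sd s T') →
      (∀ T', Agree m T0 T' → (∀ i, m ≤ i → ∀ s' n, Cl T' i (pr s' n + 1) → Good n) →
        ∀ π, ev s T' (ev j T' π) = Fn s m0 T' π) → False) :
    ∃ T, ∀ s, ¬ Sd s T ∨ ∃ m0, (∀ i, m0 ≤ i → ∀ n, Cl T i (pr s n + 1) → Good n) ∧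
      ∀ j, ∃ π, ev s T (ev j T π) ≠ Fn s m0 T π := by
  classical
  let Pr : ℕ ⊕ (ℕ ⊕ (ℕ × ℕ × ℕ)) → Set (Cond Good Sd)
    | Sum.inl n => {c | n ≤ c.m}
    | Sum.inr (Sum.inl s) => {c | Killed s c ∨ s ∈ c.D}
    | Sum.inr (Sum.inr (s, j, m0)) => {c | Killed s c ∨ Dia ev Fn s j m0 c}
  have hcof : ∀ i, IsCofinal (Pr i) := by
    rintro (n | s | ⟨s, j, m0⟩) c
    · obtain ⟨c', h, h', _⟩ := c.exists_len n
      exact ⟨c', h', h⟩
    · obtain ⟨c', h, h'⟩ := c.exists_dec huse s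
      exact ⟨c', h', h⟩
    · obtain ⟨c', h, h'⟩ := c.exists_dia huse hev hFn hard s j m0
      exact ⟨c', h', h⟩
  let c₀ : Cond Good Sd := ⟨0, fun _ => false, ∅, fun s hs => absurd hs (Set.notMem_empty s)⟩
  let 𝒟 : ℕ ⊕ (ℕ ⊕ (ℕ × ℕ × ℕ)) → Order.Cofinal (Cond Good Sd) := fun i => ⟨Pr i, hcof i⟩
  let sq := Order.sequenceOfCofinals c₀ 𝒟
  have hmono : Monotone sq := Order.sequenceOfCofinals.monotone c₀ 𝒟
  have hmem : ∀ i, ∃ N, sq N ∈ Pr i := fun i =>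
    ⟨_, Order.sequenceOfCofinals.encode_mem c₀ 𝒟 i⟩
  have hlen : ∀ n, ∃ N, n ≤ (sq N).m := fun n => hmem (Sum.inl n)
  choose e he using hlen
  let T : ℕ → Bool := fun k => (sq (e k)).T k
  have hag : ∀ N, Agree (sq N).m (sq N).T T := by
    intro N k hk
    have hk' : k < 2 ^ (sq (e k)).m :=
      (Nat.lt_two_pow_self).trans_le (Nat.pow_le_pow_right (by norm_num) (he k))
    rcases le_total N (e k) with h | h
    · exact (hmono h).2.1 k hk
    · exact ((hmono h).2.1 k hk').symm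
  refine ⟨T, fun s => ?_⟩
  obtain ⟨N, hN | hN⟩ := hmem (Sum.inr (Sum.inl s))
  · exact Or.inl (hN T (hag N))
  · by_cases hsd : Sd s T
    · refine Or.inr ⟨(sq N).m, fun i hi n hn => ?_, fun j => ?_⟩
      · have h1 : sq N ≤ sq (max N (e (i + 1))) := hmono (le_max_left _ _)
        have h2 : sq (e (i + 1)) ≤ sq (max N (e (i + 1))) := hmono (le_max_right _ _)
        have h3 : i < (sq (max N (e (i + 1)))).m := (he (i + 1)).trans h2.1
        exact h1.2.2.2 i hi h3 s hN n (((hag _).cl h3).1 hn)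
      · obtain ⟨N', hN' | hN'⟩ := hmem (Sum.inr (Sum.inr (s, j, (sq N).m)))
        · exact absurd hsd (hN' T (hag N'))
        · exact hN' T (hag N')
    · exact Or.inl hsd

end forcing

end Pool.Agent.POpt70
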