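import Pool.Agent.POpt70.Rel

/-!
# `P` versus `NP` relative to oracles with logarithmic information
-/

set_option autoImplicit false

namespace Pool.Agent.POpt70

open Pool.Agent.PT Pool.Agent.TMB67 Pool.Agent.POpt67 N68a2faeb N793a5b8e N487b59b3

theorem exists_length_bound {s : List Bool → ℕ} (hs : PBdd s) :
    ∃ q : Polynomial ℕ, ∀ z, s z ≤ q.eval z.length := by
  obtain ⟨q, hq⟩ := hs
  refine ⟨q.comp (4 * Polynomial.X + 1), fun z => (hq z).trans ?_⟩
  rw [Polynomial.eval_comp]
  refine eval_mono q ?_
  simpa using sz_listBool z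

open Classical in
theorem exists_mem_NP (p : Polynomial ℕ) {α : Type} [Enc α] {D : List Bool → List Bool × α}
    (hD : PolyTime D) {F : (List Bool × List Bool) × α → Bool} (hF : PolyTime F) :
    ∃ B ∈ NP, ∀ z, B z = true ↔ ∃ w : List Bool, w.length ≤ p.eval (D z).1.length ∧
      F (((D z).1, w), (D z).2) = true := by
  obtain ⟨q, hq⟩ := exists_length_bound (s := fun z => p.eval (D z).1.length)
    ((polyEval_length p (PolyTime.fst hD)).pbdd.of_le fun x => by rw [sz_nat]; omega)
  refine ⟨fun z => decide (∃ w : List Bool, w.length ≤ p.eval (D z).1.length ∧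
      F (((D z).1, w), (D z).2) = true), mem_NP_iff.2 ⟨q, fun z => decide (z.2.length ≤
        p.eval (D z.1).1.length) && F (((D z.1).1, z.2), (D z.1).2), ?_, fun z => ?_⟩,
    fun z => by simp⟩
  · have hD1 : PolyTime (fun z : List Bool × List Bool => D z.1) := hD.comp PolyTime.fst'
    exact PolyTime.and (PolyTime.decide_le (by fun_prop) (polyEval_length p (PolyTime.fst hD1)))
      (hF.comp (PolyTime.pair (PolyTime.pair (PolyTime.fst hD1) PolyTime.snd')
        (PolyTime.snd hD1)))
  · rw [decide_eq_true_iff]
    simp only [Bool.and_eq_true, decide_eq_true_iff]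
    constructor
    · rintro ⟨w, hw, hw'⟩
      exact ⟨w, hw.trans (hq z), hw, hw'⟩
    · rintro ⟨w, _, hw, hw'⟩
      exact ⟨w, hw, hw'⟩

theorem NPRel_subset_of {T : ℕ → Bool} (h : NP ⊆ P) : NPRel T ⊆ PRel T := by
  intro L hL
  obtain ⟨p, b, F, hF, hLF⟩ := NPRel_normal hL
  obtain ⟨D, hD, hD'⟩ := Compat.dec (α := List Bool × List Bool)
  obtain ⟨B, hB, hB'⟩ := exists_mem_NP p hD hF
  have hBP := mem_P_iff.1 (h hB)
  refine mem_PRel_iff.2 ⟨b, fun z => B (bitEncode (z.1, z.2)),
    hBP.comp ((Compat.enc (α := List Bool × List Bool)).comp (by fun_prop)), fun x k hk => ?_⟩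
  rw [Bool.eq_iff_iff]
  beta_reduce
  rw [hB', hD']
  exact (hLF x k ((Nat.log_mono_right (eval_mono b (length_le_sz x))).trans hk)).symm

/-! ### The converse: search with short advice -/

/-- Bit `j` of `x`. -/
def tb (x j : ℕ) : Bool := decide (j ≤ Nat.log 2 x) && decide (x / cp x j % 2 = 1)

theorem tb_eq (x j : ℕ) : tb x j = Nat.testBit x j := by
  unfold tb
  by_cases h : j ≤ Nat.log 2 x
  · have h1 : cp x j = 2 ^ j := by rw [cp, min_eq_left h]
    rw [h1, Nat.testBit_eq_decide_div_mod_eq]
    simp [h]
  · have h1 : Nat.testBit x j = false := by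
      refine Nat.testBit_eq_false_of_lt ?_
      exact Nat.lt_pow_of_log_lt (by norm_num) (not_le.1 h)
    rw [h1]
    simp [h]

@[fun_prop]
theorem tb_polyTime {α : Type} [Enc α] {f g : α → ℕ} (hf : PolyTime f) (hg : PolyTime g) :
    PolyTime (fun x => tb (f x) (g x)) := by
  unfold tb
  exact PolyTime.and (PolyTime.decide_le (by fun_prop) (by fun_prop)) (PolyTime.decide_eq
    (PolyTime.natMod (PolyTime.natDiv (by fun_prop) (by fun_prop)) (by fun_prop)) (by fun_prop))

/-- The string of the first `k` bits of `m`. -/
def bitsTo (m k : ℕ) : List Bool := (List.range k).map (tb m)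

@[fun_prop]
theorem bitsTo_polyTime {α : Type} [Enc α] {f g : α → ℕ} (hf : PolyTime f) (hg : PolyTime g) :
    PolyTime (fun x => bitsTo (f x) (g x)) :=
  PolyTime.map (g := fun x i => tb (f x) i) (PolyTime.range hg) (by fun_prop)

/-- Every initial segment is the bit string of a number. -/
theorem exists_bitsTo (T : ℕ → Bool) (k : ℕ) : ∃ m < 2 ^ k, bitsTo m k = pre T k := by
  have key : ∀ k, ∃ m < 2 ^ k, ∀ i < k, Nat.testBit m i = T i := by
    intro k
    induction k with
    | zero => exact ⟨0, by simp, fun i hi => absurd hi (Nat.not_lt_zero _)⟩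
    | succ k ih =>
      obtain ⟨m, hm, hm'⟩ := ih
      cases hT : T k
      · refine ⟨m, hm.trans (Nat.pow_lt_pow_right (by norm_num) (Nat.lt_succ_self k)),
          fun i hi => ?_⟩
        rcases Nat.lt_succ_iff_lt_or_eq.1 hi with hi | rfl
        · exact hm' i hi
        · rw [hT]
          exact Nat.testBit_eq_false_of_lt hm
      · refine ⟨2 ^ k + m, by rw [pow_succ]; omega, fun i hi => ?_⟩
        rcases Nat.lt_succ_iff_lt_or_eq.1 hi with hi | rfl
        · rw [Nat.testBit_two_pow_add_gt hi]
          exact hm' i hi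
        · rw [Nat.testBit_two_pow_add_eq, Nat.testBit_eq_false_of_lt hm, hT]
          rfl
  obtain ⟨m, hm, hm'⟩ := key k
  refine ⟨m, hm, List.map_congr_left fun i hi => ?_⟩
  rw [tb_eq, hm' i (List.mem_range.1 hi)]

/-- One step of the greedy search. -/
def gstep (G : List Bool → Bool) (v : List Bool) : List Bool :=
  if G (v ++ [true]) then v ++ [true] else if G (v ++ [false]) then v ++ [false] else v

theorem gstep_length (G : List Bool → Bool) (v : List Bool) :
    (gstep G v).length ≤ v.length + 1 := by
  unfold gstep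
  split_ifs <;> simp

theorem gstep_iter_length (G : List Bool → Bool) (i : ℕ) :
    ((gstep G)^[i] []).length ≤ i := by
  induction i with
  | zero => simp
  | succ i ih =>
    rw [Function.iterate_succ_apply']
    exact (gstep_length _ _).trans (by omega)

/-- Correctness of the greedy search. -/
theorem gstep_correct {R : List Bool → Prop} {n : ℕ} {G : List Bool → Bool}
    (hG : ∀ v : List Bool, v.length ≤ n + 1 →
      (G v = true ↔ ∃ w : List Bool, w.length ≤ n ∧ v <+: w ∧ R w))
    (h : ∃ w : List Bool, w.length ≤ n ∧ R w) :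
    ((gstep G)^[n + 1] []).length ≤ n ∧ R ((gstep G)^[n + 1] []) := by
  have key : ∀ i, (∃ w : List Bool, w.length ≤ n ∧ (gstep G)^[i] [] <+: w ∧ R w) ∧
      (((gstep G)^[i] []).length = i ∨ (R ((gstep G)^[i] []) ∧
        ¬ G ((gstep G)^[i] [] ++ [true]) = true ∧ ¬ G ((gstep G)^[i] [] ++ [false]) = true)) := by
    intro i
    induction i with
    | zero =>
      obtain ⟨w, hw, hw'⟩ := h
      exact ⟨⟨w, hw, List.nil_prefix, hw'⟩, Or.inl rfl⟩
    | succ i ih =>
      obtain ⟨⟨w, hw, hvw, hR⟩, hor⟩ := ih
      rw [Function.iterate_succ_apply']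
      generalize (gstep G)^[i] [] = v at hvw hor
      have hvn : v.length ≤ n := (hvw.length_le).trans hw
      rcases hor with hor | ⟨hRv, ht, hf⟩
      · by_cases h1 : G (v ++ [true]) = true
        · have hs : gstep G v = v ++ [true] := by simp [gstep, h1]
          rw [hs]
          exact ⟨(hG _ (by simp; omega)).1 h1, Or.inl (by simp [hor])⟩
        · by_cases h2 : G (v ++ [false]) = true
          · have hs : gstep G v = v ++ [false] := by simp [gstep, h1, h2]
            rw [hs]
            exact ⟨(hG _ (by simp; omega)).1 h2, Or.inl (by simp [hor])⟩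
          · have hs : gstep G v = v := by simp [gstep, h1, h2]
            rw [hs]
            refine ⟨⟨w, hw, hvw, hR⟩, Or.inr ⟨?_, h1, h2⟩⟩
            obtain ⟨t, rfl⟩ := hvw
            cases t with
            | nil => simpa using hR
            | cons b t =>
              exfalso
              have h3 : G (v ++ [b]) = true := by
                refine (hG _ (by simp; omega)).2 ⟨v ++ b :: t, hw, ?_, hR⟩
                exact ⟨t, by simp⟩
              cases b
              · exact h2 h3
              · exact h1 h3
      · have hs : gstep G v = v := by simp [gstep, ht, hf]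
        rw [hs]
        exact ⟨⟨w, hw, hvw, hR⟩, Or.inr ⟨hRv, ht, hf⟩⟩
  obtain ⟨⟨w, hw, hvw, hR⟩, hor⟩ := key (n + 1)
  have hvn : ((gstep G)^[n + 1] []).length ≤ n := (hvw.length_le).trans hw
  rcases hor with hor | ⟨hRv, _, _⟩
  · omega
  · exact ⟨hvn, hRv⟩

theorem gstep_polyTime {α : Type} [Enc α] {G : α → List Bool → Bool}
    (hG : PolyTime (fun p : α × List Bool => G p.1 p.2)) {n : α → ℕ} (hn : PolyTime n) :
    PolyTime (fun x => (gstep (G x))^[n x] []) := by
  have hnb := hn.pbdd
  refine PolyTime.iterate' (f := fun x => gstep (G x)) (g := fun _ => []) ?_ hn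
    (PolyTime.const []) (s := fun x => 4 * sz (n x) + 1) (by fun_prop) fun x i hi => ?_
  · unfold gstep
    refine PolyTime.ite (PolyTime.decide_eq_true (hG.comp
      (f := fun p : α × List Bool => (p.1, p.2 ++ [true])) (by fun_prop))) (by fun_prop)
      (PolyTime.ite (PolyTime.decide_eq_true (hG.comp
        (f := fun p : α × List Bool => (p.1, p.2 ++ [false])) (by fun_prop))) (by fun_prop)
          (by fun_prop))
  · have h1 := gstep_iter_length (G x) i
    have h2 := sz_listBool ((gstep (G x))^[i] [])
    have h3 : n x ≤ sz (n x) := by rw [sz_nat]; omega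
    omega

open Classical in
theorem NP_subset_of {T : ℕ → Bool} (h : NPRel T ⊆ PRel T) : NP ⊆ P := by
  intro L hL
  obtain ⟨p, R, hR, hLR⟩ := mem_NP_iff.1 hL
  obtain ⟨D, hD, hD'⟩ := Compat.dec (α := List Bool × List Bool)
  -- the language of initial segments of witnesses
  obtain ⟨B, hB, hB'⟩ := exists_mem_NP p hD
    (F := fun z : (List Bool × List Bool) × List Bool =>
      decide (z.1.2.take z.2.length = z.2) && decide (z.2.length ≤ z.1.2.length) && R z.1)
    (PolyTime.and (PolyTime.and (PolyTime.decide_eq (PolyTime.take (by fun_prop) (by fun_prop))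
      (by fun_prop)) (PolyTime.decide_le (by fun_prop) (by fun_prop)))
      (hR.comp (by fun_prop)))
  have hBspec : ∀ x v : List Bool, B (bitEncode (x, v)) = true ↔
      ∃ w : List Bool, w.length ≤ p.eval x.length ∧ v <+: w ∧ R (x, w) = true := by
    intro x v
    rw [hB', hD']
    simp only [Bool.and_eq_true, decide_eq_true_iff]
    refine exists_congr fun w => and_congr_right fun _ => ?_
    rw [and_congr_left_iff]
    intro _
    constructor
    · rintro ⟨h1, _⟩
      exact ⟨w.drop v.length, by conv_lhs => rw [← h1]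
                                 rw [List.length_take, min_eq_left (by assumption),
                                   List.take_append_drop]⟩
    · rintro ⟨t, rfl⟩
      simp
  obtain ⟨b, F, hF, hBF⟩ := mem_PRel_iff.1 (h (NP_subset_NPRel hB))
  -- bound on the advice
  have hbd : PolyTime (fun x : List Bool => b.eval (4 * (6 * x.length + 1 +
      3 * (p.eval x.length + 1)) + 1)) :=
    polyEval_polyTime (PolyTime.natAdd (PolyTime.natMul (by fun_prop) (PolyTime.natAdd
      (by fun_prop) (PolyTime.natMul (by fun_prop) (PolyTime.succ (polyEval_length p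
        PolyTime.id))))) (by fun_prop)) b
  set Y : List Bool → ℕ := fun x => b.eval (4 * (6 * x.length + 1 +
      3 * (p.eval x.length + 1)) + 1) with hY
  set res : List Bool × ℕ → List Bool := fun z =>
    (gstep fun v => F (bitEncode (z.1, v), bitsTo z.2 (Nat.log 2 (Y z.1))))^[p.eval z.1.length + 1]
      [] with hres
  have hresP : PolyTime res := by
    have h1 : PolyTime (fun z : List Bool × ℕ => p.eval z.1.length + 1) :=
      PolyTime.succ (polyEval_length p PolyTime.fst')
    have h2 : PolyTime (fun z : List Bool × ℕ => Y z.1) := hbd.comp PolyTime.fst'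
    refine gstep_polyTime (G := fun (z : List Bool × ℕ) v =>
      F (bitEncode (z.1, v), bitsTo z.2 (Nat.log 2 (Y z.1)))) (hF.comp (PolyTime.pair
        ((Compat.enc (α := List Bool × List Bool)).comp (by fun_prop)) ?_)) h1
    exact bitsTo_polyTime (by fun_prop) (natLog_polyTime (h2.comp PolyTime.fst'))
  have hP : PolyTime (fun x => (List.range (Y x + 1)).any fun m =>
      decide ((res (x, m)).length ≤ p.eval x.length) && R (x, res (x, m))) := by
    refine PolyTime.any (g := fun x m => decide ((res (x, m)).length ≤ p.eval x.length) &&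
      R (x, res (x, m))) (PolyTime.range (PolyTime.succ hbd)) (PolyTime.and
        (PolyTime.decide_le (PolyTime.length hresP) (polyEval_length p PolyTime.fst'))
        (hR.comp (PolyTime.pair PolyTime.fst' hresP)))
  refine mem_P_iff.2 (hP.congr fun x => ?_)
  rw [Bool.eq_iff_iff, List.any_eq_true]
  simp only [List.mem_range, Bool.and_eq_true, decide_eq_true_iff]
  constructor
  · intro hx
    obtain ⟨m, hm, hm'⟩ := exists_bitsTo T (Nat.log 2 (Y x))
    have hm2 : m < Y x + 1 := by
      rcases Nat.eq_zero_or_pos (Y x) with h0 | h0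
      · rw [h0] at hm
        simp at hm
        omega
      · have := Nat.pow_log_le_self 2 (x := Y x) (by omega)
        omega
    have hcor := gstep_correct (R := fun w => R (x, w) = true) (n := p.eval x.length)
      (G := fun v => F (bitEncode (x, v), bitsTo m (Nat.log 2 (Y x)))) (fun v hv => ?_)
      ((hLR x).1 hx)
    · exact ⟨m, hm2, hcor⟩
    · beta_reduce
      rw [hm', hBF _ _ ?_, hBspec]
      refine Nat.log_mono_right (eval_mono b ?_)
      have h1 := sz_listBool (bitEncode (x, v))
      rw [bitEncode_pair_length] at h1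
      omega
  · rintro ⟨m, _, hm⟩
    exact (hLR x).2 ⟨_, hm⟩

/-- Oracles with logarithmic information do not change the question whether `P = NP`. -/
theorem NPRel_subset_PRel_iff (T : ℕ → Bool) : NPRel T ⊆ PRel T ↔ NP ⊆ P :=
  ⟨NP_subset_of, NPRel_subset_of⟩

end Pool.Agent.POpt70
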