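import Pool.Agent.POpt70.Tools
import Pool.Agent.POpt70.Defs

/-!
# A sparse set whose easiness gives a p-optimal proof system
-/

set_option autoImplicit false

namespace Pool.Agent.POpt70

open Pool.Agent.PT Pool.Agent.TMB67 Pool.Agent.POpt67 N68a2faeb N793a5b8e N487b59b3

theorem word_length (n : ℕ) : (word n).length = 2 ^ 2 ^ n := List.length_replicate

theorem ll_word (n : ℕ) : ll (word n).length = n := by rw [word_length, ll_pow]

theorem word_eq_cp2 {l j : ℕ} (h : 2 ^ 2 ^ j ≤ l) :
    List.replicate (cp2 l j) true = word j := by rw [cp2_eq h]; rfl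

/-- Soundness of the program with number `m` on all inputs admitted by the clock `l`. -/
def SoundAt (L : DecisionProblem) (m l : ℕ) : Prop :=
  ∀ u : List Bool, guard (unpr m).2 u l → L (val (unpr m).1 (unpr m).2 u) = true

theorem SoundAt.mono {L : DecisionProblem} {m l l' : ℕ} (h : SoundAt L m l') (hl : l ≤ l') :
    SoundAt L m l := fun u hu => h u (guard_mono hu hl)

/-- The first set: the position is active and the program was sound at all earlier active
positions. -/
def SetA (L : DecisionProblem) (β : ℕ → ℕ) (x : List Bool) : Prop :=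
  x = word (ll x.length) ∧ nu (ll x.length) < β (ll x.length) ∧
    ∀ j < ll x.length, nu j = nu (ll x.length) → nu j < β j →
      SoundAt L (nu (ll x.length)) (2 ^ 2 ^ j)

/-- The second set: the program is sound at this position. -/
def SetB (L : DecisionProblem) (x : List Bool) : Prop := SoundAt L (nu (ll x.length)) x.length

open Classical in
/-- The sparse set of first failures. -/
noncomputable def setF (L : DecisionProblem) (β : ℕ → ℕ) (x : List Bool) : Bool :=
  decide (SetA L β x) && !decide (SetB L x)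

theorem setF_word {L : DecisionProblem} {β : ℕ → ℕ} {j : ℕ} : setF L β (word j) = true ↔
    nu j < β j ∧ (∀ i < j, nu i = nu j → nu i < β i → SoundAt L (nu j) (2 ^ 2 ^ i)) ∧
      ¬ SoundAt L (nu j) (2 ^ 2 ^ j) := by
  have h : setF L β (word j) = true ↔ SetA L β (word j) ∧ ¬ SetB L (word j) := by
    simp only [setF, Bool.and_eq_true, decide_eq_true_iff, Bool.not_eq_true',
      decide_eq_false_iff_not]
  rw [h]
  unfold SetA SetB
  rw [ll_word, word_length]
  constructor
  · rintro ⟨⟨_, h1, h2⟩, h3⟩
    exact ⟨h1, h2, h3⟩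
  · rintro ⟨h1, h2, h3⟩
    exact ⟨⟨rfl, h1, h2⟩, h3⟩

theorem isSparse_setF (L : DecisionProblem) {β : ℕ → ℕ} (hβ : Monotone β) :
    IsSparse β (setF L β) := by
  classical
  constructor
  · intro x hx
    simp only [setF, Bool.and_eq_true, decide_eq_true_iff] at hx
    exact ⟨_, hx.1.1⟩
  · intro n
    have h1 : Set.MapsTo nu ↑((Finset.range n).filter fun i => setF L β (word i) = true)
        (↑(Finset.range (β n)) : Set ℕ) := by
      intro i hi
      simp only [Finset.coe_filter, Finset.mem_range, Set.mem_ofPred_eq] at hi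
      simp only [Finset.coe_range, Set.mem_Iio]
      exact (setF_word.1 hi.2).1.trans_le (hβ hi.1.le)
    have h2 : Set.InjOn nu ↑((Finset.range n).filter fun i => setF L β (word i) = true) := by
      have key : ∀ i j, setF L β (word i) = true → setF L β (word j) = true → nu i = nu j →
          ¬ i < j := by
        intro i j hi hj h hij
        obtain ⟨h1, _, h3⟩ := setF_word.1 hi
        obtain ⟨_, h5, _⟩ := setF_word.1 hj
        rw [h] at h3
        exact h3 (h5 i hij h h1)
      intro i hi j hj h
      simp only [Finset.coe_filter, Finset.mem_range, Set.mem_ofPred_eq] at hi hj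
      rcases lt_trichotomy i j with hlt | heq | hgt
      · exact absurd hlt (key i j hi.2 hj.2 h)
      · exact heq
      · exact absurd hgt (key j i hj.2 hi.2 h.symm)
    simpa using Finset.card_le_card_of_injOn nu h1 h2

section upper

variable {L : DecisionProblem} {β : ℕ → ℕ} {p : Polynomial ℕ} {R : List Bool × List Bool → Bool}

theorem setB_mem (hR : PolyTime R)
    (hL : ∀ x, L x ↔ ∃ w : List Bool, w.length ≤ p.eval x.length ∧ R (x, w)) :
    ∃ B ∈ PiTwo, ∀ x, B x = true ↔ SetB L x := by
  classical
  refine ⟨fun x => decide (SetB L x), ⟨p.comp (5 * Polynomial.X + 1) + Polynomial.X,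
    fun z => !(decide (guard (unpr (nu (ll z.1.length))).2 z.2.1 z.1.length)) ||
      (decide (z.2.2.length ≤ p.eval (gval (unpr (nu (ll z.1.length))).1
        (unpr (nu (ll z.1.length))).2 z.2.1 z.1.length).length) &&
      R (gval (unpr (nu (ll z.1.length))).1 (unpr (nu (ll z.1.length))).2 z.2.1 z.1.length,
        z.2.2)), isPolyTime_iff.2 ?_, fun x => ?_⟩, fun x => by simp⟩
  · have h1 : PolyTime (fun z : List Bool × (List Bool × List Bool) =>
        unpr (nu (ll z.1.length))) := unpr_polyTime.comp (by fun_prop)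
    have h2 := gval_polyTime (PolyTime.fst h1) (PolyTime.snd h1)
      (u := fun z : List Bool × (List Bool × List Bool) => z.2.1) (l := fun z => z.1.length)
      (by fun_prop) (by fun_prop)
    refine PolyTime.or (PolyTime.not (guard_polyTime (PolyTime.snd h1) (by fun_prop)
      (by fun_prop))) (PolyTime.and (PolyTime.decide_le (by fun_prop) (polyEval_length p h2))
        (hR.comp (PolyTime.pair h2 (by fun_prop))))
  · rw [decide_eq_true_iff]
    simp only [Polynomial.eval_add, Polynomial.eval_comp, Polynomial.eval_mul, Polynomial.eval_X,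
      Polynomial.eval_ofNat, Polynomial.eval_one, Bool.or_eq_true, Bool.not_eq_true',
      decide_eq_false_iff_not, Bool.and_eq_true, decide_eq_true_iff]
    constructor
    · intro hx u _
      by_cases hg : guard (unpr (nu (ll x.length))).2 u x.length
      · obtain ⟨w, hw, hw'⟩ := (hL _).1 (hx u hg)
        refine ⟨w, ?_, Or.inr ?_⟩
        · refine (hw.trans (eval_mono p (val_length hg))).trans (Nat.le_add_right _ _)
        · rw [gval_eq hg]
          exact ⟨hw, hw'⟩
      · exact ⟨[], Nat.zero_le _, Or.inl hg⟩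
    · intro hall u hg
      have hu : u.length ≤ p.eval (5 * x.length + 1) + x.length :=
        (guard_length hg).trans (Nat.le_add_left _ _)
      obtain ⟨w, _, hw⟩ := hall u hu
      rw [gval_eq hg] at hw
      rcases hw with hw | hw
      · exact absurd hg hw
      · exact (hL _).2 ⟨w, hw⟩

theorem setA_mem (hR : PolyTime R)
    (hL : ∀ x, L x ↔ ∃ w : List Bool, w.length ≤ p.eval x.length ∧ R (x, w))
    (hβ : PolyTime β) : ∃ A ∈ PiTwo, ∀ x, A x = true ↔ SetA L β x := by
  classical
  refine ⟨fun x => decide (SetA L β x), ⟨p.comp (5 * Polynomial.X + 1) + Polynomial.X,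
    fun z => decide (z.1 = List.replicate (cp2 z.1.length (ll z.1.length)) true) &&
      decide (2 ≤ z.1.length) && decide (nu (ll z.1.length) < β (ll z.1.length)) &&
      (!((List.range (ll z.1.length)).any fun j => decide (nu j = nu (ll z.1.length)) &&
        decide (nu j < β j) &&
        decide (guard (unpr (nu (ll z.1.length))).2 z.2.1 (cp2 z.1.length j))) ||
      (decide (z.2.2.length ≤ p.eval (gval (unpr (nu (ll z.1.length))).1
        (unpr (nu (ll z.1.length))).2 z.2.1 z.1.length).length) &&
      R (gval (unpr (nu (ll z.1.length))).1 (unpr (nu (ll z.1.length))).2 z.2.1 z.1.length,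
        z.2.2))), isPolyTime_iff.2 ?_, fun x => ?_⟩, fun x => by simp⟩
  · have h1 : PolyTime (fun z : List Bool × (List Bool × List Bool) =>
        unpr (nu (ll z.1.length))) := unpr_polyTime.comp (by fun_prop)
    have h2 := gval_polyTime (PolyTime.fst h1) (PolyTime.snd h1)
      (u := fun z : List Bool × (List Bool × List Bool) => z.2.1) (l := fun z => z.1.length)
      (by fun_prop) (by fun_prop)
    refine PolyTime.and (PolyTime.and (PolyTime.and (PolyTime.decide_eq (by fun_prop)
      (PolyTime.replicate (by fun_prop) (by fun_prop))) (PolyTime.decide_le (by fun_prop)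
      (by fun_prop))) (PolyTime.decide_lt (by fun_prop) (hβ.comp (by fun_prop))))
      (PolyTime.or (PolyTime.not (PolyTime.any (PolyTime.range (by fun_prop)) ?_))
      (PolyTime.and (PolyTime.decide_le (by fun_prop) (polyEval_length p h2))
        (hR.comp (PolyTime.pair h2 (by fun_prop)))))
    refine PolyTime.and (PolyTime.and (PolyTime.decide_eq (by fun_prop) (by fun_prop))
      (PolyTime.decide_lt (by fun_prop) (hβ.comp (by fun_prop)))) (guard_polyTime ?_ (by fun_prop)
        (by fun_prop))
    exact PolyTime.snd (h1.comp (PolyTime.fst'))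
  · rw [decide_eq_true_iff]
    simp only [Polynomial.eval_add, Polynomial.eval_comp, Polynomial.eval_mul, Polynomial.eval_X,
      Polynomial.eval_ofNat, Polynomial.eval_one, Bool.or_eq_true, Bool.not_eq_true',
      Bool.and_eq_true, decide_eq_true_iff]
    have hbool : ∀ u : List Bool, ((List.range (ll x.length)).any fun j =>
        decide (nu j = nu (ll x.length)) && decide (nu j < β j) &&
        decide (guard (unpr (nu (ll x.length))).2 u (cp2 x.length j))) = false ↔
        ¬ ∃ j < ll x.length, nu j = nu (ll x.length) ∧ nu j < β j ∧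
          guard (unpr (nu (ll x.length))).2 u (cp2 x.length j) := by
      intro u
      rw [← Bool.not_eq_true, List.any_eq_true]
      simp only [List.mem_range, Bool.and_eq_true, decide_eq_true_iff, and_assoc]
    simp only [hbool]
    constructor
    · rintro ⟨hx, hact, hs⟩ u _
      have hxl : x.length = 2 ^ 2 ^ ll x.length := by
        conv_lhs => rw [hx]
        exact word_length _
      have hxr : x = List.replicate (cp2 x.length (ll x.length)) true := by
        rw [word_eq_cp2 hxl.ge]
        exact hx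
      have hx2 : 2 ≤ x.length := by
        rw [hxl]
        calc 2 = 2 ^ 2 ^ 0 := by norm_num
          _ ≤ 2 ^ 2 ^ ll x.length :=
            Nat.pow_le_pow_right (by norm_num) (Nat.pow_le_pow_right (by norm_num) (Nat.zero_le _))
      by_cases hg : ∃ j < ll x.length, nu j = nu (ll x.length) ∧ nu j < β j ∧
          guard (unpr (nu (ll x.length))).2 u (cp2 x.length j)
      · obtain ⟨j, hj, hj1, hj2, hj3⟩ := hg
        have hjl : 2 ^ 2 ^ j ≤ x.length := by
          rw [hxl]
          exact Nat.pow_le_pow_right (by norm_num) (Nat.pow_le_pow_right (by norm_num) hj.le)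
        rw [cp2_eq hjl] at hj3
        obtain ⟨w, hw, hw'⟩ := (hL _).1 (hs j hj hj1 hj2 u hj3)
        have hg' := guard_mono hj3 hjl
        refine ⟨w, ?_, ⟨⟨hxr, hx2⟩, hact⟩, Or.inr ?_⟩
        · refine (hw.trans (eval_mono p (val_length hg'))).trans (Nat.le_add_right _ _)
        · rw [gval_eq hg']
          exact ⟨hw, hw'⟩
      · exact ⟨[], Nat.zero_le _, ⟨⟨hxr, hx2⟩, hact⟩, Or.inl hg⟩
    · intro hall
      obtain ⟨_, _, ⟨⟨hxr, hx2⟩, hact⟩, _⟩ := hall [] (Nat.zero_le _)
      have hxl : 2 ^ 2 ^ ll x.length ≤ x.length := by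
        have h00 : Nat.log 2 x.length ≠ 0 := by
          have := Nat.log_pos (b := 2) (by norm_num) hx2
          omega
        calc 2 ^ 2 ^ ll x.length ≤ 2 ^ Nat.log 2 x.length :=
              Nat.pow_le_pow_right (by norm_num) (Nat.pow_log_le_self 2 h00)
          _ ≤ x.length := Nat.pow_log_le_self 2 (by omega)
      refine ⟨?_, hact, fun j hj hj1 hj2 u hg => ?_⟩
      · rw [word_eq_cp2 hxl] at hxr
        exact hxr
      · have hjl : 2 ^ 2 ^ j ≤ x.length := by
          refine le_trans ?_ hxl
          exact Nat.pow_le_pow_right (by norm_num) (Nat.pow_le_pow_right (by norm_num) hj.le)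
        have hg' := guard_mono hg hjl
        have hu : u.length ≤ p.eval (5 * x.length + 1) + x.length :=
          (guard_length hg').trans (Nat.le_add_left _ _)
        obtain ⟨w, _, _, hw⟩ := hall u hu
        rcases hw with hw | hw
        · exact absurd ⟨j, hj, hj1, hj2, by rw [cp2_eq hjl]; exact hg⟩ hw
        · rw [gval_eq hg'] at hw
          exact (hL _).2 ⟨w, hw⟩

end upper

/-! ### The optimal system -/

section system

variable {L : DecisionProblem} {β : ℕ → ℕ}

/-- Absence of failures up to position `J` implies soundness. -/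
theorem soundAt_of_noFail {J : ℕ}
    (h : ∀ j ≤ J, nu j = nu J → nu j < β j → setF L β (word j) = false) :
    ∀ j ≤ J, nu j = nu J → nu j < β j → SoundAt L (nu J) (2 ^ 2 ^ j) := by
  intro j
  induction j using Nat.strong_induction_on with
  | _ j ih =>
    intro hj hnu hact
    by_contra hc
    have h1 := h j hj hnu hact
    rw [← Bool.not_eq_true, setF_word] at h1
    refine h1 ⟨hact, fun i hi h2 h3 => ?_, ?_⟩
    · have := ih i hi (hi.le.trans hj) (h2.trans hnu) h3
      rwa [hnu]
    · rwa [hnu]

/-- The trust condition of the system. -/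
def Trust (b : List Bool) (β : ℕ → ℕ) (z : List Bool × List Bool) : Prop :=
  z.1 = List.replicate (cp2 z.1.length (ll z.1.length)) true ∧ 2 ≤ z.1.length ∧
    nu (ll z.1.length) < β (ll z.1.length) ∧
    guard (unpr (nu (ll z.1.length))).2 z.2 z.1.length ∧
    ∀ j ∈ List.range (ll z.1.length + 1), nu j = nu (ll z.1.length) → nu j < β j →
      b.getD j false = false

instance (b : List Bool) (β : ℕ → ℕ) (z : List Bool × List Bool) :
    Decidable (Trust b β z) := by
  unfold Trust; infer_instance

theorem trust_polyTime (hβ : PolyTime β) :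
    PolyTime (fun y : List Bool × (List Bool × List Bool) => decide (Trust y.1 β y.2)) := by
  unfold Trust
  have h1 : PolyTime (fun z : List Bool × (List Bool × List Bool) =>
      unpr (nu (ll z.2.1.length))) := unpr_polyTime.comp (by fun_prop)
  refine PolyTime.decide_and (PolyTime.decide_eq (by fun_prop)
    (PolyTime.replicate (by fun_prop) (by fun_prop))) (PolyTime.decide_and
    (PolyTime.decide_le (by fun_prop) (by fun_prop)) (PolyTime.decide_and
    (PolyTime.decide_lt (by fun_prop) (hβ.comp (by fun_prop))) (PolyTime.decide_and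
    (guard_polyTime (PolyTime.snd h1) (by fun_prop) (by fun_prop)) ?_)))
  refine PolyTime.decide_forall_mem (l := fun z : List Bool × (List Bool × List Bool) =>
    List.range (ll z.2.1.length + 1)) (P := fun z j => nu j = nu (ll z.2.1.length) → nu j < β j →
      z.1.getD j false = false) (PolyTime.range (by fun_prop)) ?_
  refine ((PolyTime.or (PolyTime.not (PolyTime.decide_eq
    (f := fun q : (List Bool × (List Bool × List Bool)) × ℕ => nu q.2)
    (g := fun q => nu (ll q.1.2.1.length)) (by fun_prop) (by fun_prop)))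
    (PolyTime.or (PolyTime.not (PolyTime.decide_lt
    (f := fun q : (List Bool × (List Bool × List Bool)) × ℕ => nu q.2) (g := fun q => β q.2)
    (by fun_prop) (hβ.comp (by fun_prop)))) (PolyTime.not (PolyTime.getD
      (l := fun q : (List Bool × (List Bool × List Bool)) × ℕ => q.1.1) (n := fun q => q.2)
      (f := fun _ => false) (by fun_prop) (by fun_prop) (by fun_prop))))).congr
    fun q => ?_)
  rw [Bool.eq_iff_iff]
  simp only [decide_eq_true_iff, Bool.or_eq_true, Bool.not_eq_true', decide_eq_false_iff_not]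
  tauto

theorem trust_word {b : List Bool} {z : List Bool × List Bool} (h : Trust b β z) :
    z.1 = word (ll z.1.length) := by
  obtain ⟨hxr, hx2, _⟩ := h
  have hxl : 2 ^ 2 ^ ll z.1.length ≤ z.1.length := by
    have h00 : Nat.log 2 z.1.length ≠ 0 := by
      have := Nat.log_pos (b := 2) (by norm_num) hx2
      omega
    calc 2 ^ 2 ^ ll z.1.length ≤ 2 ^ Nat.log 2 z.1.length :=
          Nat.pow_le_pow_right (by norm_num) (Nat.pow_log_le_self 2 h00)
      _ ≤ z.1.length := Nat.pow_log_le_self 2 (by omega)
  rw [word_eq_cp2 hxl] at hxr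
  exact hxr

theorem ll_mono {m n : ℕ} (h : m ≤ n) : ll m ≤ ll n :=
  Nat.log_mono_right (Nat.log_mono_right h)

theorem advice_getD {F : DecisionProblem} {j n : ℕ} (h : j ≤ ll n) :
    (advice F n).getD j false = F (word j) := by
  unfold advice
  rw [List.getD_eq_getElem _ _ (by
    rw [List.length_map, List.length_range]; exact Nat.lt_succ_of_le h)]
  simp

theorem trust_sound {n : ℕ} {z : List Bool × List Bool} (hn : z.1.length ≤ n)
    (h : Trust (advice (setF L β) n) β z) :
    L (val (unpr (nu (ll z.1.length))).1 (unpr (nu (ll z.1.length))).2 z.2) = true := by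
  have hw := trust_word h
  obtain ⟨_, _, hact, hg, hall⟩ := h
  set J := ll z.1.length with hJ
  have hxl : z.1.length = 2 ^ 2 ^ J := by rw [hw]; exact word_length _
  refine soundAt_of_noFail (J := J) (fun j hj h1 h2 => ?_) J le_rfl rfl hact z.2 ?_
  · have h3 := hall j (List.mem_range.2 (Nat.lt_succ_of_le hj)) h1 h2
    rwa [advice_getD (hj.trans (ll_mono hn))] at h3
  · rw [← hxl]
    exact hg

/-- The position used for the simulation of program `m` on inputs of length `n`. -/
def pos (m a j₀ n : ℕ) : ℕ :=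
  2 ^ (m + 1) * ((Nat.size ((a + 1) * (Nat.size n + 1)) + j₀) / 2 ^ (m + 1) + 1) + 2 ^ m - 1

theorem nu_pos (m a j₀ n : ℕ) : nu (pos m a j₀ n) = m := by
  have h2 : 0 < 2 ^ m := by positivity
  refine nu_eq (r := (Nat.size ((a + 1) * (Nat.size n + 1)) + j₀) / 2 ^ (m + 1) + 1) ?_
  unfold pos
  rw [Nat.sub_add_cancel (by omega), pow_succ]
  ring

theorem lt_pos (m a j₀ n : ℕ) : Nat.size ((a + 1) * (Nat.size n + 1)) + j₀ < pos m a j₀ n + 1 := by
  unfold pos
  have h2 : 0 < 2 ^ m := by positivity
  generalize Nat.size ((a + 1) * (Nat.size n + 1)) + j₀ = X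
  have h3 : X < 2 ^ (m + 1) * (X / 2 ^ (m + 1) + 1) := Nat.lt_mul_div_succ _ (by positivity)
  generalize 2 ^ (m + 1) * (X / 2 ^ (m + 1) + 1) = K at h3 ⊢
  omega

theorem pos_le (m a j₀ n : ℕ) : pos m a j₀ n ≤
    Nat.size ((a + 1) * (Nat.size n + 1)) + j₀ + 2 ^ (m + 1) + 2 ^ m := by
  unfold pos
  have h3 := Nat.mul_div_le (Nat.size ((a + 1) * (Nat.size n + 1)) + j₀) (2 ^ (m + 1))
  rw [mul_add, mul_one]
  generalize 2 ^ (m + 1) * ((Nat.size ((a + 1) * (Nat.size n + 1)) + j₀) / 2 ^ (m + 1)) = K at h3 ⊢
  generalize 2 ^ (m + 1) = M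
  generalize 2 ^ m = M'
  omega

theorem two_pow_size_le (n : ℕ) : 2 ^ Nat.size n ≤ 2 * n + 1 := by
  rcases Nat.eq_zero_or_pos n with rfl | hn
  · simp
  · have h2 : 0 < Nat.size n := Nat.size_pos.2 hn
    have h3 : 2 ^ (Nat.size n - 1) ≤ n := by
      by_contra hc
      have : Nat.size n ≤ Nat.size n - 1 := Nat.size_le.2 (by omega)
      omega
    have h4 : 2 ^ Nat.size n = 2 * 2 ^ (Nat.size n - 1) := by
      rw [← pow_succ', Nat.sub_add_cancel h2]
    omega

theorem pos_bound (m a j₀ n : ℕ) : 2 ^ 2 ^ pos m a j₀ n ≤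
    (4 * n + 2) ^ (2 ^ (j₀ + 2 ^ (m + 1) + 2 ^ m) * (3 * (a + 1))) := by
  have h1 : 2 ^ pos m a j₀ n ≤ 2 ^ (j₀ + 2 ^ (m + 1) + 2 ^ m) * (3 * (a + 1)) *
      (Nat.size n + 1) := by
    calc 2 ^ pos m a j₀ n ≤ 2 ^ (Nat.size ((a + 1) * (Nat.size n + 1)) + j₀ + 2 ^ (m + 1) +
          2 ^ m) := Nat.pow_le_pow_right (by norm_num) (pos_le m a j₀ n)
      _ = 2 ^ (j₀ + 2 ^ (m + 1) + 2 ^ m) * 2 ^ Nat.size ((a + 1) * (Nat.size n + 1)) := by
          rw [← pow_add]; congr 1; omega
      _ ≤ 2 ^ (j₀ + 2 ^ (m + 1) + 2 ^ m) * (2 * ((a + 1) * (Nat.size n + 1)) + 1) :=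
          Nat.mul_le_mul_left _ (two_pow_size_le _)
      _ ≤ 2 ^ (j₀ + 2 ^ (m + 1) + 2 ^ m) * (3 * (a + 1) * (Nat.size n + 1)) := by
          refine Nat.mul_le_mul_left _ ?_
          have : 1 ≤ (a + 1) * (Nat.size n + 1) := Nat.mul_pos (by omega) (by omega)
          nlinarith
      _ = _ := by ring
  calc 2 ^ 2 ^ pos m a j₀ n ≤ 2 ^ (2 ^ (j₀ + 2 ^ (m + 1) + 2 ^ m) * (3 * (a + 1)) *
        (Nat.size n + 1)) := Nat.pow_le_pow_right (by norm_num) h1
    _ = (2 ^ (Nat.size n + 1)) ^ (2 ^ (j₀ + 2 ^ (m + 1) + 2 ^ m) * (3 * (a + 1))) := by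
        rw [← pow_mul]; congr 1; ring
    _ ≤ _ := by
        refine Nat.pow_le_pow_left ?_ _
        have := two_pow_size_le n
        rw [pow_succ]
        omega

theorem advice_polyTime {F : DecisionProblem} (hF : PolyTime F) : PolyTime (advice F) := by
  have h : PolyTime (fun n : ℕ => (List.range (ll n + 1)).map fun i =>
      F (List.replicate (cp2 (n + 2) i) true)) :=
    PolyTime.map (g := fun n i => F (List.replicate (cp2 (n + 2) i) true))
      (PolyTime.range (by fun_prop)) (hF.comp (PolyTime.replicate (by fun_prop) (by fun_prop)))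
  refine h.congr fun n => List.map_congr_left fun i hi => ?_
  have hi' : i ≤ ll n := Nat.le_of_lt_succ (List.mem_range.1 hi)
  rw [word_eq_cp2]
  rcases Nat.eq_zero_or_pos (ll n) with h0 | h0
  · obtain rfl : i = 0 := by omega
    simp
  · have h1 : Nat.log 2 n ≠ 0 := by
      intro hc
      simp [ll, hc] at h0
    have h2 : n ≠ 0 := by
      rintro rfl
      simp at h1
    calc 2 ^ 2 ^ i ≤ 2 ^ 2 ^ ll n :=
          Nat.pow_le_pow_right (by norm_num) (Nat.pow_le_pow_right (by norm_num) hi')
      _ ≤ 2 ^ Nat.log 2 n := Nat.pow_le_pow_right (by norm_num) (Nat.pow_log_le_self 2 h1)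
      _ ≤ n := Nat.pow_log_le_self 2 h2
      _ ≤ n + 2 := Nat.le_add_right _ _

/-- The proof system with advice. -/
noncomputable def sysQ (D : List Bool → List Bool × List Bool) (β : ℕ → ℕ) (y0 : List Bool)
    (p : List Bool × List Bool) : List Bool :=
  if (D p.1).1.length ≤ p.1.length ∧ Trust p.2 β (D p.1) then
    gval (unpr (nu (ll (D p.1).1.length))).1 (unpr (nu (ll (D p.1).1.length))).2 (D p.1).2
      (D p.1).1.length
  else y0

theorem sysQ_polyTime {D : List Bool → List Bool × List Bool} (hD : PolyTime D)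
    (hβ : PolyTime β) (y0 : List Bool) : PolyTime (sysQ D β y0) := by
  have h0 : PolyTime (fun p : List Bool × List Bool => D p.1) := hD.comp PolyTime.fst'
  have hunpr : PolyTime (fun p : List Bool × List Bool => unpr (nu (ll (D p.1).1.length))) :=
    unpr_polyTime.comp (by fun_prop)
  exact PolyTime.ite (PolyTime.decide_and (PolyTime.decide_le (by fun_prop) (by fun_prop))
    ((trust_polyTime hβ).comp (f := fun p : List Bool × List Bool => (p.2, D p.1))
      (by fun_prop))) (gval_polyTime (PolyTime.fst hunpr)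
      (PolyTime.snd hunpr) (PolyTime.snd h0) (by fun_prop)) (PolyTime.const y0)

theorem sysQ_sound (D : List Bool → List Bool × List Bool) {y0 : List Bool} (h0 : L y0 = true)
    (π : List Bool) : L (sysQ D β y0 (π, advice (setF L β) π.length)) = true := by
  unfold sysQ
  beta_reduce
  by_cases hc : (D π).1.length ≤ π.length ∧ Trust (advice (setF L β) π.length) β (D π)
  · rw [if_pos hc, gval_eq hc.2.2.2.2.1]
    exact trust_sound hc.1 hc.2
  · rw [if_neg hc]
    exact h0

theorem sysQ_sim {D : List Bool → List Bool × List Bool} (hD' : ∀ x, D (bitEncode x) = x)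
    (hβm : Monotone β) (hβu : ∀ k, ∃ n, k ≤ β n) (y0 : List Bool) (S : List Bool → List Bool)
    (hS : PolyTime S) (hSL : ∀ u, L (S u) = true) :
    ∃ h : List Bool → List Bool, PolyTime h ∧
      ∀ u, sysQ D β y0 (h u, advice (setF L β) (h u).length) = S u := by
  obtain ⟨q, a, hqa⟩ := exists_val hS
  have hs : ∀ l, SoundAt L (pr q a) l := fun l u _ => by
    rw [unpr_pr]
    simpa [hqa] using hSL u
  obtain ⟨j₀, hj₀⟩ := hβu (pr q a + 1)
  refine ⟨fun u => bitEncode (List.replicate (cp2
    ((4 * u.length + 2) ^ (2 ^ (j₀ + 2 ^ (pr q a + 1) + 2 ^ pr q a) * (3 * (a + 1))))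
    (pos (pr q a) a j₀ u.length)) true, u), ?_, fun u => ?_⟩
  · refine (Compat.enc (α := List Bool × List Bool)).comp (PolyTime.pair
      (PolyTime.replicate (cp2_polyTime (by fun_prop) ?_) (by fun_prop)) (by fun_prop))
    unfold pos
    have h1 : PolyTime (fun u : List Bool =>
        (Nat.size ((a + 1) * (Nat.size u.length + 1)) + j₀) / 2 ^ (pr q a + 1)) :=
      PolyTime.natDiv (by fun_prop) (by fun_prop)
    fun_prop
  · have hb := pos_bound (pr q a) a j₀ u.length
    have hw : List.replicate (cp2
        ((4 * u.length + 2) ^ (2 ^ (j₀ + 2 ^ (pr q a + 1) + 2 ^ pr q a) * (3 * (a + 1))))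
        (pos (pr q a) a j₀ u.length)) true = word (pos (pr q a) a j₀ u.length) :=
      word_eq_cp2 hb
    beta_reduce
    rw [hw]
    have hlen : (word (pos (pr q a) a j₀ u.length)).length ≤
        (bitEncode (word (pos (pr q a) a j₀ u.length), u)).length := by
      rw [bitEncode_pair_length]
      omega
    have hnu := nu_pos (pr q a) a j₀ u.length
    have hg : guard a u (2 ^ 2 ^ pos (pr q a) a j₀ u.length) := by
      unfold guard
      rw [Nat.log_pow (by norm_num)]
      have h1 := Nat.lt_size_self ((a + 1) * (Nat.size u.length + 1))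
      have h2 := lt_pos (pr q a) a j₀ u.length
      refine h1.le.trans (Nat.pow_le_pow_right (by norm_num) (by omega))
    have htr : Trust (advice (setF L β)
        (bitEncode (word (pos (pr q a) a j₀ u.length), u)).length) β
        (word (pos (pr q a) a j₀ u.length), u) := by
      refine ⟨?_, ?_, ?_, ?_, ?_⟩
      · rw [ll_word, word_length, word_eq_cp2 le_rfl]
      · rw [word_length]
        calc 2 = 2 ^ 2 ^ 0 := by norm_num
          _ ≤ _ := Nat.pow_le_pow_right (by norm_num)
            (Nat.pow_le_pow_right (by norm_num) (Nat.zero_le _))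
      · rw [ll_word, hnu]
        have h2 := lt_pos (pr q a) a j₀ u.length
        exact (Nat.lt_of_succ_le hj₀).trans_le (hβm (by omega))
      · rw [ll_word, hnu, unpr_pr, word_length]
        exact hg
      · intro j hj h1 h2
        have hj' := Nat.le_of_lt_succ (List.mem_range.1 hj)
        rw [advice_getD (hj'.trans (ll_mono hlen))]
        rw [ll_word, hnu] at h1
        rw [← Bool.not_eq_true, setF_word]
        rintro ⟨_, _, h3⟩
        rw [h1] at h3
        exact h3 (hs _)
    unfold sysQ
    simp only [hD']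
    rw [if_pos ⟨hlen, htr⟩]
    simp only [word_length, ll_pow, hnu, unpr_pr]
    rw [gval_eq hg, hqa]

/-- The main theorem of this file: optimal systems with sparse advice; if the set of first
failures is easy, there is a p-optimal proof system. -/
theorem main (hL : L ∈ NP) (hne : ∃ y, L y = true) (hβm : Monotone β) (hβu : ∀ k, ∃ n, k ≤ β n)
    (hβP : IsPolyTime fun x : List Bool => List.replicate (β x.length) true) :
    ∃ A ∈ PiTwo, ∃ B ∈ PiTwo, IsSparse β (fun x => A x && !B x) ∧
      (∃ Q : List Bool × List Bool → List Bool, IsPolyTime Q ∧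
        (∀ π, L (Q (π, advice (fun x => A x && !B x) π.length)) = true) ∧
        ∀ S, IsProofSystem L S → ∃ h : List Bool → List Bool, IsPolyTime h ∧
          ∀ π, Q (h π, advice (fun x => A x && !B x) (h π).length) = S π) ∧
      ((fun x => A x && !B x) ∈ P → ∃ Q, IsPOptimalProofSystem L Q) := by
  obtain ⟨y0, h0⟩ := hne
  obtain ⟨p, R, hR, hLR⟩ := mem_NP_iff.1 hL
  have hβ : PolyTime β := by
    have h1 := (isPolyTime_iff.1 hβP).comp
      (PolyTime.replicate (PolyTime.id (α := ℕ)) (PolyTime.const true))
    exact h1.length.congr fun n => by simp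
  obtain ⟨A, hA, hA'⟩ := setA_mem hR hLR hβ
  obtain ⟨B, hB, hB'⟩ := setB_mem hR hLR
  have hF : (fun x => A x && !B x) = setF L β := by
    classical
    funext x
    rw [Bool.eq_iff_iff]
    simp only [setF, Bool.and_eq_true, Bool.not_eq_true', decide_eq_true_iff,
      decide_eq_false_iff_not, hA', ← Bool.not_eq_true, hB']
  obtain ⟨D, hD, hD'⟩ := Compat.dec (α := List Bool × List Bool)
  refine ⟨A, hA, B, hB, ?_, ?_, ?_⟩
  · rw [hF]
    exact isSparse_setF L hβm
  · rw [hF]
    refine ⟨sysQ D β y0, isPolyTime_iff.2 (sysQ_polyTime hD hβ y0), sysQ_sound D h0,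
      fun S hS => ?_⟩
    have hS' := isProofSystem_iff.1 hS
    obtain ⟨h, hh, hh'⟩ := sysQ_sim hD' hβm hβu y0 S hS'.1 fun u => (hS'.2 _).2 ⟨u, rfl⟩
    exact ⟨h, isPolyTime_iff.2 hh, hh'⟩
  · rw [hF]
    intro hFP
    have hFP' := mem_P_iff.1 hFP
    refine ⟨fun π => sysQ D β y0 (π, advice (setF L β) π.length), isProofSystem_iff.2
      ⟨(sysQ_polyTime hD hβ y0).comp (PolyTime.pair PolyTime.id ((advice_polyTime hFP').comp
        (by fun_prop))), fun y => ⟨fun hy => ?_, ?_⟩⟩, fun S hS => ?_⟩
    · obtain ⟨h, _, hh⟩ := sysQ_sim hD' hβm hβu y0 (fun _ => y) (PolyTime.const y) fun _ => hy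
      exact ⟨h [], hh []⟩
    · rintro ⟨π, rfl⟩
      exact sysQ_sound D h0 π
    · have hS' := isProofSystem_iff.1 hS
      obtain ⟨h, hh, hh'⟩ := sysQ_sim hD' hβm hβu y0 S hS'.1 fun u => (hS'.2 _).2 ⟨u, rfl⟩
      exact ⟨h, isPolyTime_iff.2 hh, hh'⟩

end system

end Pool.Agent.POpt70
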