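import Pool.Agent.POpt70.RelP
import Pool.Agent.POpt70.Sparse

/-!
# Very sparse oracles relative to which p-optimal proof systems exist
-/

set_option autoImplicit false

namespace Pool.Agent.POpt70

open Pool.Agent.PT Pool.Agent.TMB67 Pool.Agent.POpt67 N68a2faeb N793a5b8e N487b59b3

/-! ### Oracles defined by recursion -/

/-- The initial segments of the oracle defined by the recursion `g`. -/
def preSeq (g : ℕ → List Bool → Bool) : ℕ → List Bool
  | 0 => []
  | k + 1 => preSeq g k ++ [g k (preSeq g k)]

/-- The oracle defined by the recursion `g`. -/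
def recT (g : ℕ → List Bool → Bool) (k : ℕ) : Bool := g k (preSeq g k)

theorem pre_recT (g : ℕ → List Bool → Bool) (k : ℕ) : pre (recT g) k = preSeq g k := by
  induction k with
  | zero => rfl
  | succ k ih => rw [pre_succ, ih, preSeq, recT]

theorem recT_eq (g : ℕ → List Bool → Bool) (k : ℕ) : recT g k = g k (pre (recT g) k) := by
  rw [pre_recT, recT]

theorem pre_getD (T : ℕ → Bool) {i k : ℕ} (h : i < k) : (pre T k).getD i false = T i := by
  rw [List.getD_eq_getElem _ _ (by rwa [pre_length])]
  simp [pre]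

/-! ### Guards and values -/

/-- The clock `(n + 2)^(a + 1)` is at most `l`, tested with logarithms. -/
def guardn (a n l : ℕ) : Prop := (a + 1) * (Nat.size n + 1) ≤ Nat.log 2 l

instance (a n l : ℕ) : Decidable (guardn a n l) := by unfold guardn; infer_instance

theorem guardn_pow {a n l : ℕ} (h : guardn a n l) : (n + 2) ^ (a + 1) ≤ l := by
  have h1 : guard a (List.replicate n true) l := by
    unfold guard
    rw [List.length_replicate]
    exact h
  have := guard_pow h1
  rwa [List.length_replicate] at this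

theorem guardn_polyTime {α : Type} [Enc α] {a n l : α → ℕ} (ha : PolyTime a) (hn : PolyTime n)
    (hl : PolyTime l) : PolyTime (fun x => decide (guardn (a x) (n x) (l x))) := by
  unfold guardn
  exact PolyTime.decide_le (by fun_prop) (by fun_prop)

/-- The value of program `q` with exponent `a` on the input `u` with oracle segment `s`. -/
noncomputable def valR (q a : ℕ) (u s : List Bool) : List Bool :=
  uni (cmdOf q) ((u.length + s.length + 2) ^ (a + 1)) (bitEncode (u, s))

/-- The same under the guard. -/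
noncomputable def gvalR (q a : ℕ) (u s : List Bool) (l : ℕ) : List Bool :=
  uni (cmdOf q) ((u.length + s.length + 2) ^ (if guardn a (u.length + s.length) l then a + 1
    else 0)) (bitEncode (u, s))

theorem gvalR_eq {q a l : ℕ} {u s : List Bool} (h : guardn a (u.length + s.length) l) :
    gvalR q a u s l = valR q a u s := by
  simp [gvalR, valR, h]

theorem gvalR_polyTime {α : Type} [Enc α] {q a l : α → ℕ} {u s : α → List Bool}
    (hq : PolyTime q) (ha : PolyTime a) (hu : PolyTime u) (hs : PolyTime s) (hl : PolyTime l) :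
    PolyTime (fun x => gvalR (q x) (a x) (u x) (s x) (l x)) := by
  have h0 := hl.pbdd
  have h1 : PolyTime (fun x => (if guardn (a x) ((u x).length + (s x).length) (l x) then a x + 1
      else 0)) :=
    PolyTime.ite (guardn_polyTime ha (by fun_prop) hl) (by fun_prop) (by fun_prop)
  have h2 : PolyTime (fun x => ((u x).length + (s x).length + 2) ^
      (if guardn (a x) ((u x).length + (s x).length) (l x) then a x + 1 else 0)) := by
    refine PolyTime.natPow (s := fun x => sz (l x) + 1) (by fun_prop) h1 (by fun_prop)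
      fun x i hi => ?_
    by_cases hg : guardn (a x) ((u x).length + (s x).length) (l x)
    · rw [if_pos hg] at hi
      have h3 := guardn_pow hg
      have h4 : ((u x).length + (s x).length + 2) ^ i ≤
          ((u x).length + (s x).length + 2) ^ (a x + 1) :=
        Nat.pow_le_pow_right (by omega) hi
      have h5 : l x ≤ sz (l x) := by rw [sz_nat]; omega
      omega
    · rw [if_neg hg] at hi
      obtain rfl : i = 0 := by omega
      simp
  exact uni_polyTime.comp (f := fun x => (cmdOf (q x), ((u x).length + (s x).length + 2) ^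
      (if guardn (a x) ((u x).length + (s x).length) (l x) then a x + 1 else 0),
      bitEncode (u x, s x)))
    (PolyTime.pair (cmdOf_polyTime.comp hq) (PolyTime.pair h2
      ((Compat.enc (α := List Bool × List Bool)).comp (by fun_prop))))

/-- The language with verifier program `r` and exponent `e`, relative to the oracle segment. -/
def LL (r e : ℕ) (s y : List Bool) : Prop :=
  ∃ w : List Bool, w.length ≤ (y.length + 2) ^ (e + 1) ∧
    ∃ t₀, ∀ t, t₀ ≤ t → uni (cmdOf r) t (bitEncode ((y, w), s)) = [true]

theorem exists_LL {T : ℕ → Bool} {L : DecisionProblem} (hL : L ∈ NPRel T) :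
    ∃ r e, ∀ y k, Nat.log 2 ((y.length + 2) ^ (e + 1)) ≤ k →
      (LL r e (pre T k) y ↔ L y = true) := by
  obtain ⟨p, b, F, hF, hLF⟩ := NPRel_normal hL
  obtain ⟨D, hD, hD'⟩ := Compat.dec (α := (List Bool × List Bool) × List Bool)
  have hS : PolyTime (fun z : List Bool => [decide ((D z).1.2.length ≤ p.eval (D z).1.1.length) &&
      F (D z)]) := by
    refine PolyTime.cons (PolyTime.and (PolyTime.decide_le (by fun_prop) (polyEval_length p
      (by fun_prop))) (hF.comp hD)) (PolyTime.const [])
  obtain ⟨c, Q, hc⟩ := uni_spec hS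
  obtain ⟨r, hr⟩ := cmdOf_surjective c
  obtain ⟨e, he⟩ := exists_pow_bound (p + b)
  refine ⟨r, e, fun y k hk => ?_⟩
  have hp : p.eval y.length ≤ (y.length + 2) ^ (e + 1) := by
    have := he y.length
    rw [Polynomial.eval_add] at this
    omega
  have hb : b.eval y.length ≤ (y.length + 2) ^ (e + 1) := by
    have := he y.length
    rw [Polynomial.eval_add] at this
    omega
  rw [hLF y k ((Nat.log_mono_right hb).trans hk)]
  unfold LL
  rw [hr]
  constructor
  · rintro ⟨w, _, t₀, ht⟩
    have h1 := ht (max t₀ (Q.eval (bitEncode ((y, w), pre T k)).length)) (le_max_left _ _)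
    rw [hc _ _ (le_max_right _ _), hD'] at h1
    simp only [List.cons.injEq, and_true, Bool.and_eq_true, decide_eq_true_iff] at h1
    exact ⟨w, h1⟩
  · rintro ⟨w, hw, hw'⟩
    refine ⟨w, hw.trans hp, Q.eval (bitEncode ((y, w), pre T k)).length, fun t ht => ?_⟩
    rw [hc _ _ ht, hD']
    simp [hw, hw']

/-- Soundness of program number `m` with the oracle segment `s`, on all inputs for which the
clocks are at most `2^|s|`. -/
def SoundR (m : ℕ) (s : List Bool) : Prop :=
  ∀ u : List Bool, guardn (un4 m).2.1 (u.length + s.length) (2 ^ s.length) →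
    guardn (un4 m).2.2.2 (valR (un4 m).1 (un4 m).2.1 u s).length (2 ^ s.length) →
      LL (un4 m).2.2.1 (un4 m).2.2.2 s (valR (un4 m).1 (un4 m).2.1 u s)

/-- Program number `m` is activated at position `J`. -/
def Act (β : ℕ → ℕ) (m J : ℕ) : Prop :=
  (nu J = 2 * m ∧ ∀ i, J ≤ i → 2 * (m + 1) ≤ β i) ∧
    ∀ J' < J, ¬ (nu J' = 2 * m ∧ ∀ i, J' ≤ i → 2 * (m + 1) ≤ β i)

open Classical in
/-- The recursion of the sparse oracle: activations at even, failures at odd values of the ruler
function. -/
noncomputable def gS (β : ℕ → ℕ) (k : ℕ) (s : List Bool) : Bool :=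
  decide (k = 2 ^ Nat.log 2 k) &&
    (if nu (Nat.log 2 k) % 2 = 0 then decide (Act β (nu (Nat.log 2 k) / 2) (Nat.log 2 k)) else
      decide ((∃ i < Nat.log 2 k, nu i = 2 * (nu (Nat.log 2 k) / 2) ∧ s.getD (2 ^ i) false = true) ∧
        (∀ i < Nat.log 2 k, nu i = nu (Nat.log 2 k) → s.getD (2 ^ i) false = false) ∧
        ¬ SoundR (nu (Nat.log 2 k) / 2) s))

/-- The sparse oracle. -/
noncomputable def oS (β : ℕ → ℕ) : ℕ → Bool := recT (gS β)

variable {β : ℕ → ℕ}

theorem oS_pow {k : ℕ} (h : oS β k = true) : ∃ i, k = 2 ^ i := by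
  rw [oS, recT_eq, gS, Bool.and_eq_true, decide_eq_true_iff] at h
  exact ⟨_, h.1⟩

theorem oS_even {J m : ℕ} (h : nu J = 2 * m) : oS β (2 ^ J) = true ↔ Act β m J := by
  rw [oS, recT_eq, gS, Nat.log_pow (by norm_num), h]
  simp

theorem oS_odd {J m : ℕ} (h : nu J = 2 * m + 1) : oS β (2 ^ J) = true ↔
    (∃ i < J, nu i = 2 * m ∧ oS β (2 ^ i) = true) ∧
      (∀ i < J, nu i = 2 * m + 1 → oS β (2 ^ i) = false) ∧ ¬ SoundR m (pre (oS β) (2 ^ J)) := by
  have h1 : (2 * m + 1) % 2 ≠ 0 := by omega
  have h2 : (2 * m + 1) / 2 = m := by omega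
  rw [oS, recT_eq, gS, Nat.log_pow (by norm_num), h, if_neg h1, h2]
  simp only [decide_true, Bool.true_and, decide_eq_true_iff]
  have h3 : ∀ i < J, (pre (recT (gS β)) (2 ^ J)).getD (2 ^ i) false = recT (gS β) (2 ^ i) :=
    fun i hi => pre_getD _ (Nat.pow_lt_pow_right (by norm_num) hi)
  refine and_congr (exists_congr fun i => and_congr_right fun hi => ?_) (and_congr_left
    fun _ => forall₂_congr fun i hi => ?_)
  · rw [h3 i hi]
  · rw [h3 i hi]

theorem oS_inj {i j : ℕ} (hi : oS β (2 ^ i) = true) (hj : oS β (2 ^ j) = true)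
    (h : nu i = nu j) : i = j := by
  have key : ∀ i j, oS β (2 ^ i) = true → oS β (2 ^ j) = true → nu i = nu j → ¬ i < j := by
    intro i j hi hj h hij
    rcases Nat.even_or_odd' (nu i) with ⟨m, hm | hm⟩
    · have h1 := (oS_even hm).1 hi
      have h2 := (oS_even (h ▸ hm)).1 hj
      exact h2.2 i hij h1.1
    · have h2 := ((oS_odd (h ▸ hm)).1 hj).2.1 i hij hm
      rw [hi] at h2
      exact absurd h2 (by simp)
  rcases lt_trichotomy i j with hlt | heq | hgt
  · exact absurd hlt (key i j hi hj h)
  · exact heq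
  · exact absurd hgt (key j i hj hi h.symm)

theorem oS_nu_lt {i n : ℕ} (hi : oS β (2 ^ i) = true) (hn : i ≤ n) : nu i < β n := by
  rcases Nat.even_or_odd' (nu i) with ⟨m, hm | hm⟩
  · have h1 := ((oS_even hm).1 hi).1.2 n hn
    omega
  · obtain ⟨j, hj, hj1, hj2⟩ := ((oS_odd hm).1 hi).1
    have h1 := ((oS_even hj1).1 hj2).1.2 n (hj.le.trans hn)
    omega

theorem oS_card (n : ℕ) :
    ((Finset.range n).filter fun i => oS β (2 ^ i) = true).card ≤ β n := by
  have h1 : Set.MapsTo nu ↑((Finset.range n).filter fun i => oS β (2 ^ i) = true)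
      (↑(Finset.range (β n)) : Set ℕ) := by
    intro i hi
    simp only [Finset.coe_filter, Finset.mem_range, Set.mem_ofPred_eq] at hi
    simp only [Finset.coe_range, Set.mem_Iio]
    exact oS_nu_lt hi.2 hi.1.le
  have h2 : Set.InjOn nu ↑((Finset.range n).filter fun i => oS β (2 ^ i) = true) := by
    intro i hi j hj h
    simp only [Finset.coe_filter, Finset.mem_range, Set.mem_ofPred_eq] at hi hj
    exact oS_inj hi.2 hj.2 h
  simpa using Finset.card_le_card_of_injOn nu h1 h2

end Pool.Agent.POpt70
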