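import Pool.Agent.POpt70.RelGen
import Pool.Agent.POpt70.RelSys

/-!
# The question relative to oracles with logarithmic information
-/

set_option autoImplicit false

namespace Pool.Agent.POpt70.RelativizedQOneResult

open N68a2faeb N793a5b8e Pool.Agent.POpt70

/-- For `T : ℕ → Bool` consider the oracle `{1^(2^k) : T k}`. It never changes whether `P = NP`.
The assertion of Q1 fails relative to some such oracles, which can be taken arbitrarily thin, and
it holds relative to some such oracle if and only if some tally language in `Π₂ᵖ` is not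
in `P`. -/
theorem result :
    (∀ T : ℕ → Bool, (∃ L, IsNPCompleteRel T L) ∧ (NPRel T ⊆ PRel T ↔ NP ⊆ P)) ∧
    (∀ β : ℕ → ℕ, (∀ k, ∃ n, ∀ i, n ≤ i → k ≤ β i) → ∃ T : ℕ → Bool, IsThin β T ∧
      ∀ L ∈ NPRel T, (∃ y, L y = true) → ∃ Q, IsPOptimalRel T L Q) ∧
    ((∃ T : ℕ → Bool, NoCompleteOptimal T) ↔ ∃ A ∈ PiTwo, Tally A ∧ A ∉ P) := by
  refine ⟨fun T => ⟨exists_complete T, NPRel_subset_PRel_iff T⟩, fun β hβ => ⟨oS β,
    ⟨fun k hk => oS_pow hk, oS_card⟩, fun L hL hne => exists_optimal_oS hβ hL hne⟩, ?_⟩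
  constructor
  · rintro ⟨T, hT⟩
    by_contra hcon
    obtain ⟨L, hL⟩ := exists_complete T
    refine hT L hL (optimal_of_collapse (fun A hA hTal => ?_) hL.1 ?_)
    · by_contra hAP
      exact hcon ⟨A, hA, hTal, hAP⟩
    · obtain ⟨f, _, hf⟩ := hL.2 (fun _ => true)
        (NP_subset_NPRel (Pool.Agent.POpt67.const_mem_NP true))
      exact ⟨f [], (hf []).symm⟩
  · rintro ⟨A, hA, hTal, hAP⟩
    exact exists_oracle_complete_not_optimal fun hcol => hAP (hcol A hA hTal)

end Pool.Agent.POpt70.RelativizedQOneResult
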