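import Pool.Agent.POpt67.Tally

/-!
# Arithmetic tools: bounded powers, iterated logarithm, the ruler function, clocked values
-/

set_option autoImplicit false

namespace Pool.Agent.POpt70

open Pool.Agent.PT Pool.Agent.TMB67 Pool.Agent.POpt67

variable {α β : Type} [Enc α] [Enc β]

theorem log_eq_size (n : ℕ) : Nat.log 2 n = Nat.size n - 1 := by
  rcases Nat.eq_zero_or_pos n with rfl | hn
  · simp
  · have h1 : n < 2 ^ Nat.size n := Nat.lt_size_self n
    have h2 : 0 < Nat.size n := Nat.size_pos.2 hn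
    refine Nat.log_eq_of_pow_le_of_lt_pow ?_ ?_
    · by_contra hc
      have h3 : Nat.size n ≤ Nat.size n - 1 := Nat.size_le.2 (by omega)
      omega
    · rwa [Nat.sub_add_cancel h2]

@[fun_prop]
theorem natLog_polyTime {f : α → ℕ} (hf : PolyTime f) : PolyTime (fun x => Nat.log 2 (f x)) :=
  (hf.natSize.natPred).congr fun x => log_eq_size _

/-- Capped power of two. -/
def cp (l k : ℕ) : ℕ := 2 ^ min k (Nat.log 2 l)

theorem cp_le (l k : ℕ) : cp l k ≤ l + 1 := by
  unfold cp
  rcases Nat.eq_zero_or_pos l with rfl | hl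
  · simp
  · calc 2 ^ min k (Nat.log 2 l) ≤ 2 ^ Nat.log 2 l :=
        Nat.pow_le_pow_right (by norm_num) (min_le_right _ _)
      _ ≤ l := Nat.pow_log_le_self 2 (by omega)
      _ ≤ l + 1 := Nat.le_succ _

theorem cp_eq {l k : ℕ} (h : 2 ^ k ≤ l) : cp l k = 2 ^ k := by
  unfold cp
  rw [min_eq_left]
  exact Nat.le_log_of_pow_le (by norm_num) h

@[fun_prop]
theorem cp_polyTime {f g : α → ℕ} (hf : PolyTime f) (hg : PolyTime g) :
    PolyTime (fun x => cp (f x) (g x)) := by
  have h1 := hf.pbdd
  unfold cp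
  refine PolyTime.natPow (s := fun x => sz (f x) + 1) (PolyTime.const 2)
    (hg.natMin (natLog_polyTime hf)) (by fun_prop) fun x i hi => ?_
  have h2 : 2 ^ i ≤ cp (f x) (g x) := Nat.pow_le_pow_right (by norm_num) hi
  have h3 := cp_le (f x) (g x)
  have h4 : f x + 1 ≤ sz (f x) := by rw [sz_nat]; omega
  omega

/-- Capped `2^(2^k)`. -/
def cp2 (l k : ℕ) : ℕ := cp l (cp l k)

theorem cp2_eq {l k : ℕ} (h : 2 ^ 2 ^ k ≤ l) : cp2 l k = 2 ^ 2 ^ k := by
  have h1 : 2 ^ k ≤ 2 ^ 2 ^ k := Nat.pow_le_pow_right (by norm_num) (Nat.lt_two_pow_self).le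
  rw [cp2, cp_eq (h1.trans h), cp_eq h]

@[fun_prop]
theorem cp2_polyTime {f g : α → ℕ} (hf : PolyTime f) (hg : PolyTime g) :
    PolyTime (fun x => cp2 (f x) (g x)) := by
  unfold cp2
  fun_prop

/-- The iterated logarithm. -/
def ll (l : ℕ) : ℕ := Nat.log 2 (Nat.log 2 l)

theorem ll_pow (j : ℕ) : ll (2 ^ 2 ^ j) = j := by
  simp [ll, Nat.log_pow]

@[fun_prop]
theorem ll_polyTime {f : α → ℕ} (hf : PolyTime f) : PolyTime (fun x => ll (f x)) := by
  unfold ll
  fun_prop

/-! ### The ruler function -/

/-- Halving step. -/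
def halve (p : ℕ × ℕ) : ℕ × ℕ := if p.1 % 2 = 0 then (p.1 / 2, p.2 + 1) else p

/-- The exponent of `2` in `j + 1`. -/
def nu (j : ℕ) : ℕ := (halve^[j] (j + 1, 0)).2

theorem halve_odd (i n c : ℕ) (h : n % 2 = 1) : halve^[i] (n, c) = (n, c) := by
  induction i with
  | zero => rfl
  | succ i ih =>
    rw [Function.iterate_succ_apply]
    have : halve (n, c) = (n, c) := by simp [halve, h]
    rw [this, ih]

theorem halve_pow (m : ℕ) : ∀ (n c : ℕ), halve^[m] (2 ^ m * n, c) = (n, c + m) := by
  induction m with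
  | zero => intro n c; simp
  | succ m ih =>
    intro n c
    rw [Function.iterate_succ_apply]
    have h1 : halve (2 ^ (m + 1) * n, c) = (2 ^ m * n, c + 1) := by
      have h2 : 2 ^ (m + 1) * n = 2 * (2 ^ m * n) := by ring
      simp [halve, h2]
    rw [h1, ih]
    congr 1
    omega

theorem nu_eq {j m r : ℕ} (h : j + 1 = 2 ^ m * (2 * r + 1)) : nu j = m := by
  have h1 : m ≤ j := by
    have h2 : m < 2 ^ m := Nat.lt_two_pow_self
    have h3 : 2 ^ m * 1 ≤ 2 ^ m * (2 * r + 1) := Nat.mul_le_mul_left _ (by omega)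
    omega
  obtain ⟨k, rfl⟩ := Nat.exists_eq_add_of_le h1
  rw [nu, h, add_comm m k, Function.iterate_add_apply, halve_pow, halve_odd _ _ _ (by omega)]
  simp

@[fun_prop]
theorem nu_polyTime {f : α → ℕ} (hf : PolyTime f) : PolyTime (fun x => nu (f x)) := by
  have h1 := hf.pbdd
  have hst : PolyTime halve := by
    unfold halve
    exact PolyTime.ite (PolyTime.decide_eq (PolyTime.natMod (by fun_prop) (by fun_prop))
      (by fun_prop)) (PolyTime.pair (PolyTime.natDiv (by fun_prop) (by fun_prop)) (by fun_prop))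
      (by fun_prop)
  have hbd : ∀ (i n c : ℕ), (halve^[i] (n, c)).1 ≤ n ∧ (halve^[i] (n, c)).2 ≤ c + i := by
    intro i
    induction i with
    | zero => intro n c; simp
    | succ i ih =>
      intro n c
      rw [Function.iterate_succ_apply]
      by_cases hn : n % 2 = 0
      · simp only [halve, hn, if_true]
        have := ih (n / 2) (c + 1)
        omega
      · simp only [halve, hn, if_false]
        have := ih n c
        omega
  have h := PolyTime.iterate (n := f) (g := fun x => (f x + 1, 0)) hst hf (by fun_prop)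
    (s := fun x => 4 * sz (f x) + 4) (by fun_prop) (fun x i hi => by
      have := hbd i (f x + 1) 0
      rw [sz_prod]
      simp only [sz_nat]
      omega)
  exact PolyTime.snd h

/-! ### Clocked values of programs -/

/-- The admissibility test for the input `u` of a program with exponent `a` when the clock may run
up to `l`: it implies `(|u| + 2)^(a + 1) ≤ l`. -/
def guard (a : ℕ) (u : List Bool) (l : ℕ) : Prop :=
  (a + 1) * (Nat.size u.length + 1) ≤ Nat.log 2 l

instance (a : ℕ) (u : List Bool) (l : ℕ) : Decidable (guard a u l) := by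
  unfold guard; infer_instance

theorem size_bound (n : ℕ) : n + 2 ≤ 2 ^ (Nat.size n + 1) := by
  have h1 : n < 2 ^ Nat.size n := Nat.lt_size_self n
  rw [pow_succ]
  omega

theorem guard_pow {a l : ℕ} {u : List Bool} (h : guard a u l) : (u.length + 2) ^ (a + 1) ≤ l := by
  unfold guard at h
  have hl : l ≠ 0 := by
    rintro rfl
    simp only [Nat.log_zero_right, Nat.le_zero, mul_eq_zero] at h
    omega
  calc (u.length + 2) ^ (a + 1) ≤ (2 ^ (Nat.size u.length + 1)) ^ (a + 1) :=
        Nat.pow_le_pow_left (size_bound _) _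
    _ = 2 ^ ((a + 1) * (Nat.size u.length + 1)) := by rw [← pow_mul, mul_comm]
    _ ≤ 2 ^ Nat.log 2 l := Nat.pow_le_pow_right (by norm_num) h
    _ ≤ l := Nat.pow_log_le_self 2 hl

theorem guard_length {a l : ℕ} {u : List Bool} (h : guard a u l) : u.length ≤ l := by
  have h1 := guard_pow h
  have h2 : u.length + 2 ≤ (u.length + 2) ^ (a + 1) := by
    rw [pow_succ]
    exact Nat.le_mul_of_pos_left _ (by positivity)
  omega

theorem guard_mono {a l l' : ℕ} {u : List Bool} (h : guard a u l) (hl : l ≤ l') : guard a u l' :=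
  le_trans h (Nat.log_mono_right hl)

@[fun_prop]
theorem guard_polyTime {a : α → ℕ} {u : α → List Bool} {l : α → ℕ} (ha : PolyTime a)
    (hu : PolyTime u) (hl : PolyTime l) : PolyTime (fun x => decide (guard (a x) (u x) (l x))) := by
  unfold guard
  exact PolyTime.decide_le (by fun_prop) (by fun_prop)

/-- Every polynomial is bounded by a power of `n + 2`. -/
theorem exists_pow_bound (Q : Polynomial ℕ) : ∃ a, ∀ n, Q.eval n ≤ (n + 2) ^ (a + 1) := by
  induction Q using Polynomial.induction_on' with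
  | add p q hp hq =>
    obtain ⟨a, ha⟩ := hp
    obtain ⟨b, hb⟩ := hq
    refine ⟨a + b + 1, fun n => ?_⟩
    rw [Polynomial.eval_add]
    have h1 : (n + 2) ^ (a + 1) ≤ (n + 2) ^ (a + b + 1) :=
      Nat.pow_le_pow_right (by omega) (by omega)
    have h2 : (n + 2) ^ (b + 1) ≤ (n + 2) ^ (a + b + 1) :=
      Nat.pow_le_pow_right (by omega) (by omega)
    have h3 : 2 * (n + 2) ^ (a + b + 1) ≤ (n + 2) ^ (a + b + 1 + 1) := by
      rw [pow_succ (n + 2) (a + b + 1), mul_comm]
      exact Nat.mul_le_mul_left _ (by omega)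
    have := ha n
    have := hb n
    omega
  | monomial k c =>
    refine ⟨k + c, fun n => ?_⟩
    rw [Polynomial.eval_monomial]
    have h1 : c ≤ 2 ^ c := (Nat.lt_two_pow_self).le
    have h2 : 2 ^ c ≤ (n + 2) ^ c := Nat.pow_le_pow_left (by omega) _
    have h3 : n ^ k ≤ (n + 2) ^ k := Nat.pow_le_pow_left (by omega) _
    calc c * n ^ k ≤ (n + 2) ^ c * (n + 2) ^ k := Nat.mul_le_mul (h1.trans h2) h3
      _ = (n + 2) ^ (k + c) := by rw [← pow_add, Nat.add_comm c k]
      _ ≤ (n + 2) ^ (k + c + 1) := Nat.pow_le_pow_right (by omega) (by omega)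

/-- The value of program `q` on `u` with clock `(|u| + 2)^(a + 1)`. -/
noncomputable def val (q a : ℕ) (u : List Bool) : List Bool :=
  uni (cmdOf q) ((u.length + 2) ^ (a + 1)) u

/-- The value of program `q` under the guard. -/
noncomputable def gval (q a : ℕ) (u : List Bool) (l : ℕ) : List Bool :=
  uni (cmdOf q) ((u.length + 2) ^ (if guard a u l then a + 1 else 0)) u

theorem gval_eq {q a l : ℕ} {u : List Bool} (h : guard a u l) : gval q a u l = val q a u := by
  simp [gval, val, h]

theorem gval_polyTime {q a l : α → ℕ} {u : α → List Bool} (hq : PolyTime q) (ha : PolyTime a)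
    (hu : PolyTime u) (hl : PolyTime l) :
    PolyTime (fun x => gval (q x) (a x) (u x) (l x)) := by
  have h0 := hl.pbdd
  have h0' := hu.pbdd
  have h1 : PolyTime (fun x => (if guard (a x) (u x) (l x) then a x + 1 else 0)) :=
    PolyTime.ite (guard_polyTime ha hu hl) (by fun_prop) (by fun_prop)
  have h2 : PolyTime (fun x => ((u x).length + 2) ^
      (if guard (a x) (u x) (l x) then a x + 1 else 0)) := by
    refine PolyTime.natPow (s := fun x => sz (l x) + 1) (by fun_prop) h1 (by fun_prop)
      fun x i hi => ?_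
    by_cases hg : guard (a x) (u x) (l x)
    · rw [if_pos hg] at hi
      have h3 := guard_pow hg
      have h4 : ((u x).length + 2) ^ i ≤ ((u x).length + 2) ^ (a x + 1) :=
        Nat.pow_le_pow_right (by omega) hi
      have h5 : l x ≤ sz (l x) := by rw [sz_nat]; omega
      omega
    · rw [if_neg hg] at hi
      obtain rfl : i = 0 := by omega
      simp
  exact uni_polyTime.comp (f := fun x => (cmdOf (q x), ((u x).length + 2) ^
      (if guard (a x) (u x) (l x) then a x + 1 else 0), u x))
    (PolyTime.pair (cmdOf_polyTime.comp hq) (PolyTime.pair h2 hu))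

theorem val_length {q a l : ℕ} {u : List Bool} (h : guard a u l) :
    (val q a u).length ≤ 5 * l + 1 := by
  have h1 := uni_length (cmdOf q) ((u.length + 2) ^ (a + 1)) u
  have h2 := guard_pow h
  have h3 := guard_length h
  unfold val
  omega

/-- Every polynomial-time function on strings is some `val q a`. -/
theorem exists_val {S : List Bool → List Bool} (hS : PolyTime S) :
    ∃ q a, ∀ u, val q a u = S u := by
  obtain ⟨c, Q, h⟩ := uni_spec hS
  obtain ⟨q, hq⟩ := cmdOf_surjective c
  obtain ⟨a, ha⟩ := exists_pow_bound Q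
  exact ⟨q, a, fun u => by rw [val, hq]; exact h u _ (ha _)⟩

end Pool.Agent.POpt70
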